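import Mathlib
import Pool.Graph.R_seed8.H645R2.K.Main
import Pool.Graph.R_seed8.H645R2.R.All

/-!
Statements of the steps for: over `RCA₀`, for every `k ≥ 2` the following are equivalent:
Hindman's theorem for sums of at most two terms and `2 k` colours, the same for `2 k + 1` colours,
and Hindman's theorem for sums of at most two terms with apartness and `k` colours.
-/

namespace Pool.Agent.H654.HA

open Pool.Agent.Helper617.RM Pool.Agent.H645R2.K
open Pool.Agent.H645R2.R (BinF Ev Enum Bd)

universe u

set_option linter.unusedSectionVars false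
set_option linter.unusedVariables false

section defs

variable {N : L2Structure.{u}} [IsModelRCA0 N] {k : ℕ}

/-- `P` contains arbitrarily large `x` such that the sum of `x` and any smaller member of `P`
(up to any bound given before) is again in `P` -/
def SumClosed (P : N.M → Prop) : Prop :=
  ∀ b, ∃ x, b < x ∧ P x ∧ ∀ z, z ≤ b → P z → P (z + x)

/-- a large arithmetical set of numbers that is closed under sums in the sense of `SumClosed`,
whose members have their colours in a set of at most `K` colours -/
def ConcFS (col : N.M → Fin k) (K : ℕ) : Prop :=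
  ∃ S : Finset (Fin k), S.card ≤ K ∧ ∃ P : N.M → Prop, D0 (fun v => P (v 0)) ∧
    (∀ z, P z → col z ∈ S) ∧ SumClosed P

/-- `σ n` is the sum of the numbers `x i`, where `i` ranges over the positions of the ones in the
binary expansion of `n` -/
structure SumSys (p2 x σ : N.M → N.M) : Prop where
  hx : DF1 x
  hσ : DF1 σ
  x_ge : ∀ i, p2 i ≤ x i
  zero : σ 0 = 0
  add : ∀ m i, m < p2 i → σ (m + p2 i) = σ m + x i

/-- an unbounded set of the model, all of whose sums of at most two terms have the same colour -/
structure HomK {ι : Type} (c : N.M → ι) (X : Set N.M) : Prop where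
  mem : X ∈ N.Sets
  unb : ∀ b, ∃ x ∈ X, b < x
  one : ∀ x ∈ X, ∀ y ∈ X, c x = c y
  two : ∀ x ∈ X, ∀ y ∈ X, x < y → c (x + y) = c x

/-- the same with apartness: for `x < y` in the set there is a power of two `p2 i` which divides
`y` and is greater than `x` -/
structure HomA {ι : Type} (p2 : N.M → N.M) (c : N.M → ι) (X : Set N.M) : Prop where
  hom : HomK c X
  pos : ∀ x ∈ X, 0 < x
  apart : ∀ x ∈ X, ∀ y ∈ X, x < y → ∃ i q, x < p2 i ∧ y = p2 i * q

/-- the colouring for the reversal: the parity of the number of important gaps -/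
structure Col2 (p2 top la : N.M → N.M) (W : N.M → N.M → Prop) (C : N.M → Fin 2) : Prop where
  hC : ∀ j, D0 (fun v => C (v 0) = j)
  pow : ∀ i, C (p2 i) = 0
  add1 : ∀ m i, 0 < m → m < p2 i → Ev W (la m) (top m) i → C (m + p2 i) = C m + 1
  add0 : ∀ m i, 0 < m → m < p2 i → ¬ Ev W (la m) (top m) i → C (m + p2 i) = C m

end defs

/-! ### from apartness to twice as many colours -/

/-- HA-A. The end of the E-case, for all finite sums.

Copy `efinal` (`Pool/Graph/R_seed8/H645R2/K/EFinal.lean`, 130 lines). Take
`P z := EF_P0 col A G S z` (all auxiliary definitions and `D0` lemmas of that file can be imported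
and reused). The proof there constructs, for given `b`, a number `x' = yn + (d' + p' + (o' + o'))`
with `b < x'`, `EF_P0 col A G S x'` and `col (z + x') ∈ S` for all `z ≤ b` with `EF_P0 z`. Only one
thing has to be added: for these `z = r + (p + (o + o))` also `EF_P0 (z + x')` holds, with the same
word `(t,l,o)` and the new places `p'' = p' + q1 + p` and `r'' = yn + d' + q2 + r`:
`z + x' = r'' + (p'' + (o + o))` because `q1 + q2 = o' + o'`; `Occ col A t l p''` because `A` has
the word `(t',l')` at `p'`, which has `A` (up to `B`) at `q1`, and `A` has `(t,l)` at `p`,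
`p + l ≤ B` (this is `hOcc` resp. the term `e2` of `claim2` there); `Occ col A t l r''` because `A`
has `(t',l')` at `yn + d'` (`hn1` for `y n`, `A1_lim`), which has `A` (up to `B`) at `q2`, and `A`
has `(t,l)` at `r` (this is `hocc` of `claim2`, with `yn` in place of `ya`). -/
def S_efs : Prop := ∀ (N : L2Structure.{u}) [IsModelRCA0 N] [Sig1 N] (k : ℕ)
  (col : N.M → Fin k) (G : Set N.M) (y : N.M → N.M) (F : N.M → N.M → Fin k)
  (A A1 B1 B2 A2 : N.M → Fin k), Sys col G y F A A1 B1 B2 A2 →
  ∀ (K : ℕ) (S : Finset (Fin k)), S.card ≤ K → HypE col A G S → ConcFS col K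

/-- HA-B. The end of the C-case, for all finite sums.

Copy `cfinal` (`Pool/Graph/R_seed8/H645R2/K/CFinal.lean`; its auxiliary definitions `CFin.W`,
`CFin.P` and lemmas `CFin.W_D0`, `CFin.P_D0`, `CFin.shiftF`, `CFin.midF` can be imported and
reused). The proof there constructs, for given `b`, a number `x' = y n' + (g + o')` with `b < x'`,
a set `S'` with `P S' x'`, and shows `col (z + x') ∈ S` for all `S` and `z ≤ b` with `P S z`.
To be added: for these `S`, `z` also `P S (z + x')` holds, i.e. `∃ w, W .. S (z + x') w`. If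
`t l o d d' n g2 R` are the witnesses for `z` (so `z = y n + g2`, `d + d' + (o + o) = g2 + g2`),
take for `z + x'`: the same `t l o` (and the same `midS`), `n := n'`, `g := g + o' + z`,
`D := d1 + (q2 + ((y μ + y μ) + (y n + y n + d)))`, `D' := d1' + (q1 + d')`, `R := n1`:
`z + x' = y n' + (g + o' + z)`; `D + D' + (o + o) = (g+o'+z) + (g+o'+z)` is the computation `e1` of
`claim2` there; `OccF col F t l (y n' + y n' + D) 0` is the computation of `hOc2` there with
`ν := n'` and without the final shift; `∀ ν ≥ n1, OccF col F t l D' (y ν + y ν)` is `hOc1` there.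
Then fix the set of colours by pigeonhole: `Finset (Fin k)` is finite, so some `S` works for
unboundedly many `b` and hence for all `b` (compare the end of `solveK`,
`Pool/Graph/R_seed8/H645R2/K/SolveK.lean`); `P z := CFin.P col G y F K S z`. -/
def S_cfs : Prop := ∀ (N : L2Structure.{u}) [IsModelRCA0 N] [Sig1 N] (k : ℕ)
  (col : N.M → Fin k) (G : Set N.M) (y : N.M → N.M) (F : N.M → N.M → Fin k)
  (A A1 B1 B2 A2 : N.M → Fin k), Sys col G y F A A1 B1 B2 A2 →
  ∀ (K : ℕ) (L0 : N.M), HypC col A G K L0 → ConcFS col K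

/-- HA-C (taken by helper654). The dichotomy. -/
def S_dich : Prop := ∀ (N : L2Structure.{u}) [IsModelRCA0 N] [Sig1 N] (k : ℕ)
  (col : N.M → Fin k), CT1 col → Conc col 1 ∨ ConcFS col (max 1 (k / 2))

/-- HA-D. All finite sums of a suitable sequence are in `P`.

Let `φ b` be the least `x > b` with `P x` and `∀ z ≤ b, P z → P (z + x)` (`SumClosed`; or use
dependent choice `dc`, see the use in `Pool/Graph/R_seed8/H645R2/K/SolveK.lean`). Define by
recursion (`exists_recursion` in `Pool/Graph/R_seed8/Helper617/RM/Recursion.lean`) bounds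
`B 0 = 1`, `B (i+1) = B i + B i + φ (B i) `, and put `x i = φ (B i)`. Then `p2 i ≤ B i < x i`, and
`B (i+1) ≥ B i + x i`. By course-of-values recursion on the highest binary digit (statement
`Pool.Agent.H645R2.R.S_rec`, proved as `Pool.Agent.H645R2.R.recur`, used exactly in this way in
`Pool/Graph/R_seed8/H645R2/R/ColEx.lean`: `pd n = n - p2 (top n)`) there is `σ` with `σ 0 = 0` and
`σ (m + p2 i) = σ m + x i` for `m < p2 i`. By induction on `i`: for all `m < p2 i`, `σ m ≤ B i`
and `0 < m → P (σ m)`: for `m' = m + p2 i < p2 (i+1)`: if `m = 0` then `σ m' = x i`, otherwise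
`σ m ≤ B i` and `P (σ m)` give `P (σ m + x i)`. Everything is arithmetical, and with `Sig1` there
is induction for all `D0` relations (`ind` in `H675R2.HT`; `S1.toD0`, `D0.ex`, `D0.all`). -/
def S_seq : Prop := ∀ (N : L2Structure.{u}) [IsModelRCA0 N] [Sig1 N] (p2 top la : N.M → N.M),
  BinF p2 top la → ∀ P : N.M → Prop, D0 (fun v => P (v 0)) → SumClosed P →
  ∃ x σ : N.M → N.M, SumSys p2 x σ ∧ ∀ n, 0 < n → P (σ n)

/-- HA-E. The facts about the sums.

Induction on the number (all `D0` predicates allowed, `ind`), removing the highest digit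
(`BinP.dec`: `n = p2 (top n)` or `n = m + p2 (top n)` with `0 < m < p2 (top n)`; write `n = p2 (top n)`
as `0 + p2 (top n)`). First: `n ≤ σ n` from `p2 i ≤ x i`. Second: for `q = 0` trivial; for `q > 0`
let `n = p2 i * q` and `j = top n ≥ i` (`i ≤ la n ≤ top n`). If `n = p2 j`: `σ (m + p2 j) = σ m + x j`
and `σ (0 + p2 j) = x j`. Otherwise `n = r + p2 j`, `0 < r < p2 j`; `p2 i` divides `r`
(as it divides `n` and `p2 j`), `r = p2 i * q'` with `q' < q`, `m + r < p2 j` because `m < p2 i` and
`p2 i` divides `r < p2 j`; so `σ (m + n) = σ (m + r) + x j = σ m + σ r + x j = σ m + σ n`. -/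
def S_sum : Prop := ∀ (N : L2Structure.{u}) [IsModelRCA0 N] [Sig1 N] (p2 top la : N.M → N.M),
  BinF p2 top la → ∀ x σ : N.M → N.M, SumSys p2 x σ →
  (∀ n, n ≤ σ n) ∧ (∀ m i q, m < p2 i → σ (m + p2 i * q) = σ m + σ (p2 i * q))

/-- HA-F. Apartness for `K` colours solves the colourings that satisfy `ConcFS`.

Prove it as `theorem use (h1 : S_seq.{u}) (h2 : S_sum.{u}) : S_use.{u}`. Let `S`, `P` be from
`ConcFS col K` and `x`, `σ` from `h1`. Choose `e : Fin k → Fin K` injective on `S` (`K > 0` because
`P` is not empty, so `S` is not empty; `S.card ≤ K`; for instance via `Finset.equivFin` or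
`Function.Embedding`/`Finset.exists_injOn...`). Apply the hypothesis to `c n = e (col (σ n))`
(`CT1` by `DF.app`, `CT.app1`, finite disjunctions). Let `Y` be the `HomA` set for `c`; then
`X = {z | ∃ y, y ∈ Y ∧ z = σ y}` is `HomK` for `col`: it is in `N.Sets` (`comp_D0`), unbounded
(`n ≤ σ n`), for `y < y'` in `Y`, `y' = p2 i * q`, `y < p2 i`, so `σ (y + y') = σ y + σ y'`;
`col (σ n) ∈ S` for `n > 0`, and `e` is injective on `S`. (If `σ y < σ y'` then `y ≠ y'`, so
`y < y'` or `y' < y`; use commutativity.) -/
def S_use : Prop := ∀ (N : L2Structure.{u}) [IsModelRCA0 N] [Sig1 N] (p2 top la : N.M → N.M),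
  BinF p2 top la → ∀ (k K : ℕ) (col : N.M → Fin k), CT1 col → ConcFS col K →
  (∀ c : N.M → Fin K, CT1 c → ∃ X, HomA p2 c X) → ∃ X, HomK col X

/-! ### from twice as many colours to apartness -/

/-- HA-G. Homogeneous sets for `2 k` colours give homogeneous sets for `k` colours with apartness.

Given `c : N.M → Fin k` apply the hypothesis to `c' n = 2 * c n + (la n mod 2)`, where `la n mod 2`
is `0` if `∃ h, la n = h + h` and `1` otherwise (every number is `h + h` or `h + h + 1`). Let `X` be
homogeneous for `c'`: all `x ∈ X` and all `x + y` (`x < y` in `X`) have the same `c` and the same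
parity of `la`. At most two elements `x > 0` of `X` have the same `la x = v`: if
`x j = p2 v * (q j + q j + 1)` for `j = 1, 2, 3` are three of them, then
`x i + x j = p2 (v+1) * (q i + q j + 1)` has `la ≥ v + 1`, and `la = v + 1` if `q i + q j + 1` is odd
(`la_unique`, `le_la`); as the parity of `la` is that of `v`, `q i + q j + 1` is even, so `q i`, `q j`
have different parities for all pairs, impossible. Hence for every `v` there is a bound `b` with
`la x ≠ v` for all `x ∈ X`, `x > b`; by `strong_bounding` (bounding for `D0` relations) one bound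
works for all `v < B`, and since `X` is unbounded there are `x ∈ X` with `la x ≥ B`, for every `B`
(and arbitrarily large such `x`). By dependent choice (`dc`, see `SolveK.lean`) there is a sequence
`f` in `X`, `0 < f n`, with `f n < p2 (la (f (n+1)))`; it is increasing, and its range is `HomA`
for `c` (`f m < p2 (la (f n))` for `m < n`; `f n = p2 (la (f n)) * q` by `la_eq`). -/
def S_down : Prop := ∀ (N : L2Structure.{u}) [IsModelRCA0 N] [Sig1 N] (p2 top la : N.M → N.M),
  BinF p2 top la → ∀ (k : ℕ), (∀ c : N.M → Fin (2 * k), CT1 c → ∃ X, HomK c X) →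
  ∀ c : N.M → Fin k, CT1 c → ∃ X, HomA p2 c X

/-! ### apartness and two colours imply arithmetical comprehension -/

/-- HA-H. Existence of the colouring (over `RCA₀`, no `Sig1` here).

Same method as `colex` in `Pool/Graph/R_seed8/H645R2/R/ColEx.lean` (course-of-values recursion
`S_rec`, proved as `Pool.Agent.H645R2.R.recur`, on the highest digit, `pd n = n - p2 (top n)`), but
simpler: `C 0 = 0`, `C (p2 i) = 0`, and for `n = m + p2 i`, `0 < m < p2 i`: `C n = C m + 1` if
`Ev W (la m) (top m) i`, otherwise `C n = C m`. Work with a function with values `0`, `1` in `N.M`.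
State it as `theorem col2 : S_col2.{u}`. -/
def S_col2 : Prop := ∀ (N : L2Structure.{u}) [IsModelRCA0 N] (p2 top la : N.M → N.M)
  (W : N.M → N.M → Prop), BinF p2 top la → Enum W → ∃ C : N.M → Fin 2, Col2 p2 top la W C

/-- HA-I. The colour of a sum (over `RCA₀`).

Induction on `q` (or on `n = p2 i * q`; use `ind_S1` for a `D0` statement with bounded quantifiers,
as in `Pool/Graph/R_seed8/H645R2/R/Stab.lean` and `Gap.lean`), removing the highest digit
(`BinP.dec`, `BinF` facts). Let `n = p2 i * q`, `j = top n ≥ i ≥ M`. If `n = p2 j`, then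
`C (w + p2 j) = C w + [Ev W (la w) (top w) j]` (`add1`, `add0`; `w < p2 i ≤ p2 j`), and
`Ev W (la w) (top w) j ↔ Ev W (la w) (top w) M` because `M ≤ j`, `W` is increasing and
`Bd W P M`, `la w ≤ P`. If `n = r + p2 j`, `0 < r < p2 j`, then `r = p2 i * q'`, `0 < q' < q`,
`m = w + r < p2 j`, `la m = la w` (`la_add`), `top m ≥ i ≥ M`, so `¬ Ev W (la m) (top m) j` and
`C (w + n) = C (w + r)`, to which the induction hypothesis applies. -/
def S_gap2 : Prop := ∀ (N : L2Structure.{u}) [IsModelRCA0 N] (p2 top la : N.M → N.M)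
  (W : N.M → N.M → Prop) (C : N.M → Fin 2), BinF p2 top la → Enum W → Col2 p2 top la W C →
  ∀ P M, Bd W P M → ∀ w i, 0 < w → w < p2 i → la w ≤ P → M ≤ i → ∀ q, 0 < q →
    (Ev W (la w) (top w) M → C (w + p2 i * q) = C w + 1) ∧
      (¬ Ev W (la w) (top w) M → C (w + p2 i * q) = C w)

/-- HA-J. Every element of a homogeneous set with apartness bounds the stages (over `RCA₀`).

Prove it as `theorem set2 (h : S_gap2.{u}) : S_set2.{u}` (compare
`Pool/Graph/R_seed8/H645R2/R/Settled.lean`). First part: given `b` take `x ∈ X` with `p2 b < x` and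
`y ∈ X` with `x < y`; `y = p2 i * q`, `x < p2 i`, so `b < i ≤ la y` (`le_la`, `q > 0` as `y > 0`).
Second part: let `h ∈ X`, `z < la h`, `W s z` and suppose `¬ W (top h) z`. Take `M ≥ s` with
`Bd W (la h) M` (`Pool.Agent.H645R2.R.bd`) and `l ∈ X` with `la l > M + top h`, so
`h < p2 (la l) ≤ l`; `l = p2 (la l) * (q + q + 1)`. `h` (`S_gap2`) with `P = la h`, `w = h`,
`i = la l` gives `C (h + l) = C h + 1`, contradiction. -/
def S_set2 : Prop := ∀ (N : L2Structure.{u}) [IsModelRCA0 N] (p2 top la : N.M → N.M)
  (W : N.M → N.M → Prop) (C : N.M → Fin 2), BinF p2 top la → Enum W → Col2 p2 top la W C →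
  ∀ X, HomA p2 C X → (∀ b, ∃ x ∈ X, b < la x) ∧ ∀ h ∈ X, Bd W (la h) (top h)

/-- HA-K. Apartness and two colours give `Σ⁰₁` comprehension.

Prove it as `theorem rev2 (h1 : S_col2.{u}) (h2 : S_set2.{u}) : S_rev2.{u}`: same proof as `rev_of` in
`Pool/Graph/R_seed8/H645R2/R/RevL.lean`, with `z ∈ P ↔ W (top h) z` for any `h ∈ X` with
`z < la h`. -/
def S_rev2 : Prop := ∀ (N : L2Structure.{u}) [IsModelRCA0 N] (p2 top la : N.M → N.M),
  BinF p2 top la → (∀ C : N.M → Fin 2, (∀ j, D0 (fun v => C (v 0) = j)) →
    ∃ X, HomA p2 C X) → Sig1 N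

/-! ### powers of two -/

/-- HA-L. The powers of two are the numbers all of whose divisors are `1` or even (over `RCA₀`).

(→) `d = p2 (la d) * (q + q + 1)` (`d > 0`: for `d = 0` take `a = 1 + 1 + 1`, `b = 0`), so
`q + q + 1` divides `d`; it is not even, so it is `1`. (←) Let `a * b = p2 i`,
`a = p2 u * (r + r + 1)`, `b = p2 v * (s + s + 1)`. Then `p2 i = p2 (u + v) * (t + t + 1)` with
`t + t + 1 = (r + r + 1) * (s + s + 1)`, so `u + v = i` by `la_unique` (`p2 i = p2 i * (0 + 0 + 1)`)
and `t + t + 1 = 1` by cancellation, so `r = 0` and `a = p2 u`, which is `1` or `p2 u' + p2 u'`. -/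
def S_pow2 : Prop := ∀ (N : L2Structure.{u}) [IsModelRCA0 N] (p2 top la : N.M → N.M),
  BinF p2 top la → ∀ d : N.M,
    (∃ i, d = p2 i) ↔ ∀ a b : N.M, a * b = d → a = 1 ∨ ∃ e, a = e + e

end Pool.Agent.H654.HA
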