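import Mathlib
import Pool.Agent.H654.HA.Defs
import Pool.Graph.R_seed8.H645R2.K.All

/-! The dichotomy: one colour, or a set closed under sums with at most `max 1 (k/2)` colours. -/

namespace Pool.Agent.H654.HA

open Pool.Agent.Helper617.RM Pool.Agent.H645R2.K

universe u

set_option linter.unusedSectionVars false
set_option linter.unusedVariables false

theorem dich (h6 : S_efs.{u}) (h7 : S_cfs.{u}) : S_dich.{u} := by
  intro N _ _ k col hcol
  obtain ⟨G, hG⟩ := minlang N k col hcol
  obtain ⟨y, F, A, A1, B1, B2, A2, hS⟩ := sys point conv N k col G hcol hG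
  set K := max 1 (k / 2) with hK
  by_cases hH : HypH col A G
  · right
    by_cases hE : ∃ S : Finset (Fin k), S.card ≤ K ∧ HypE col A G S
    · obtain ⟨S, hSK, hE⟩ := hE
      exact h6 N k col G y F A A1 B1 B2 A2 hS K S hSK hE
    · push Not at hE
      obtain ⟨L0, hL0⟩ := finite_max (N := N) (Finset.univ : Finset (Finset (Fin k)))
        (fun S L => S.card ≤ K → ¬ EL col A G S L) (by
          intro S
          by_cases hSK : S.card ≤ K
          · have h8 := hE S hSK
            unfold HypE at h8
            rw [not_forall] at h8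
            obtain ⟨L, hL⟩ := h8
            exact ⟨L, fun _ => hL⟩
          · exact ⟨0, fun h => absurd h hSK⟩) (by
          intro S L L' hLL h8 h9 h10
          exact h8 h9 (h10.mono hLL))
      refine h7 N k col G y F A A1 B1 B2 A2 hS K L0 ?_
      intro t l o htl hol hoL hA
      obtain ⟨t1, l1, o1, ht1, ho1, hC, S, hm, he⟩ := sep N k col A G hG hH t l o htl hol
      refine ⟨t1, l1, o1, ht1, ho1, hC, S, ?_, hm⟩
      by_contra hSK
      have hcard : Sᶜ.card ≤ K := by
        rw [Finset.card_compl, Fintype.card_fin]
        have : k / 2 ≤ K := le_max_right _ _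
        omega
      obtain ⟨q1, q2, hq, hq2, hE1, hE2, hsum⟩ := hC
      refine hL0 Sᶜ (Finset.mem_univ _) hcard ⟨t1, l1, o1, q1 + o, q2 + o, ht1, ?_, ?_, ?_, ?_, ?_,
        ho1, he⟩
      · gcongr
      · have : q2 + o + L0 = q2 + (o + L0) := by ring
        rw [this]
        exact (add_le_add_right hoL q2).trans hq2
      · intro i hi
        have h8 := hE1 (o + i) (lt_of_lt_of_le (by gcongr) hoL)
        have e : t1 + (q1 + o + i) = t1 + q1 + (o + i) := by ring
        rw [hA i hi, e, h8]
      · intro i hi
        have h8 := hE2 (o + i) (lt_of_lt_of_le (by gcongr) hoL)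
        have e : t1 + (q2 + o + i) = t1 + q2 + (o + i) := by ring
        rw [hA i hi, e, h8]
      · rw [← hsum]; ring
  · left
    unfold HypH at hH
    push Not at hH
    obtain ⟨t0, l0, o, ht0, ho, hno⟩ := hH
    refine genericB N k col G hcol hG t0 l0 o ht0 ho ?_
    intro t l b htl hl hE hbad
    exact hno t l htl hl hE (transfer occ N k col G y F A A1 B1 B2 A2 hS _ t l o b htl hbad)

end Pool.Agent.H654.HA
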