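import Mathlib
import Pool.Agent.H654.HA.Defs
import Pool.Agent.H654.HA.Dich

/-! Definitions for the final statement, and the assembly from the steps. -/

namespace Pool.Agent.H654.HA

open Pool.Agent.Helper617.RM Pool.Agent.H645R2.K
open Pool.Agent.H645R2.R (BinF Ev Enum Bd)

universe u

set_option linter.unusedSectionVars false
set_option linter.unusedVariables false

/-- The sum, computed in the structure, of a (standard) finite list of numbers. -/
def sumL (N : L2Structure.{u}) : List N.M → N.M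
  | [] => N.zero
  | a :: l => N.add a (sumL N l)

/-- `FS^{≤ n}(X)`: the set of sums of at least one and at most `n` distinct elements of `X`. -/
def FSle (N : L2Structure.{u}) (n : ℕ) (X : Set N.M) : Set N.M :=
  {s | ∃ l : List N.M, l ≠ [] ∧ l.length ≤ n ∧ l.Nodup ∧ (∀ x ∈ l, x ∈ X) ∧ s = sumL N l}

/-- `d` is a power of two in the structure: every divisor of `d` is `1` or even. -/
def IsPow2 (N : L2Structure.{u}) (d : N.M) : Prop :=
  ∀ a b, N.mul a b = d → a = N.one ∨ ∃ e, a = N.add e e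

/-- The apartness condition: for all `x < y` in `X` some power of two `d > x` divides `y` (all
binary digits of `x` are below all binary digits of `y`). -/
def Apart (N : L2Structure.{u}) (X : Set N.M) : Prop :=
  ∀ x ∈ X, ∀ y ∈ X, N.lt x y → ∃ d q, IsPow2 N d ∧ N.lt x d ∧ y = N.mul d q

/-- The principle `HT_k^{≤ n}` in the structure `N`: for every colouring `c` of the numbers
with `k` colours that exists in the structure (every colour class is one of the sets of the
structure) there is an unbounded set `X` of the structure, all of whose elements are positive, such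
that `c` is constant on `FS^{≤ n}(X)`. -/
def HT (N : L2Structure.{u}) (n k : ℕ) : Prop :=
  ∀ c : N.M → Fin k, (∀ i, {x | c x = i} ∈ N.Sets) →
    ∃ X ∈ N.Sets, N.zero ∉ X ∧ (∀ b, ∃ x ∈ X, N.lt b x) ∧ ∃ j, ∀ s ∈ FSle N n X, c s = j

/-- `HT_k^{≤ n}` with apartness. -/
def HTApart (N : L2Structure.{u}) (n k : ℕ) : Prop :=
  ∀ c : N.M → Fin k, (∀ i, {x | c x = i} ∈ N.Sets) →
    ∃ X ∈ N.Sets, N.zero ∉ X ∧ Apart N X ∧ (∀ b, ∃ x ∈ X, N.lt b x) ∧
      ∃ j, ∀ s ∈ FSle N n X, c s = j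

variable {N : L2Structure.{u}} [IsModelRCA0 N] {k : ℕ}

theorem mem_FS_single {X : Set N.M} {x : N.M} (hx : x ∈ X) : x ∈ FSle N 2 X := by
  refine ⟨[x], by simp, by simp, by simp, by simpa using hx, ?_⟩
  exact (IsModelRCA0.ax_add_zero x).symm

theorem mem_FS_pair {X : Set N.M} {x y : N.M} (hx : x ∈ X) (hy : y ∈ X) (hxy : x ≠ y) :
    x + y ∈ FSle N 2 X := by
  refine ⟨[x, y], by simp, by simp, by simpa using hxy, ?_, ?_⟩
  · intro z hz
    simp only [List.mem_cons, List.not_mem_nil, or_false] at hz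
    rcases hz with rfl | rfl <;> assumption
  · show x + y = N.add x (N.add y N.zero)
    rw [IsModelRCA0.ax_add_zero]
    rfl

theorem FS_cases {X : Set N.M} {s : N.M} (hs : s ∈ FSle N 2 X) :
    s ∈ X ∨ ∃ x ∈ X, ∃ y ∈ X, x < y ∧ s = x + y := by
  obtain ⟨l, hl0, hl2, hnd, hlX, rfl⟩ := hs
  match l, hl0, hl2, hnd, hlX with
  | [], hl0, _, _, _ => exact absurd rfl hl0
  | [x], _, _, _, hlX =>
    have e : sumL N [x] = x := IsModelRCA0.ax_add_zero x
    rw [e]
    exact Or.inl (hlX x (by simp))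
  | [x, y], _, _, hnd, hlX =>
    have e : sumL N [x, y] = x + y := by
      show N.add x (N.add y N.zero) = N.add x y
      rw [IsModelRCA0.ax_add_zero]
    rw [e]
    have hx := hlX x (by simp)
    have hy := hlX y (by simp)
    have hne : x ≠ y := by
      intro h
      subst h
      simp at hnd
    rcases lt_or_gt_of_ne hne with h | h
    · exact Or.inr ⟨x, hx, y, hy, h, rfl⟩
    · exact Or.inr ⟨y, hy, x, hx, h, add_comm _ _⟩
  | x :: y :: z :: l, _, hl2, _, _ =>
    simp only [List.length_cons] at hl2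
    omega

/-- removing zero -/
theorem HomK.drop0 {ι : Type} {c : N.M → ι} {X : Set N.M} (h : HomK c X) :
    HomK c {x | x ∈ X ∧ x ≠ 0} where
  mem := comp_D0 (P := fun x => x ∈ X ∧ x ≠ 0)
    (D0.and (D0.mem (Tm.var 0) h.mem) (D0.eq (Tm.var 0) (Tm.const 0)).not)
  unb := by
    intro b
    obtain ⟨x, hx, hb⟩ := h.unb b
    refine ⟨x, ⟨hx, ?_⟩, hb⟩
    rintro rfl
    exact IsModelRCA0.ax_not_lt_zero b hb
  one := fun x hx y hy => h.one x hx.1 y hy.1
  two := fun x hx y hy => h.two x hx.1 y hy.1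

theorem HomK.toRaw {c : N.M → Fin k} {X : Set N.M} (h : HomK c X) :
    ∃ j, ∀ s ∈ FSle N 2 X, c s = j := by
  obtain ⟨x0, hx0, -⟩ := h.unb 0
  refine ⟨c x0, fun s hs => ?_⟩
  rcases FS_cases hs with hs | ⟨x, hx, y, hy, hxy, rfl⟩
  · exact h.one s hs x0 hx0
  · rw [h.two x hx y hy hxy]
    exact h.one x hx x0 hx0

theorem HomK.ofRaw {c : N.M → Fin k} {X : Set N.M} (hX : X ∈ N.Sets)
    (hu : ∀ b, ∃ x ∈ X, N.lt b x) (h : ∃ j, ∀ s ∈ FSle N 2 X, c s = j) : HomK c X where
  mem := hX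
  unb := hu
  one := by
    obtain ⟨j, hj⟩ := h
    intro x hx y hy
    rw [hj x (mem_FS_single hx), hj y (mem_FS_single hy)]
  two := by
    obtain ⟨j, hj⟩ := h
    intro x hx y hy hxy
    rw [hj _ (mem_FS_pair hx hy hxy.ne), hj x (mem_FS_single hx)]

theorem HT.hom (h : HT N 2 k) : ∀ c : N.M → Fin k, CT1 c → ∃ X, HomK c X := by
  intro c hc
  obtain ⟨X, hX, h0, hu, hj⟩ := h c (fun i => comp_D0 (P := fun x => c x = i) (hc i))
  exact ⟨X, HomK.ofRaw hX hu hj⟩

theorem HT.of_hom (h : ∀ c : N.M → Fin k, CT1 c → ∃ X, HomK c X) : HT N 2 k := by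
  intro c hc
  obtain ⟨X, hX⟩ := h c (fun i => D0.mem (Tm.var 0) (hc i))
  have hX' := hX.drop0
  exact ⟨_, hX'.mem, fun h => h.2 rfl, hX'.unb, hX'.toRaw⟩

theorem castLE_class {k' : ℕ} (hkk : k ≤ k') {c : N.M → Fin k} (hc : ∀ i, {x | c x = i} ∈ N.Sets)
    (i : Fin k') : {x | Fin.castLE hkk (c x) = i} ∈ N.Sets := by
  by_cases hi : (i : ℕ) < k
  · have e : {x | Fin.castLE hkk (c x) = i} = {x | c x = ⟨i, hi⟩} := by
      ext x
      simp [Fin.ext_iff]
    rw [e]
    exact hc _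
  · have e : {x | Fin.castLE hkk (c x) = i} = {x | False} := by
      ext x
      constructor
      · intro h
        apply hi
        have h' : Fin.castLE hkk (c x) = i := h
        rw [← h']
        exact (c x).2
      · intro h
        exact h.elim
    rw [e]
    exact comp_D0 (P := fun _ => False) (D0.const False)

theorem castLE_const {k' : ℕ} (hk : 0 < k) (hkk : k ≤ k') {c : N.M → Fin k} {T : Set N.M}
    (h : ∃ j, ∀ s ∈ T, Fin.castLE hkk (c s) = j) : ∃ j, ∀ s ∈ T, c s = j := by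
  obtain ⟨j, hj⟩ := h
  by_cases hT : T.Nonempty
  · obtain ⟨s0, hs0⟩ := hT
    refine ⟨c s0, fun s hs => ?_⟩
    have := (hj s hs).trans (hj s0 hs0).symm
    simpa using this
  · exact ⟨⟨0, hk⟩, fun s hs => (hT ⟨s, hs⟩).elim⟩

theorem HT.mono {n k k' : ℕ} (hk : 0 < k) (hkk : k ≤ k') (h : HT N n k') : HT N n k := by
  intro c hc
  obtain ⟨X, hX, h0, hu, hj⟩ := h (fun x => Fin.castLE hkk (c x)) (castLE_class hkk hc)
  exact ⟨X, hX, h0, hu, castLE_const hk hkk hj⟩

theorem HTApart.mono {n k k' : ℕ} (hk : 0 < k) (hkk : k ≤ k') (h : HTApart N n k') :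
    HTApart N n k := by
  intro c hc
  obtain ⟨X, hX, h0, ha, hu, hj⟩ := h (fun x => Fin.castLE hkk (c x)) (castLE_class hkk hc)
  exact ⟨X, hX, h0, ha, hu, castLE_const hk hkk hj⟩

theorem ne_zero_pos {x : N.M} (h : x ≠ 0) : 0 < x := by
  rcases lt_trichotomy x 0 with h1 | h1 | h1
  · exact (IsModelRCA0.ax_not_lt_zero x h1).elim
  · exact (h h1).elim
  · exact h1

theorem HTApart.hom (hpow : S_pow2.{u}) {p2 top la : N.M → N.M} (hb : BinF p2 top la)
    (h : HTApart N 2 k) : ∀ c : N.M → Fin k, CT1 c → ∃ X, HomA p2 c X := by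
  intro c hc
  obtain ⟨X, hX, h0, ha, hu, hj⟩ := h c (fun i => comp_D0 (P := fun x => c x = i) (hc i))
  refine ⟨X, HomK.ofRaw hX hu hj, ?_, ?_⟩
  · intro x hx
    apply ne_zero_pos
    rintro rfl
    exact h0 hx
  · intro x hx y hy hxy
    obtain ⟨d, q, hd, hxd, hy'⟩ := ha x hx y hy hxy
    obtain ⟨i, rfl⟩ := (hpow N p2 top la hb d).2 hd
    exact ⟨i, q, hxd, hy'⟩

theorem HTApart.of_hom (hpow : S_pow2.{u}) {p2 top la : N.M → N.M} (hb : BinF p2 top la)
    (h : ∀ c : N.M → Fin k, CT1 c → ∃ X, HomA p2 c X) : HTApart N 2 k := by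
  intro c hc
  obtain ⟨X, hX⟩ := h c (fun i => D0.mem (Tm.var 0) (hc i))
  refine ⟨X, hX.hom.mem, ?_, ?_, hX.hom.unb, hX.hom.toRaw⟩
  · intro h0
    exact IsModelRCA0.ax_not_lt_zero _ (hX.pos _ h0)
  · intro x hx y hy hxy
    obtain ⟨i, q, hi, hy'⟩ := hX.apart x hx y hy hxy
    exact ⟨p2 i, q, (hpow N p2 top la hb (p2 i)).1 ⟨i, rfl⟩, hi, hy'⟩

theorem exists_binF (N : L2Structure.{u}) [IsModelRCA0 N] :
    ∃ p2 top la : N.M → N.M, BinF p2 top la := by
  obtain ⟨p2, top, la, h⟩ := Pool.Agent.H645R2.R.bin N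
  exact ⟨p2, top, la, Pool.Agent.H645R2.R.binf N p2 top la (Pool.Agent.H645R2.R.binp N p2 top la h)⟩

theorem Conc.homK {c : N.M → Fin k} (h : Conc c 1) : ∃ X, HomK c X := by
  obtain ⟨S, hS, X, hX, hu, h1, h2⟩ := h
  rw [Finset.card_le_one] at hS
  exact ⟨X, hX, hu, fun x hx y hy => hS _ (h1 x hx) _ (h1 y hy),
    fun x hx y hy hxy => hS _ (h2 x hx y hy hxy) _ (h1 x hx)⟩

/-- Hindman's theorem for 3 colours and sums of at most two terms gives `Σ⁰₁` comprehension
(library) -/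
theorem sig1_of_HT (h : HT N 2 3) : Sig1 N := by
  refine Pool.Agent.H645R2.R.rev N fun C hC => ?_
  obtain ⟨X, hX, h0, hinf, j, hXS⟩ := h C (fun i => comp_D0 (P := fun x => C x = i) (hC i))
  refine ⟨X, hX, hinf, ?_, ?_⟩
  · intro x hx y hy
    rw [hXS _ (mem_FS_single hx), hXS _ (mem_FS_single hy)]
  · intro x hx y hy hxy
    rw [hXS _ (mem_FS_pair hx hy hxy.ne), hXS _ (mem_FS_single hx)]

theorem sig1_of_HTApart (hpow : S_pow2.{u}) (hrev : S_rev2.{u}) (h : HTApart N 2 2) : Sig1 N := by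
  obtain ⟨p2, top, la, hb⟩ := exists_binF N
  refine hrev N p2 top la hb fun C hC => ?_
  exact HTApart.hom hpow hb h C hC

theorem tfae_of (hdown : S_down.{u}) (hpow : S_pow2.{u}) (hrev : S_rev2.{u}) (hdich : S_dich.{u})
    (huse : S_use.{u}) (N : L2Structure.{u}) (hN : IsModelRCA0 N) (k : ℕ) (hk : 2 ≤ k) :
    [HT N 2 (2 * k), HT N 2 (2 * k + 1), HTApart N 2 k].TFAE := by
  obtain ⟨p2, top, la, hb⟩ := exists_binF N
  tfae_have 1 → 3 := by
    intro h
    have hS : Sig1 N := sig1_of_HT (h.mono (by omega) (by omega))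
    exact HTApart.of_hom hpow hb (hdown N p2 top la hb k h.hom)
  tfae_have 3 → 2 := by
    intro h
    have hS : Sig1 N := sig1_of_HTApart hpow hrev (h.mono (by omega) hk)
    refine HT.of_hom fun c hc => ?_
    rcases hdich N (2 * k + 1) c hc with h1 | h1
    · exact Conc.homK h1
    · have e : max 1 ((2 * k + 1) / 2) = k := by omega
      rw [e] at h1
      exact huse N p2 top la hb (2 * k + 1) k c hc h1 (h.hom hpow hb)
  tfae_have 2 → 1 := fun h => h.mono (by omega) (by omega)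
  tfae_finish

end Pool.Agent.H654.HA
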