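import Mathlib
import Pool.Agent.H654.HA.Defs
import Pool.Graph.R_seed8.H645R2.K.All

/-! HA-B: closing of the C-case under all finite sums (by helper636; the window argument is that
of the library file `Pool/Graph/R_seed8/H645R2/K/CFinal.lean`). -/

namespace Pool.Agent.H654.HA

open Pool.Agent.Helper617.RM Pool.Agent.H645R2.K
open Pool.Agent.H675R2.HT
open Pool.Agent.H645R2.R (BinF Ev Enum Bd)

universe u

set_option linter.unusedSectionVars false
set_option linter.unusedVariables false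

/-- the hypothesis of the C-case with a property `Q` of the set of colours -/
def HypCQ {N : L2Structure.{u}} [IsModelRCA0 N] {k : ℕ} (col A : N.M → Fin k) (G : Set N.M) (K : ℕ)
    (Q : Finset (Fin k) → Prop) (L0 : N.M) : Prop :=
  ∀ t l o, pr t l ∈ G → o < l → o + L0 ≤ l → (∀ i, i < L0 → A i = col (t + (o + i))) →
    ∃ t1 l1 o1, pr t1 l1 ∈ G ∧ o1 < l1 ∧ Cen col t l o t1 l1 o1 ∧
      ∃ S : Finset (Fin k), (Q S ∧ S.card ≤ K) ∧ midS col G S t1 l1 o1

open Pool.Agent.H645R2.K.CFin in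
/-- one step: for every `b` there are a set of colours and a number closing all members below `b` -/
theorem cfs_step (hp : S_par.{u}) (N : L2Structure.{u}) [IsModelRCA0 N] [Sig1 N] (k : ℕ)
    (col : N.M → Fin k) (G : Set N.M) (y : N.M → N.M) (F : N.M → N.M → Fin k)
    (A A1 B1 B2 A2 : N.M → Fin k) (h : Sys col G y F A A1 B1 B2 A2) (K : ℕ) (L0 : N.M)
    (Q : Finset (Fin k) → Prop) (hC : HypCQ col A G K Q L0) (b : N.M) :
    ∃ (S' : Finset (Fin k)), Q S' ∧ ∃ (x : N.M), b < x ∧ CFin.P col G y F K S' x ∧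
      ∀ (S : Finset (Fin k)) z, z ≤ b → CFin.P col G y F K S z → CFin.P col G y F K S (z + x) := by
  classical
  have hcol := h.hcol
  have hy := h.hy
  have hF := h.hF
  have hG := h.ml.mem
  -- bounding
  have hbd : ∀ S : Finset (Fin k), ∃ B, ∀ x, x < b + 1 → (∃ w, W col G y F S x w) →
      ∃ w, w < B ∧ W col G y F S x w := fun S =>
    strong_bounding (Q := fun x w => W col G y F S x w) (W_D0 hcol hG hy hF S) (b + 1)
  choose Bf hBf using hbd
  obtain ⟨B, hB⟩ := (Finset.univ.image Bf).exists_le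
  have hB' : ∀ S, Bf S ≤ B := fun S => hB _ (Finset.mem_image_of_mem _ (Finset.mem_univ S))
  have hBW : ∀ (S : Finset (Fin k)) z, z ≤ b → (∃ w, W col G y F S z w) →
      ∃ w, w < B ∧ W col G y F S z w := by
    intro S z hz hw
    obtain ⟨w, h1, h2⟩ := hBf S z (lt1_of_le hz) hw
    exact ⟨w, lt_of_lt_of_le h1 (hB' S), h2⟩
  -- window
  obtain ⟨n0, hn0⟩ := h.A_lim L0
  obtain ⟨μ, hμ0, hμB⟩ : ∃ μ, n0 ≤ μ ∧ B ≤ μ := ⟨max n0 B, le_max_left _ _, le_max_right _ _⟩
  obtain ⟨tV, htV, hOV⟩ := h.F_word 0 (y μ + y μ) ((y μ + y μ) + (B + L0 + 1))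
  have zB := zero_le' B
  have zL0 := zero_le' L0
  have zy := zero_le' (y μ)
  have zl := lt1 (B + L0)
  have hOV' : ∀ i, i < (y μ + y μ) + (B + L0 + 1) → F i (y μ + y μ) = col (tV + i) := by
    intro i hi
    have := hOV i hi
    rwa [zero_add] at this
  obtain ⟨t', l', o', ht', ho', ⟨q1, q2, hq12, hq2l, hE1, hE2, hq⟩, S', ⟨hQS', hS'K⟩, hmid'⟩ :=
    hC tV ((y μ + y μ) + (B + L0 + 1)) (y μ) htV (by grind) (by grind) (by
      intro i hi
      rw [hn0 μ hμ0 i hi, ← h.F_shift i (y μ) (y μ), hOV' (i + y μ) (by grind)]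
      congr 1
      ring)
  obtain ⟨d1, d1', g, n1, hd1, hn1⟩ := hp N k col G y F A A1 B1 B2 A2 h t' l' ht'
  -- claim 1
  have claim1 : F (g + o') 0 ∈ S' := by
    obtain ⟨ν, hν1, hν2⟩ : ∃ ν, n1 ≤ ν ∧ d1' ≤ ν := ⟨max n1 d1', le_max_left _ _, le_max_right _ _⟩
    have hyν := h.y_ge ν
    obtain ⟨hO1, hO2⟩ := hn1 ν hν1
    have zyν := zero_le' (y ν)
    have zg := zero_le' g
    obtain ⟨s, hs1⟩ := exists_sub (a := d1') (b := (y ν + y ν) + g) (by grind)
    have e1 : d1' + (s + s) = y ν + y ν + d1 + (y ν + y ν) := by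
      apply add_cancel' (c := d1')
      calc d1' + (s + s) + d1' = (d1' + s) + (d1' + s) := by ring
        _ = ((y ν + y ν) + g) + ((y ν + y ν) + g) := by rw [← hs1]
        _ = (y ν + y ν) + (y ν + y ν) + (g + g) := by ring
        _ = (y ν + y ν) + (y ν + y ν) + (d1 + d1') := by rw [hd1]
        _ = _ := by ring
    have h1 := midF h.F_word hmid' (Y := y ν + y ν) (p := d1') (s := s) hO2 (by
      rw [e1]
      exact shiftF h.F_shift (y ν + y ν) hO1)
    rw [← hs1] at h1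
    have h2 := h.F_shift (g + o') 0 (y ν + y ν)
    rw [zero_add] at h2
    have e2 : y ν + y ν + g + o' = g + o' + (y ν + y ν) := by ring
    rwa [e2, h2] at h1
  -- claim 2
  have claim2 : ∀ (S : Finset (Fin k)) z, z ≤ b → P col G y F K S z →
      F (g + o' + z) 0 ∈ S ∧ ∀ n', n1 ≤ n' → ∃ w, W col G y F S (y n' + (g + o' + z)) w := by
    intro S z hz hP
    obtain ⟨w, hwB, t, l, o, d, d', n, g2, R, rfl, htl, hm, hzn, hd, hO1, hO2⟩ :=
      hBW S z hz hP.2
    have zt := zero_le' t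
    have zl' := zero_le' l
    have zo := zero_le' o
    have zd := zero_le' d
    have zd' := zero_le' d'
    have zn := zero_le' (y n)
    have zg2 := zero_le' g2
    have zR := zero_le' R
    have zq1 := zero_le' q1
    have zq2 := zero_le' q2
    have zg := zero_le' g
    have zo' := zero_le' o'
    have zz := zero_le' z
    have zd1 := zero_le' d1
    have zd1' := zero_le' d1'
    have hRμ : R ≤ μ := by
      refine le_trans ?_ hμB
      grind
    have hdl : d' + l ≤ B := by grind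
    have hnl : y n + y n + d + l ≤ B := by grind
    -- occurrence 1
    have hOc1 : ∀ ν, n1 ≤ ν → OccF col F t l (d1' + (q1 + d')) (y ν + y ν) := by
      intro ν hν1 i hi
      obtain ⟨hN1, hN2⟩ := hn1 ν hν1
      have h1 := hN2 (q1 + (d' + i)) (by grind)
      have h2 := hE1 (d' + i) (by grind)
      have h3 := hOV' (d' + i) (by grind)
      have h4 := hO2 μ hRμ i hi
      have e1 : d1' + (q1 + d') + i = d1' + (q1 + (d' + i)) := by ring
      rw [e1, h1, ← add_assoc, h2, ← h3, h4]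
    -- occurrence 2
    have hOc2 : ∀ ν, n1 ≤ ν → OccF col F t l
        (y ν + y ν + (d1 + (q2 + ((y μ + y μ) + (y n + y n + d))))) 0 := by
      intro ν hν1 i hi
      obtain ⟨hN1, hN2⟩ := hn1 ν hν1
      have h1 := hN1 (q2 + ((y μ + y μ) + (y n + y n + d) + i)) (by grind)
      have h2 := hE2 ((y μ + y μ) + (y n + y n + d) + i) (by grind)
      have h3 := hOV' ((y μ + y μ) + (y n + y n + d) + i) (by grind)
      have h4 := hO1 i hi
      have e1 : y ν + y ν + (d1 + (q2 + ((y μ + y μ) + (y n + y n + d)))) + i =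
        y ν + y ν + d1 + (q2 + ((y μ + y μ) + (y n + y n + d) + i)) := by ring
      have e2 : (y μ + y μ) + (y n + y n + d) + i = (y n + y n + d + i) + (y μ + y μ) := by ring
      have h5 := h.F_shift (y n + y n + d + i) 0 (y μ + y μ)
      rw [zero_add] at h5
      rw [e1, h1, ← add_assoc, h2, ← h3, e2, h5, h4]
    -- the sum
    have e0 : (d1 + (q2 + ((y μ + y μ) + (y n + y n + d)))) + (d1' + (q1 + d')) + (o + o) =
        (g + o' + z) + (g + o' + z) := by
      calc (d1 + (q2 + ((y μ + y μ) + (y n + y n + d)))) + (d1' + (q1 + d')) + (o + o)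
          = (d1 + d1') + (q1 + q2 + (y μ + y μ)) + ((y n + y n) + (d + d' + (o + o))) := by ring
        _ = (g + g) + (o' + o') + ((y n + y n) + (g2 + g2)) := by rw [hd1, hq, hd]
        _ = _ := by rw [hzn]; ring
    refine ⟨?_, fun n' hn' => ⟨_, t, l, o, d1 + (q2 + ((y μ + y μ) + (y n + y n + d))),
      d1' + (q1 + d'), n', g + o' + z, n1, rfl, htl, hm, rfl, e0, hOc2 n' hn', hOc1⟩⟩
    obtain ⟨ν, hν1, hν2⟩ : ∃ ν, n1 ≤ ν ∧ d1' + (q1 + d') + o ≤ ν :=
      ⟨max n1 (d1' + (q1 + d') + o), le_max_left _ _, le_max_right _ _⟩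
    have hyν := h.y_ge ν
    have zyν := zero_le' (y ν)
    obtain ⟨s, hs1⟩ := exists_sub (a := o + (d1' + (q1 + d')))
      (b := (y ν + y ν) + (g + o' + z)) (by grind)
    have e1 : d1' + (q1 + d') + (s + s) =
        y ν + y ν + (d1 + (q2 + ((y μ + y μ) + (y n + y n + d)))) + (y ν + y ν) := by
      apply add_cancel' (c := (o + o) + (d1' + (q1 + d')))
      calc d1' + (q1 + d') + (s + s) + ((o + o) + (d1' + (q1 + d')))
          = (o + (d1' + (q1 + d')) + s) + (o + (d1' + (q1 + d')) + s) := by ring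
        _ = ((y ν + y ν) + (g + o' + z)) + ((y ν + y ν) + (g + o' + z)) := by rw [← hs1]
        _ = (y ν + y ν) + (y ν + y ν) + ((g + o' + z) + (g + o' + z)) := by ring
        _ = (y ν + y ν) + (y ν + y ν) + ((d1 + (q2 + ((y μ + y μ) + (y n + y n + d)))) +
            (d1' + (q1 + d')) + (o + o)) := by rw [e0]
        _ = _ := by ring
    have h1 := midF h.F_word hm (Y := y ν + y ν) (p := d1' + (q1 + d')) (s := s) (hOc1 ν hν1) (by
      rw [e1]
      exact shiftF h.F_shift (y ν + y ν) (hOc2 ν hν1))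
    have e2 : d1' + (q1 + d') + s + o = (g + o' + z) + (y ν + y ν) := by
      calc d1' + (q1 + d') + s + o = o + (d1' + (q1 + d')) + s := by ring
        _ = (y ν + y ν) + (g + o' + z) := hs1.symm
        _ = _ := by ring
    have h2 := h.F_shift (g + o' + z) 0 (y ν + y ν)
    rw [zero_add] at h2
    rwa [e2, h2] at h1
  -- end
  obtain ⟨n2, hn2⟩ := h.F_lim 0 (g + o' + b + 1)
  obtain ⟨n', hn'1, hn'2, hn'3⟩ : ∃ n', n2 ≤ n' ∧ b + 1 ≤ n' ∧ n1 ≤ n' :=
    ⟨max n2 (max (b + 1) n1), le_max_left _ _, (le_max_left _ _).trans (le_max_right _ _),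
      (le_max_right _ _).trans (le_max_right _ _)⟩
  have hcolF : ∀ i, i < g + o' + b + 1 → col (y n' + i) = F i 0 :=
    hn2 n' hn'1 (y n') (add_zero _)
  have zg := zero_le' g
  have zo' := zero_le' o'
  have zb := zero_le' b
  have zyn := h.y_ge n'
  have zb1 := lt1 b
  have zb2 := lt1 (g + o' + b)
  refine ⟨S', hQS', y n' + (g + o'), by grind, ⟨⟨?_, hS'K⟩, ?_⟩, ?_⟩
  · rw [hcolF (g + o') (by grind)]
    exact claim1
  · refine ⟨_, t', l', o', d1, d1', n', g + o', n1, rfl, ht', hmid', rfl, ?_, (hn1 n' hn'3).1,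
      fun ν hν => (hn1 ν hν).2⟩
    rw [hd1]
    ring
  · intro S z hz hP
    have e : z + (y n' + (g + o')) = y n' + (g + o' + z) := by ring
    obtain ⟨c1, c2⟩ := claim2 S z hz hP
    refine ⟨⟨?_, hP.1.2⟩, ?_⟩
    · rw [e, hcolF (g + o' + z) (by
        have := lt1_of_le hz
        grind)]
      exact c1
    · rw [e]
      exact c2 n' hn'3

/-- the C-case with a property `Q` of the set of colours -/
theorem cfsQ (N : L2Structure.{u}) [IsModelRCA0 N] [Sig1 N] (k : ℕ)
    (col : N.M → Fin k) (G : Set N.M) (y : N.M → N.M) (F : N.M → N.M → Fin k)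
    (A A1 B1 B2 A2 : N.M → Fin k) (h : Sys col G y F A A1 B1 B2 A2) (K : ℕ)
    (Q : Finset (Fin k) → Prop) (L0 : N.M) (hC : HypCQ col A G K Q L0) :
    ∃ S : Finset (Fin k), Q S ∧ S.card ≤ K ∧ ∃ P : N.M → Prop, D0 (fun v => P (v 0)) ∧
      (∀ z, P z → col z ∈ S) ∧ SumClosed P := by
  classical
  have key := cfs_step (par twoocc) N k col G y F A A1 B1 B2 A2 h K L0 Q hC
  have hfix : ∃ S : Finset (Fin k), Q S ∧ ∀ b, ∃ x, b < x ∧ CFin.P col G y F K S x ∧
      ∀ z, z ≤ b → CFin.P col G y F K S z → CFin.P col G y F K S (z + x) := by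
    by_contra hcon
    push Not at hcon
    have hcon' : ∀ S : Finset (Fin k), ∃ b, Q S → ∀ x, b < x → CFin.P col G y F K S x →
        ∃ z, z ≤ b ∧ CFin.P col G y F K S z ∧ ¬ CFin.P col G y F K S (z + x) := by
      intro S
      by_cases hQ : Q S
      · obtain ⟨b, hb⟩ := hcon S hQ
        exact ⟨b, fun _ => hb⟩
      · exact ⟨0, fun h => absurd h hQ⟩
    choose bf hbf using hcon'
    obtain ⟨b, hb⟩ := (Finset.univ.image bf).exists_le
    obtain ⟨S, hQ, x, h1, h2, h3⟩ := key b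
    have hbS : bf S ≤ b := hb _ (Finset.mem_image_of_mem _ (Finset.mem_univ S))
    obtain ⟨z, hz, hz1, hz2⟩ := hbf S hQ x (lt_of_le_of_lt hbS h1) h2
    exact hz2 (h3 S z (hz.trans hbS) hz1)
  obtain ⟨S, hQ, hS⟩ := hfix
  have hK : S.card ≤ K := by
    obtain ⟨x, -, hx, -⟩ := hS 0
    exact hx.1.2
  exact ⟨S, hQ, hK, fun z => CFin.P col G y F K S z, CFin.P_D0 h.hcol h.ml.mem h.hy h.hF K S,
    fun z hz => hz.1.1, fun b => hS b⟩

/-- HA-B -/
theorem cfs : S_cfs.{u} := by
  intro N _ _ k col G y F A A1 B1 B2 A2 h K L0 hC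
  obtain ⟨S, -, hK, P, h1, h2, h3⟩ := cfsQ N k col G y F A A1 B1 B2 A2 h K (fun _ => True) L0 (by
    intro t l o h1 h2 h3 h4
    obtain ⟨t1, l1, o1, h5, h6, h7, S, h8, h9⟩ := hC t l o h1 h2 h3 h4
    exact ⟨t1, l1, o1, h5, h6, h7, S, ⟨trivial, h8⟩, h9⟩)
  exact ⟨S, hK, P, h1, h2, h3⟩

end Pool.Agent.H654.HA
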