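import Mathlib
import Pool.Agent.H654.HA.Asm
import Pool.Agent.H654.HA.Seq

/-! All finite sums (in the sense of the structure) of the sequence. -/

namespace Pool.Agent.H654.HA

open Pool.Agent.Helper617.RM Pool.Agent.H645R2.K
open Pool.Agent.H645R2.R (BinF Ev Enum Bd)

universe u

set_option linter.unusedSectionVars false
set_option linter.unusedVariables false

/-- The pair of two numbers in the structure: `(x + y) * (x + y) + x`. -/
def pairN (N : L2Structure.{u}) (x y : N.M) : N.M :=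
  N.add (N.mul (N.add x y) (N.add x y)) x

/-- `s` is the sum of the elements of the set `F`: there are a function `g` of the structure
(its graph, coded by pairs, is one of the sets of the structure) and a bound `b` such that all
elements of `F` are smaller than `b`, `g 0 = 0`, `g (n + 1) = g n + n` for `n ∈ F`,
`g (n + 1) = g n` for `n ∉ F`, and `s = g b`. -/
def IsSum (N : L2Structure.{u}) (F : Set N.M) (s : N.M) : Prop :=
  ∃ g : N.M → N.M, {r | ∃ n, r = pairN N n (g n)} ∈ N.Sets ∧ g N.zero = N.zero ∧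
    (∀ n ∈ F, g (N.add n N.one) = N.add (g n) n) ∧
    (∀ n, n ∉ F → g (N.add n N.one) = g n) ∧
    ∃ b, (∀ n ∈ F, N.lt n b) ∧ s = g b

/-- `FS(X)` in the structure: the sums of the nonempty finite subsets of `X` that exist in the
structure (the structure may have finite sets of nonstandard size). -/
def FS (N : L2Structure.{u}) (X : Set N.M) : Set N.M :=
  {s | ∃ F ∈ N.Sets, F.Nonempty ∧ F ⊆ X ∧ IsSum N F s}

variable {N : L2Structure.{u}} [IsModelRCA0 N] {k : ℕ}

section

variable [Sig1 N]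

theorem fs_sub {p2 top la : N.M → N.M} (hB : BinF p2 top la) {x σ : N.M → N.M}
    (h : SumSys p2 x σ) (hx : ∀ i, x i < x (i + 1)) {s : N.M}
    (hs : s ∈ FS N {z | ∃ i, z = x i}) : ∃ n, 0 < n ∧ s = σ n := by
  obtain ⟨F, hF, hne, hFX, g, hg, hg0, hg1, hg2, b, hb, rfl⟩ := hs
  have hxD : DF1 x := h.hx
  have hσD : DF1 σ := h.hσ
  have hp2 : DF1 p2 := hB.hp2
  have hgD : DF1 g := by
    refine D0.congr (R := fun v => pr (v 0) (v 1) ∈ {r | ∃ n, r = pairN N n (g n)})
      (D0.memF (DF.pr (DF.var 0) (DF.var 1)) hg) ?_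
    intro v
    constructor
    · rintro ⟨n, hn⟩
      obtain ⟨h1, h2⟩ := pr_inj hn
      rw [h2, h1]
    · intro h1
      exact ⟨v 0, by rw [h1]; rfl⟩
  have hmono := Pool.Agent.H675R2.HT.mono_of_step hxD hx
  have hinj : ∀ i j, x i < x j → i < j := by
    intro i j hij
    rcases lt_trichotomy i j with h1 | h1 | h1
    · exact h1
    · subst h1; exact absurd hij (lt_irrefl _)
    · exact absurd (hij.trans (hmono j i h1)) (lt_irrefl _)
  have key : ∀ n, ∃ m, σ m = g n ∧ (∀ i, n ≤ x i → m < p2 i) ∧ ((∃ a, a ∈ F ∧ a < n) → 0 < m) := by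
    refine Pool.Agent.H675R2.HT.ind (P := fun n => ∃ m, σ m = g n ∧ (∀ i, n ≤ x i → m < p2 i) ∧
      ((∃ a, a ∈ F ∧ a < n) → 0 < m)) ?_ ?_ ?_
    · (repeat' (first | assumption | exact DF.var _ | refine DF.add ?_ ?_ | refine DF.mul ?_ ?_ | refine DF.pr ?_ ?_ | exact DF.const _ | refine DF.app (by assumption) ?_ | refine CT.app1 (by assumption) ?_ | refine CT.app2 (by assumption) ?_ ?_ | exact CT.const _ | refine D0.MemCF ?_ ?_ | refine D0.IsCF ?_ | refine D0.and ?_ ?_ | refine D0.or ?_ ?_ | refine D0.ex ?_ | refine D0.all ?_ | refine D0.iff ?_ ?_ | refine D0.imp ?_ ?_ | refine D0.not ?_ | refine D0.ltF ?_ ?_ | refine D0.leF ?_ ?_ | refine D0.eqF ?_ ?_ | refine CT.eq ?_ ?_ | refine CT.mem ?_ _ | refine D0.memF ?_ (by assumption) | exact D0.true | exact D0.false | exact D0.const _))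
    · refine ⟨0, ?_, fun i _ => hB.p2_pos i, ?_⟩
      · rw [h.zero]; exact hg0.symm
      · rintro ⟨a, -, ha⟩
        exact absurd ha (not_lt_of_ge (zero_le' a))
    · rintro n ⟨m, hm, hlt, hpos⟩
      by_cases hn : n ∈ F
      · obtain ⟨i, rfl⟩ := hFX hn
        have hmi := hlt i le_rfl
        refine ⟨m + p2 i, ?_, ?_, fun _ => add_pos_of_nonneg_of_pos (zero_le' _) (hB.p2_pos i)⟩
        · rw [h.add m i hmi, hm]
          exact (hg1 _ hn).symm
        · intro i' hi'
          have h1 : i < i' := hinj i i' (lt_of_lt_of_le (Pool.Agent.H675R2.HT.lt1 _) hi')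
          have h2 : m + p2 i < p2 (i + 1) := by
            rw [hB.p2_succ]
            gcongr
          refine lt_of_lt_of_le h2 ?_
          rcases lt_or_eq_of_le (Pool.Agent.H675R2.HT.succ_le' h1) with h3 | h3
          · exact (hB.p2_lt _ _ h3).le
          · rw [h3]
      · refine ⟨m, ?_, ?_, ?_⟩
        · rw [hm]; exact (hg2 n hn).symm
        · intro i hi
          exact hlt i ((Pool.Agent.H675R2.HT.lt1 n).le.trans hi)
        · rintro ⟨a, ha, han⟩
          rcases lt_or_eq_of_le (Pool.Agent.H675R2.HT.le_of_lt1 han) with h1 | h1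
          · exact hpos ⟨a, ha, h1⟩
          · subst h1; exact absurd ha hn
  obtain ⟨m, hm, -, hpos⟩ := key b
  obtain ⟨a, ha⟩ := hne
  exact ⟨m, hpos ⟨a, ha, hb a ha⟩, hm.symm⟩

end

/-- the dichotomy in the final form -/
theorem dichotomy_of (hdich : S_dich.{u}) (N : L2Structure.{u}) (hN : IsModelRCA0 N)
    (hA : ArithComp N) (k : ℕ) (c : N.M → Fin k) (hc : ∀ i, {x | c x = i} ∈ N.Sets) :
    ∃ X ∈ N.Sets, N.zero ∉ X ∧ (∀ b, ∃ x ∈ X, N.lt b x) ∧
      ((∃ j, ∀ s ∈ FSle N 2 X, c s = j) ∨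
        ∃ S : Finset (Fin k), S.card ≤ max 1 (k / 2) ∧ ∀ s ∈ FS N X, c s ∈ S) := by
  have hS : Sig1 N := sig1_of_arithComp hA
  obtain ⟨p2, top, la, hB⟩ := exists_binF N
  rcases hdich N k c (fun i => D0.mem (Tm.var 0) (hc i)) with h1 | ⟨S, hS, P, hP, hPS, hcl⟩
  · obtain ⟨X, hX⟩ := Conc.homK h1
    have hX' := hX.drop0
    exact ⟨_, hX'.mem, fun h => h.2 rfl, hX'.unb, Or.inl hX'.toRaw⟩
  · obtain ⟨x, σ, h1, h2, h3⟩ := seq_strict N p2 top la hB P hP hcl
    have hxD : DF1 x := h1.hx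
    refine ⟨{z | ∃ i, z = x i}, ?_, ?_, ?_, Or.inr ⟨S, hS, ?_⟩⟩
    · refine comp_D0 (P := fun z => ∃ i, z = x i) ?_
      exact D0.ex (D0.eqF (DF.var 1) (DF.app hxD (DF.var 0)))
    · rintro ⟨i, hi⟩
      have h4 : 0 < x i := lt_of_lt_of_le (hB.p2_pos i) (h1.x_ge i)
      rw [← hi] at h4
      exact IsModelRCA0.ax_not_lt_zero _ h4
    · intro b
      refine ⟨x b, ⟨b, rfl⟩, ?_⟩
      exact lt_of_lt_of_le (hB.lt_p2 b) (h1.x_ge b)
    · intro s hs
      obtain ⟨n, hn, rfl⟩ := fs_sub hB h1 h3 hs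
      exact hPS _ (h2 n hn)

end Pool.Agent.H654.HA
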