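import Mathlib
import Pool.Agent.H654.HA.Defs

/-! Separation for a relation between colours. This is the proof of the library file
`Pool/Graph/R_seed8/H645R2/K/Sep.lean`, for a relation `ρ`. -/

namespace Pool.Agent.H654.HA

open Pool.Agent.Helper617.RM Pool.Agent.H675R2.HT Pool.Agent.H645R2.K

universe u

set_option linter.unusedSectionVars false
set_option linter.unusedVariables false

/-- property (H) for the relation `ρ` between colours -/
def HypHR {N : L2Structure.{u}} [IsModelRCA0 N] {k : ℕ} (col A : N.M → Fin k) (G : Set N.M)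
    (ρ : Fin k → Fin k → Prop) : Prop :=
  ∀ t0 l0 o, pr t0 l0 ∈ G → o < l0 → ∀ j, ρ (col (t0 + o)) j → ∃ t l, pr t l ∈ G ∧ l0 ≤ l ∧
    EqW col t t0 l0 ∧ eS col A G {j}ᶜ t l o

open Classical in
/-- the colours that are not related to a colour in `E` -/
noncomputable def perp {k : ℕ} (ρ : Fin k → Fin k → Prop) (E : Finset (Fin k)) : Finset (Fin k) :=
  Finset.univ.filter fun i => ∀ j ∈ E, ¬ ρ i j

theorem mem_perp {k : ℕ} {ρ : Fin k → Fin k → Prop} {E : Finset (Fin k)} {i : Fin k} :
    i ∈ perp ρ E ↔ ∀ j ∈ E, ¬ ρ i j := by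
  unfold perp
  simp

theorem sepR (N : L2Structure.{u}) [IsModelRCA0 N] [Sig1 N] (k : ℕ)
    (col A : N.M → Fin k) (G : Set N.M) (ρ : Fin k → Fin k → Prop) (hml : MinLang col G)
    (hH : HypHR col A G ρ) (t l o : N.M) (htl : pr t l ∈ G) (hol : o < l) :
    ∃ t1 l1 o1, pr t1 l1 ∈ G ∧ o1 < l1 ∧ Cen col t l o t1 l1 o1 ∧
      ∃ E : Finset (Fin k), midS col G (perp ρ E) t1 l1 o1 ∧ eS col A G E t1 l1 o1 := by
  classical
  have key : ∀ m : ℕ, ∀ T : Finset (Fin k), T.card = m → ∀ t1 l1 o1, pr t1 l1 ∈ G → o1 < l1 →
      Cen col t l o t1 l1 o1 → eS col A G T t1 l1 o1 →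
      ∃ t1 l1 o1, pr t1 l1 ∈ G ∧ o1 < l1 ∧ Cen col t l o t1 l1 o1 ∧
        ∃ E : Finset (Fin k), midS col G (perp ρ E) t1 l1 o1 ∧ eS col A G E t1 l1 o1 := by
    intro m
    induction m using Nat.strong_induction_on with
    | _ m ih =>
      intro T hT t1 l1 o1 h1 ho1 hcen heS
      by_cases hmid : midS col G (perp ρ T) t1 l1 o1
      · exact ⟨t1, l1, o1, h1, ho1, hcen, T, hmid, heS⟩
      · unfold midS at hmid
        push Not at hmid
        obtain ⟨t', l', p, s, h2, h3, h4, h5, h6⟩ := hmid
        rw [mem_perp] at h6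
        push Not at h6
        obtain ⟨j, h6, h60⟩ := h6
        have zp := zero_le' p
        have zs := zero_le' s
        have zl1 := zero_le' l1
        have zo1 := zero_le' o1
        have ht2 : pr (t' + p) ((s + s) + l1) ∈ G :=
          hml.sub t' l' p (t' + p) ((s + s) + l1) h2 (by grind) (fun i _ => rfl)
        have ej : t' + p + (s + o1) = t' + (p + s + o1) := by ring
        obtain ⟨t3, l3, h7, h8, h9, h10⟩ := hH (t' + p) ((s + s) + l1) (s + o1) ht2 (by grind)
          j (by rw [ej]; exact h60)
        obtain ⟨q1, q2, hq, hq2, hE1, hE2, hqo⟩ := hcen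
        have zq1 := zero_le' q1
        have zq2 := zero_le' q2
        have zl := zero_le' l
        refine ih (T.erase j).card ?_ _ rfl t3 l3 (s + o1) h7 (by grind)
          ⟨q1, (s + s) + q2, by grind, by grind, ?_, ?_, ?_⟩ ?_
        · rw [← hT]
          exact Finset.card_erase_lt_of_mem h6
        · intro i hi
          have e1 : t3 + q1 + i = t3 + (q1 + i) := by ring
          rw [e1, h9 (q1 + i) (by grind)]
          have e2 : t' + p + (q1 + i) = (t' + p) + (q1 + i) := rfl
          rw [h4 (q1 + i) (by grind), ← add_assoc]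
          exact hE1 i hi
        · intro i hi
          have e1 : t3 + (s + s + q2) + i = t3 + (s + s + (q2 + i)) := by ring
          rw [e1, h9 (s + s + (q2 + i)) (by grind)]
          have e2 : t' + p + (s + s + (q2 + i)) = t' + (p + (s + s)) + (q2 + i) := by ring
          rw [e2, h5 (q2 + i) (by grind), ← add_assoc]
          exact hE2 i hi
        · calc q1 + (s + s + q2) + (o + o) = (s + s) + (q1 + q2 + (o + o)) := by ring
            _ = (s + s) + (o1 + o1) := by rw [hqo]
            _ = s + o1 + (s + o1) := by ring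
        · intro h hOcc t4 l4 h11 h12 h13 h14
          rw [Finset.mem_erase]
          constructor
          · have h15 := h10 h hOcc t4 l4 h11 h12 h13 h14
            rw [Finset.mem_compl, Finset.mem_singleton] at h15
            exact h15
          · have e1 : h + (s + o1 + (s + o1)) = (h + (s + s)) + (o1 + o1) := by ring
            rw [e1]
            rw [e1] at h14
            refine heS (h + (s + s)) ?_ t4 l4 h11 (by grind) ?_ h14
            · intro i hi
              have e2 : h + (s + s) + i = h + (s + s + i) := by ring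
              rw [e2, hOcc (s + s + i) (by grind), h9 (s + s + i) (by grind)]
              have e3 : t' + p + (s + s + i) = t' + (p + (s + s)) + i := by ring
              rw [e3, h5 i hi]
            · intro i hi
              rw [h13 i (by grind), h9 i (by grind), h4 i hi]
  refine key _ Finset.univ rfl t l o htl hol ⟨0, 0, le_rfl, by rw [zero_add], ?_, ?_, ?_⟩ ?_
  · intro i hi
    rw [add_zero]
  · intro i hi
    rw [add_zero]
  · ring
  · intro h _ t' l' _ _ _ _
    exact Finset.mem_univ _

end Pool.Agent.H654.HA
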