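import Mathlib
import Pool.Agent.H654.HA.GenJ
import Pool.Agent.H654.HA.Efs
import Pool.Agent.H654.HA.Cfs
import Pool.Agent.H654.HA.SepT
import Pool.Agent.H654.HA.FSAll

/-! The asymmetric theorem: one colour of `T` for sums of at most two terms, or all finite sums
avoid half of `T`. -/

namespace Pool.Agent.H654.HA

open Pool.Agent.Helper617.RM Pool.Agent.H645R2.K

universe u

set_option linter.unusedSectionVars false
set_option linter.unusedVariables false

theorem asymR (N : L2Structure.{u}) [IsModelRCA0 N] [Sig1 N] (k : ℕ) (col : N.M → Fin k)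
    (hcol : CT1 col) (ρ : Fin k → Fin k → Prop) (Q : Finset (Fin k) → Prop) :
    (∃ i j, ρ i j ∧ ∃ X ∈ N.Sets, (∀ b, ∃ x ∈ X, b < x) ∧ (∀ x ∈ X, col x = i) ∧
      ∀ x ∈ X, ∀ y ∈ X, x < y → col (x + y) = j) ∨
    ∃ S : Finset (Fin k), (Q S ∨ ∃ E, ¬ Q E ∧ S = perp ρ E) ∧
      ∃ P : N.M → Prop, D0 (fun v => P (v 0)) ∧ (∀ z, P z → col z ∈ S) ∧ SumClosed P := by
  classical
  obtain ⟨G, hG⟩ := minlang N k col hcol
  obtain ⟨y, F, A, A1, B1, B2, A2, hS⟩ := sys point conv N k col G hcol hG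
  by_cases hH : HypHR col A G ρ
  · right
    by_cases hE : ∃ S : Finset (Fin k), Q S ∧ HypE col A G S
    · obtain ⟨S, hSK, hE⟩ := hE
      exact ⟨S, Or.inl hSK, efsS N k col G y F A A1 B1 B2 A2 hS S hE⟩
    · push Not at hE
      obtain ⟨L0, hL0⟩ := finite_max (N := N) (Finset.univ : Finset (Finset (Fin k)))
        (fun S L => Q S → ¬ EL col A G S L) (by
          intro S
          by_cases hSK : Q S
          · have h8 := hE S hSK
            unfold HypE at h8
            rw [not_forall] at h8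
            obtain ⟨L, hL⟩ := h8
            exact ⟨L, fun _ => hL⟩
          · exact ⟨0, fun h => absurd h hSK⟩) (by
          intro S L L' hLL h8 h9 h10
          exact h8 h9 (h10.mono hLL))
      obtain ⟨S, hQ, -, hP⟩ := cfsQ N k col G y F A A1 B1 B2 A2 hS k
        (fun S => ∃ E, ¬ Q E ∧ S = perp ρ E) L0 (by
        intro t l o htl hol hoL hA
        obtain ⟨t1, l1, o1, ht1, ho1, hC, E, hm, he⟩ := sepR N k col A G ρ hG hH t l o htl hol
        refine ⟨t1, l1, o1, ht1, ho1, hC, perp ρ E, ⟨⟨E, ?_, rfl⟩, ?_⟩, hm⟩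
        · intro hcard
          obtain ⟨q1, q2, hq, hq2, hE1, hE2, hsum⟩ := hC
          refine hL0 E (Finset.mem_univ _) hcard ⟨t1, l1, o1, q1 + o, q2 + o, ht1, ?_, ?_, ?_, ?_,
            ?_, ho1, he⟩
          · gcongr
          · have : q2 + o + L0 = q2 + (o + L0) := by ring
            rw [this]
            exact (add_le_add_right hoL q2).trans hq2
          · intro i hi
            have h8 := hE1 (o + i) (lt_of_lt_of_le (by gcongr) hoL)
            have e : t1 + (q1 + o + i) = t1 + q1 + (o + i) := by ring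
            rw [hA i hi, e, h8]
          · intro i hi
            have h8 := hE2 (o + i) (lt_of_lt_of_le (by gcongr) hoL)
            have e : t1 + (q2 + o + i) = t1 + q2 + (o + i) := by ring
            rw [hA i hi, e, h8]
          · rw [← hsum]; ring
        · exact (Finset.card_le_univ _).trans (by simp))
      exact ⟨S, Or.inr hQ, hP⟩
  · left
    unfold HypHR at hH
    push Not at hH
    obtain ⟨t0, l0, o, ht0, ho, j, hj, hno⟩ := hH
    obtain ⟨X, hX, h1, h2, h3⟩ := genericJ N k col G hcol hG j t0 l0 o ht0 ho (by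
      intro t l b htl hl hE hbad
      exact hno t l htl hl hE (transfer occ N k col G y F A A1 B1 B2 A2 hS _ t l o b htl hbad))
    exact ⟨col (t0 + o), j, hj, X, hX, h1, h2, h3⟩

theorem asym (N : L2Structure.{u}) [IsModelRCA0 N] [Sig1 N] (k : ℕ) (col : N.M → Fin k)
    (hcol : CT1 col) (T : Finset (Fin k)) :
    (∃ j ∈ T, ∃ X ∈ N.Sets, (∀ b, ∃ x ∈ X, b < x) ∧ (∀ x ∈ X, col x = j) ∧
      ∀ x ∈ X, ∀ y ∈ X, x < y → col (x + y) = j) ∨
    ∃ S : Finset (Fin k), T.card ≤ 2 * (T \ S).card ∧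
      ∃ P : N.M → Prop, D0 (fun v => P (v 0)) ∧ (∀ z, P z → col z ∈ S) ∧ SumClosed P := by
  classical
  rcases asymR N k col hcol (fun i j => i = j ∧ j ∈ T) (fun S => T.card ≤ 2 * (T \ S).card) with
    ⟨i, j, ⟨rfl, hj⟩, hX⟩ | ⟨S, hS, hP⟩
  · exact Or.inl ⟨i, hj, hX⟩
  · right
    rcases hS with hS | ⟨E, hE, rfl⟩
    · exact ⟨S, hS, hP⟩
    · refine ⟨_, ?_, hP⟩
      have e1 : T \ perp (fun i j => i = j ∧ j ∈ T) E = T ∩ E := by
        ext j
        simp only [Finset.mem_sdiff, mem_perp, Finset.mem_inter]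
        constructor
        · rintro ⟨h1, h2⟩
          push Not at h2
          obtain ⟨a, h3, h4, h5⟩ := h2
          subst h4
          exact ⟨h1, h3⟩
        · rintro ⟨h1, h2⟩
          refine ⟨h1, ?_⟩
          intro h3
          exact h3 j h2 ⟨rfl, h1⟩
      rw [e1]
      have := Finset.card_inter_add_card_sdiff T E
      omega

/-- the asymmetric theorem in the final form -/
theorem asym_final (N : L2Structure.{u}) (hN : IsModelRCA0 N)
    (hA : ArithComp N) (k : ℕ) (c : N.M → Fin k) (hc : ∀ i, {x | c x = i} ∈ N.Sets)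
    (T : Finset (Fin k)) :
    ∃ X ∈ N.Sets, N.zero ∉ X ∧ (∀ b, ∃ x ∈ X, N.lt b x) ∧
      ((∃ j ∈ T, ∀ s ∈ FSle N 2 X, c s = j) ∨
        ∃ T' ⊆ T, T.card ≤ 2 * T'.card ∧ ∀ s ∈ FS N X, c s ∉ T') := by
  classical
  have hS : Sig1 N := sig1_of_arithComp hA
  obtain ⟨p2, top, la, hB⟩ := exists_binF N
  rcases asym N k c (fun i => D0.mem (Tm.var 0) (hc i)) T with
    ⟨j, hj, X, hX, hu, h1, h2⟩ | ⟨S, hST, P, hP, hPS, hcl⟩
  · have hK : HomK c X := ⟨hX, hu, fun x hx y hy => by rw [h1 x hx, h1 y hy],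
      fun x hx y hy hxy => by rw [h2 x hx y hy hxy, h1 x hx]⟩
    have hX' := hK.drop0
    refine ⟨_, hX'.mem, fun h => h.2 rfl, hX'.unb, Or.inl ⟨j, hj, fun s hs => ?_⟩⟩
    rcases FS_cases hs with hs | ⟨x, hx, y, hy, hxy, rfl⟩
    · exact h1 s hs.1
    · exact h2 x hx.1 y hy.1 hxy
  · obtain ⟨x, σ, h1, h2, h3⟩ := seq_strict N p2 top la hB P hP hcl
    have hxD : DF1 x := h1.hx
    refine ⟨{z | ∃ i, z = x i}, ?_, ?_, ?_, Or.inr ⟨T \ S, Finset.sdiff_subset, hST, ?_⟩⟩
    · refine comp_D0 (P := fun z => ∃ i, z = x i) ?_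
      exact D0.ex (D0.eqF (DF.var 1) (DF.app hxD (DF.var 0)))
    · rintro ⟨i, hi⟩
      have h4 : 0 < x i := lt_of_lt_of_le (hB.p2_pos i) (h1.x_ge i)
      rw [← hi] at h4
      exact IsModelRCA0.ax_not_lt_zero _ h4
    · intro b
      refine ⟨x b, ⟨b, rfl⟩, ?_⟩
      exact lt_of_lt_of_le (hB.lt_p2 b) (h1.x_ge b)
    · intro s hs hs'
      obtain ⟨n, hn, rfl⟩ := fs_sub hB h1 h3 hs
      exact (Finset.mem_sdiff.1 hs').2 (hPS _ (h2 n hn))

end Pool.Agent.H654.HA
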