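import Mathlib
import Pool.Agent.H654.HA.FSAll
import Pool.Graph.R_seed8.H645R2.R.All

/-!
Statements for: over `RCA₀`, arithmetical comprehension is equivalent to the asymmetric form of
Hindman's theorem (for every set `A` there is an infinite set with all finite sums in `A`, or an
infinite set with all sums of at most two terms in the complement of `A`).
-/

namespace Pool.Agent.H654.HA

open Pool.Agent.Helper617.RM
open Pool.Agent.H645R2.R (BinF Ev Enum Bd ColSys GF)

universe u

set_option linter.unusedSectionVars false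
set_option linter.unusedVariables false

section defs

variable {N : L2Structure.{u}} [IsModelRCA0 N]

/-- the summation function of a set: `g n` is the sum of the elements of `S` below `n` -/
structure SumFun (S : Set N.M) (g : N.M → N.M) : Prop where
  hg : GF g
  zero : g 0 = 0
  mem : ∀ n ∈ S, g (n + 1) = g n + n
  not_mem : ∀ n, n ∉ S → g (n + 1) = g n

/-- `w` is the sum of the elements of `S` in `[a, b)` -/
def Blk (g : N.M → N.M) (a b w : N.M) : Prop := a ≤ b ∧ g b = g a + w

/-- `w` is the sum of the elements of `S` in two intervals in `[a, b)` -/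
def Blk2 (g : N.M → N.M) (a b w : N.M) : Prop :=
  ∃ c d u v, Blk g a c u ∧ c ≤ d ∧ Blk g d b v ∧ w = u + v

/-- `w` is the sum of the elements of `S` in three intervals in `[a, b)` -/
def Blk3 (g : N.M → N.M) (a b w : N.M) : Prop :=
  ∃ c d u v, Blk2 g a c u ∧ c ≤ d ∧ Blk g d b v ∧ w = u + v

end defs

/-- HB-A. Existence of the summation function (over `RCA₀`).

Use course-of-values recursion `Pool.Agent.H645R2.R.recur` (`Pool/Graph/R_seed8/H645R2/R/Rec.lean`;
compare `Pool/Agent/H654/HA/Seq.lean`, `ColTwo.lean`) with `pd (n + 1) = n` and the step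
`st n s = s + n'` if `n = n' + 1` with `n' ∈ S`, `st n s = s` otherwise (`eq_zero_or_succ`;
`S ∈ N.Sets` is `D1`: `D1.mem`). -/
def S_sumfun : Prop := ∀ (N : L2Structure.{u}) [IsModelRCA0 N] (S : Set N.M), S ∈ N.Sets →
  ∃ g : N.M → N.M, SumFun S g

/-- HB-B. Sums of intervals are finite sums (over `RCA₀`). State it as
`theorem blocks (h : S_sumfun.{u}) : S_blocks.{u}`.

`w = w1 + w2 + w3` with `g n2 = g n1 + w1`, `g n4 = g n3 + w2`, `g n6 = g n5 + w3`,
`n1 ≤ n2 ≤ n3 ≤ n4 ≤ n5 ≤ n6`. Let `F` be the set of `n ∈ S` that are in `[n1,n2)`, `[n3,n4)` or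
`[n5,n6)`; it is in `N.Sets` (`comp_D0`). Let `f` be the summation function of `F` (`h`). By
induction on `n` (`ind_S1`, or any induction of the library for `D0`/`D1` statements): if
`F ∩ [a, b) = ∅` then `f b = f a`; if `F ∩ [a, b) = S ∩ [a, b)` then `f b + g a = f a + g b`. Hence
`f n6 = w`. For the definition of `FS N S`, `IsSum` (`Pool/Agent/H654/HA/FSAll.lean`): the graph
`{r | ∃ n, r = pairN N n (f n)}` is in `N.Sets` by `comp_D0`/`comp_D1` (`pairN N n m` is
definitionally `pr n m`; `∃ n` can be bounded by `r`, or use `comp_D1` with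
`¬ ∃ n, r = pr n (f n)`; see how the library does it for graphs of functions), `b = n6`; `F` is not
empty because `w > 0` (otherwise `f n6 = f 0 = 0`). -/
def S_blocks : Prop := ∀ (N : L2Structure.{u}) [IsModelRCA0 N] (S : Set N.M) (g : N.M → N.M),
  S ∈ N.Sets → SumFun S g → ∀ a b w, Blk3 g a b w → 0 < w → w ∈ FS N S

/-- HB-C. Intervals with sums divisible by a given power of two (over `RCA₀`).

As in `Pool/Graph/R_seed8/H645R2/R/Far.lean`: by `strong_bounding` applied to
`Q r n := n0 ≤ n ∧ ∃ q, q < g n + 1 ∧ g n = r + p2 m * q` for `r < p2 m` there is `B` such that every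
residue `r < p2 m` of some `g n`, `n0 ≤ n`, is the residue of `g n1` for some `n0 ≤ n1`, `n1 < B`.
Take `x ∈ S` with `x > B`, `x > n0`, and `n2 = x + 1`; `r` the residue of `g n2` (`hB.modp`), `n1 < B`
from above. `g n2 = g x + x > g x ≥ g n1` (`g` is increasing, by induction), so
`g n2 = r + p2 m * q2`, `g n1 = r + p2 m * q1`, `q1 < q2`. -/
def S_php : Prop := ∀ (N : L2Structure.{u}) [IsModelRCA0 N] (p2 top la : N.M → N.M),
  BinF p2 top la → ∀ (S : Set N.M) (g : N.M → N.M), S ∈ N.Sets → (∀ b, ∃ x ∈ S, b < x) →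
  SumFun S g → ∀ n0 m, ∃ n1 n2 q, n0 ≤ n1 ∧ 0 < q ∧ Blk g n1 n2 (p2 m * q)

/-- HB-D. If no sum of intervals has colour `0`, then `W` is in the model (over `RCA₀`).

Library lemmas: `gapW := Pool.Agent.H645R2.R.gap Pool.Agent.H645R2.R.stab : S_gap`,
`Pool.Agent.H645R2.R.bd : S_bd`; compare `R/Settled.lean` and `R/RevL.lean`.
For `w > 0` let `a'` be with `top w = la w + a'`. Call `w` settled if `Bd W (la w) a'`.

Far sums: let `Blk g a b w` or `Blk2 g a b w`, `w > 0`, and suppose `w` is not settled: `z < la w`,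
`W s z`, `¬ W a' z`. Take `M ≥ s` with `Bd W (la w) M` and `i = la w + M + top w + 1`; by `hfar b i`
there is `y = p2 i * q`, `q > 0`, `Blk g n1 n2 y`, `b ≤ n1`. Then `S_gap` gives `C (w + y) = C w + 1`,
and `Blk2 g a n2 (w + y)` resp. `Blk3 g a n2 (w + y)`, `la (w + y) = la w` (`la_add`).
Hence: if `Blk2 g a b w`, `w > 0` and `C w = 2`, then `w` is settled (otherwise `C (w + y) = 0`).
Case (i): for every `b0` there are `a b w` with `Blk2 g a b w`, `0 < w`, `b0 < la w`, `C w = 2`.
Then `¬ P z` iff `∃ a b w a', Blk2 g a b w ∧ 0 < w ∧ C w = 2 ∧ z < la w ∧ top w = la w + a' ∧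
¬ W a' z`, which is `S1`; use `comp_D1`.
Case (ii): there is `b0` such that `C w ≠ 2` for all `Blk2 g a b w` with `0 < w`, `b0 < la w`. Then
every `w` with `Blk g a b w`, `0 < w`, `b0 < la w` is settled (`C w ≠ 0` and `C w ≠ 2`, so `C w = 1`,
and if `w` is not settled then `C (w + y) = 2`), and by `hfar 0 m` there are such `w` with
`m ≤ la w` (`le_la`) for every `m`; same argument with these `w`. (`Blk g a b w → Blk2 g a b w` with
an empty second interval.) -/
def S_key : Prop := ∀ (N : L2Structure.{u}) [IsModelRCA0 N] (p2 top la : N.M → N.M)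
  (W : N.M → N.M → Prop) (C : N.M → ZMod 3), BinF p2 top la → Enum W → ColSys p2 top la W C →
  ∀ g : N.M → N.M, GF g →
  (∀ n0 m, ∃ n1 n2 q, n0 ≤ n1 ∧ 0 < q ∧ Blk g n1 n2 (p2 m * q)) →
  (∀ a b w, Blk3 g a b w → 0 < w → C w ≠ 0) →
  ∀ P : N.M → Prop, S1 (fun v => P (v 0)) → (∀ z, P z ↔ ∃ s, W s z) → {z | P z} ∈ N.Sets

/-- HB-E. Divisibility for free (over `ACA₀`; all `D0` predicates are allowed in inductions).

Induction on `m` (`Pool.Agent.H675R2.HT.ind`) for the statement with `∀ b`. For `m = 0` this is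
`SumClosed P`. Step: take `x1` for `b` and `x2` for `b + x1`; `x1 = p2 m * q1`, `x2 = p2 m * q2`. If
`q1` is even take `x1`; if `q2` is even take `x2` (`z ≤ b ≤ b + x1`); otherwise `x1 + x2` is a multiple
of `p2 (m + 1) = p2 m + p2 m`, `P (x1 + x2)` because `x1 ≤ b + x1`, and for `z ≤ b`, `P z`:
`P (z + x1)` and `z + x1 ≤ b + x1`, so `P (z + x1 + x2)`. -/
def S_div : Prop := ∀ (N : L2Structure.{u}) [IsModelRCA0 N] [Sig1 N] (p2 top la : N.M → N.M),
  BinF p2 top la → ∀ P : N.M → Prop, D0 (fun v => P (v 0)) → SumClosed P →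
  ∀ m b, ∃ x, b < x ∧ P x ∧ (∀ z, z ≤ b → P z → P (z + x)) ∧ ∃ q, x = p2 m * q

/-- HB-F. The sequence with apartness. State it as `theorem seqA (h : S_div.{u}) : S_seqA.{u}`.

Same proof as `seq_strict` (`Pool/Agent/H654/HA/Seq.lean`), with the predicate
`Q b x := b < x ∧ P x ∧ (∀ z ≤ b, P z → P (z + x)) ∧ ∃ m q, b < p2 m ∧ x = p2 m * q` in the search
(`∃ x, Q b x` from `h` with `m = b`, as `b < p2 b` by `lt_p2`). For `i < j`:
`x i = φ (B i) ≤ B (i + 1) ≤ B j` (`B` is increasing, by induction; `mono_of_step`), and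
`B j < p2 m`, `x j = p2 m * q`. -/
def S_seqA : Prop := ∀ (N : L2Structure.{u}) [IsModelRCA0 N] [Sig1 N] (p2 top la : N.M → N.M),
  BinF p2 top la → ∀ P : N.M → Prop, D0 (fun v => P (v 0)) → SumClosed P →
  ∃ x σ : N.M → N.M, SumSys p2 x σ ∧ (∀ n, 0 < n → P (σ n)) ∧ (∀ i, x i < x (i + 1)) ∧
    ∀ i j, i < j → ∃ m q, x i < p2 m ∧ x j = p2 m * q

end Pool.Agent.H654.HA
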