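import Mathlib
import Pool.Agent.H654.HA.Asym
import Pool.Agent.H654.HA.DefsB

/-! Final assembly for the asymmetric Hindman theorem. -/

namespace Pool.Agent.H654.HA

open Pool.Agent.Helper617.RM
open Pool.Agent.H645R2.R (BinF Ev Enum Bd ColSys GF D1 DG lt1 Hom CG1)

universe u

set_option linter.unusedSectionVars false
set_option linter.unusedVariables false

/-- The asymmetric form of Hindman's theorem in the structure `N`: for every set `A` of the
structure there is an unbounded set `S` of positive numbers in the structure all of whose finite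
sums are in `A`, or an unbounded set `X` of positive numbers in the structure, all of whose sums of
one or two distinct elements are outside `A`. -/
def AsymHT (N : L2Structure.{u}) : Prop :=
  ∀ A ∈ N.Sets, (∃ S ∈ N.Sets, N.zero ∉ S ∧ (∀ b, ∃ x ∈ S, N.lt b x) ∧ ∀ s ∈ FS N S, s ∈ A) ∨
    (∃ X ∈ N.Sets, N.zero ∉ X ∧ (∀ b, ∃ x ∈ X, N.lt b x) ∧ ∀ s ∈ FSle N 2 X, s ∉ A)

/-- The form with colours: for every colouring `c` of the structure with finitely many colours and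
every set `T` of colours there is an unbounded set `X` of positive numbers in the structure such
that `c` is constant on `FS^{≤ 2}(X)` with a value in `T`, or `X` satisfies apartness and `c` omits
at least half of the colours of `T` on `FS(X)`. -/
def AsymHTCol (N : L2Structure.{u}) : Prop :=
  ∀ (k : ℕ) (c : N.M → Fin k), (∀ i, {x | c x = i} ∈ N.Sets) → ∀ T : Finset (Fin k),
    ∃ X ∈ N.Sets, N.zero ∉ X ∧ (∀ b, ∃ x ∈ X, N.lt b x) ∧
      ((∃ j ∈ T, ∀ s ∈ FSle N 2 X, c s = j) ∨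
        (Apart N X ∧ ∃ T' ⊆ T, T.card ≤ 2 * T'.card ∧ ∀ s ∈ FS N X, c s ∉ T'))

/-- The form with two sets: for all sets `D1`, `D2` of the structure there is an unbounded set `X` of
positive numbers in the structure with `X ⊆ D1` and `x + y ∈ D2` for all `x < y` in `X`, or there is
an unbounded set `S` of positive numbers in the structure that satisfies apartness, such that
`FS(S)` is disjoint from `D1` or from `D2`. -/
def AsymHTPair (N : L2Structure.{u}) : Prop :=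
  ∀ D1 ∈ N.Sets, ∀ D2 ∈ N.Sets,
    (∃ X ∈ N.Sets, N.zero ∉ X ∧ (∀ b, ∃ x ∈ X, N.lt b x) ∧ (∀ x ∈ X, x ∈ D1) ∧
      ∀ x ∈ X, ∀ y ∈ X, N.lt x y → N.add x y ∈ D2) ∨
    (∃ S ∈ N.Sets, N.zero ∉ S ∧ (∀ b, ∃ x ∈ S, N.lt b x) ∧ Apart N S ∧
      ((∀ s ∈ FS N S, s ∉ D1) ∨ ∀ s ∈ FS N S, s ∉ D2))

theorem real_of_closed (hpow : S_pow2.{u}) (hseq : S_seqA.{u}) (N : L2Structure.{u})
    [IsModelRCA0 N] [Sig1 N] (P : N.M → Prop) (hP : D0 (fun v => P (v 0))) (hcl : SumClosed P) :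
    ∃ X ∈ N.Sets, N.zero ∉ X ∧ (∀ b, ∃ x ∈ X, N.lt b x) ∧ Apart N X ∧ ∀ s ∈ FS N X, P s := by
  obtain ⟨p2, top, la, hB⟩ := exists_binF N
  obtain ⟨x, σ, h1, h2, h3, h4⟩ := hseq N p2 top la hB P hP hcl
  have hxD : Pool.Agent.H645R2.K.DF1 x := h1.hx
  refine ⟨{z | ∃ i, z = x i}, ?_, ?_, ?_, ?_, ?_⟩
  · refine comp_D0 (P := fun z => ∃ i, z = x i) ?_
    exact D0.ex (Pool.Agent.H645R2.K.D0.eqF (Pool.Agent.H645R2.K.DF.var 1)
      (Pool.Agent.H645R2.K.DF.app hxD (Pool.Agent.H645R2.K.DF.var 0)))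
  · rintro ⟨i, hi⟩
    have h4 : 0 < x i := lt_of_lt_of_le (hB.p2_pos i) (h1.x_ge i)
    rw [← hi] at h4
    exact IsModelRCA0.ax_not_lt_zero _ h4
  · intro b
    refine ⟨x b, ⟨b, rfl⟩, ?_⟩
    exact lt_of_lt_of_le (hB.lt_p2 b) (h1.x_ge b)
  · have hmono := Pool.Agent.H675R2.HT.mono_of_step hxD h3
    rintro _ ⟨i, rfl⟩ _ ⟨j, rfl⟩ hij0
    have hij : x i < x j := hij0
    have hij' : i < j := by
      rcases lt_trichotomy i j with h5 | h5 | h5
      · exact h5
      · subst h5; exact absurd hij (lt_irrefl _)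
      · exact absurd (lt_trans (hmono j i h5) hij) (lt_irrefl _)
    obtain ⟨m, q, h5, h6⟩ := h4 i j hij'
    exact ⟨p2 m, q, (hpow N p2 top la hB (p2 m)).1 ⟨m, rfl⟩, h5, h6⟩
  · intro s hs
    obtain ⟨n, hn, rfl⟩ := fs_sub hB h1 h3 hs
    exact h2 n hn

theorem asymHTCol_of (hpow : S_pow2.{u}) (hseq : S_seqA.{u}) (N : L2Structure.{u})
    (hN : IsModelRCA0 N) (hA : ArithComp N) : AsymHTCol N := by
  classical
  intro k c hc T
  have hS : Sig1 N := sig1_of_arithComp hA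
  rcases asym N k c (fun i => D0.mem (Tm.var 0) (hc i)) T with
    ⟨j, hj, X, hX, hu, h1, h2⟩ | ⟨S, hST, P, hP, hPS, hcl⟩
  · have hK : HomK c X := ⟨hX, hu, fun x hx y hy => by rw [h1 x hx, h1 y hy],
      fun x hx y hy hxy => by rw [h2 x hx y hy hxy, h1 x hx]⟩
    have hX' := hK.drop0
    refine ⟨_, hX'.mem, fun h => h.2 rfl, hX'.unb, Or.inl ⟨j, hj, fun s hs => ?_⟩⟩
    rcases FS_cases hs with hs | ⟨x, hx, y, hy, hxy, rfl⟩
    · exact h1 s hs.1
    · exact h2 x hx.1 y hy.1 hxy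
  · obtain ⟨X, hX, h0, hu, ha, hs⟩ := real_of_closed hpow hseq N P hP hcl
    exact ⟨X, hX, h0, hu, Or.inr ⟨ha, T \ S, Finset.sdiff_subset, hST, fun s h1 h2 =>
      (Finset.mem_sdiff.1 h2).2 (hPS _ (hs s h1))⟩⟩

theorem asymHTPair_of (hpow : S_pow2.{u}) (hseq : S_seqA.{u}) (N : L2Structure.{u})
    (hN : IsModelRCA0 N) (hA : ArithComp N) : AsymHTPair N := by
  classical
  intro D1 hD1 D2 hD2
  have hS : Sig1 N := sig1_of_arithComp hA
  have m1 : D0 (fun v : Ctx N => v 0 ∈ D1) := D0.mem (Tm.var 0) hD1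
  have m2 : D0 (fun v : Ctx N => v 0 ∈ D2) := D0.mem (Tm.var 0) hD2
  let c : N.M → Fin 4 := fun x =>
    if x ∈ D1 then (if x ∈ D2 then 3 else 2) else (if x ∈ D2 then 1 else 0)
  have hc1 : ∀ x, x ∈ D1 ↔ 2 ≤ (c x).val := by
    intro x
    show x ∈ D1 ↔ 2 ≤ (if x ∈ D1 then (if x ∈ D2 then 3 else 2) else
      (if x ∈ D2 then 1 else 0) : Fin 4).val
    by_cases h1 : x ∈ D1 <;> by_cases h2 : x ∈ D2 <;> simp [h1, h2]
  have hc2 : ∀ x, x ∈ D2 ↔ (c x).val % 2 = 1 := by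
    intro x
    show x ∈ D2 ↔ (if x ∈ D1 then (if x ∈ D2 then 3 else 2) else
      (if x ∈ D2 then 1 else 0) : Fin 4).val % 2 = 1
    by_cases h1 : x ∈ D1 <;> by_cases h2 : x ∈ D2 <;> simp [h1, h2]
  have hcol : Pool.Agent.H645R2.K.CT1 c := by
    intro j
    have key : ∀ x, c x = j ↔ ((x ∈ D1 ↔ 2 ≤ j.val) ∧ (x ∈ D2 ↔ j.val % 2 = 1)) := by
      intro x
      constructor
      · rintro rfl
        exact ⟨hc1 x, hc2 x⟩
      · rintro ⟨h1, h2⟩
        rw [hc1] at h1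
        rw [hc2] at h2
        apply Fin.ext
        have h3 := (c x).isLt
        have h4 := j.isLt
        omega
    refine D0.congr (R := fun v => (v 0 ∈ D1 ↔ 2 ≤ j.val) ∧ (v 0 ∈ D2 ↔ j.val % 2 = 1)) ?_
      fun v => (key (v 0)).symm
    exact (m1.iff (D0.const _)).and (m2.iff (D0.const _))
  rcases asymR N 4 c hcol (fun i j => 2 ≤ i.val ∧ j.val % 2 = 1)
    (fun S => ∀ j ∈ S, ¬ j.val % 2 = 1) with
    ⟨i, j, ⟨hi, hj⟩, X, hX, hu, h1, h2⟩ | ⟨S, hST, P, hP, hPS, hcl⟩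
  · left
    refine ⟨{x | x ∈ X ∧ x ≠ 0}, comp_D0 (P := fun x => x ∈ X ∧ x ≠ 0)
      (D0.and (D0.mem (Tm.var 0) hX) (D0.eq (Tm.var 0) (Tm.const 0)).not), fun h => h.2 rfl, ?_,
      ?_, ?_⟩
    · intro b
      obtain ⟨x, hx, hb⟩ := hu b
      refine ⟨x, ⟨hx, ?_⟩, hb⟩
      rintro rfl
      exact IsModelRCA0.ax_not_lt_zero b hb
    · intro x hx
      rw [hc1, h1 x hx.1]
      exact hi
    · intro x hx y hy hxy
      show x + y ∈ D2
      rw [hc2, h2 x hx.1 y hy.1 hxy]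
      exact hj
  · right
    obtain ⟨X, hX, h0, hu, ha, hs⟩ := real_of_closed hpow hseq N P hP hcl
    refine ⟨X, hX, h0, hu, ha, ?_⟩
    rcases hST with hQ | ⟨E, hE, rfl⟩
    · right
      intro s h1 h2
      exact hQ _ (hPS _ (hs s h1)) ((hc2 s).1 h2)
    · left
      push Not at hE
      obtain ⟨j, hj, hj2⟩ := hE
      intro s h1 h2
      have h3 := mem_perp.1 (hPS _ (hs s h1)) j hj
      exact h3 ⟨(hc1 s).1 h2, hj2⟩

theorem asymHT_of_pair (N : L2Structure.{u}) (hN : IsModelRCA0 N) (h : AsymHTPair N) :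
    AsymHT N := by
  intro A hA
  have hA' : {x | ¬ x ∈ A} ∈ N.Sets := comp_D0 (P := fun x => ¬ x ∈ A) (D0.mem (Tm.var 0) hA).not
  rcases h _ hA' _ hA' with ⟨X, hX, h0, hu, h1, h2⟩ | ⟨S, hS, h0, hu, ha, h1⟩
  · right
    refine ⟨X, hX, h0, hu, fun s hs => ?_⟩
    rcases FS_cases hs with hs | ⟨x, hx, y, hy, hxy, rfl⟩
    · exact h1 s hs
    · exact h2 x hx y hy hxy
  · left
    refine ⟨S, hS, h0, hu, fun s hs => ?_⟩
    by_contra hsA
    rcases h1 with h1 | h1 <;> exact h1 s hs hsA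

theorem asymHT_of_col (N : L2Structure.{u}) (hN : IsModelRCA0 N) (h : AsymHTCol N) :
    AsymHT N := by
  classical
  intro A hA
  have hcl : ∀ i : Fin 2, {x | (if x ∈ A then (0 : Fin 2) else 1) = i} ∈ N.Sets := by
    intro i
    have hi : i = 0 ∨ i = 1 := by
      rcases i with ⟨i, hi⟩
      interval_cases i
      · left; rfl
      · right; rfl
    rcases hi with rfl | rfl
    · have e : {x | (if x ∈ A then (0 : Fin 2) else 1) = 0} = A := by
        ext x
        by_cases hx : x ∈ A <;> simp [hx]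
      rw [e]
      exact hA
    · have e : {x | (if x ∈ A then (0 : Fin 2) else 1) = 1} = {x | ¬ x ∈ A} := by
        ext x
        by_cases hx : x ∈ A <;> simp [hx]
      rw [e]
      exact comp_D0 (P := fun x => ¬ x ∈ A) (D0.mem (Tm.var 0) hA).not
  obtain ⟨X, hX, h0, hu, hX2⟩ := h 2 (fun x => if x ∈ A then (0 : Fin 2) else 1) hcl {1}
  rcases hX2 with ⟨j, hj, h1⟩ | ⟨-, T', hT', hcard, h1⟩
  · right
    rw [Finset.mem_singleton] at hj
    subst hj
    refine ⟨X, hX, h0, hu, fun s hs hsA => ?_⟩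
    have h2 := h1 s hs
    simp [hsA] at h2
  · left
    refine ⟨X, hX, h0, hu, fun s hs => ?_⟩
    have hT1 : (1 : Fin 2) ∈ T' := by
      rw [Finset.card_singleton] at hcard
      have h3 : T'.Nonempty := by
        rw [← Finset.card_pos]
        omega
      obtain ⟨a, ha⟩ := h3
      have h4 := Finset.mem_singleton.1 (hT' ha)
      rw [h4] at ha
      exact ha
    by_contra hsA
    have h2 := h1 s hs
    simp only [hsA, if_false] at h2
    exact h2 hT1

/-- the second alternative gives comprehension (library) -/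
theorem comp_of_hom {N : L2Structure.{u}} [IsModelRCA0 N] {p2 top la : N.M → N.M}
    {W : N.M → N.M → Prop} {C : N.M → ZMod 3} (hB : BinF p2 top la) (hW : Enum W)
    (hC : ColSys p2 top la W C) {X : Set N.M} (hX : Hom C X) {P : N.M → Prop}
    (hP' : S1 (fun v => P (v 0))) (hPW : ∀ z, P z ↔ ∃ s, W s z) : {z | P z} ∈ N.Sets := by
  have hfar := Pool.Agent.H645R2.R.far (Pool.Agent.H645R2.R.ne
    (Pool.Agent.H645R2.R.gap Pool.Agent.H645R2.R.stab) Pool.Agent.H645R2.R.diff)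
    Pool.Agent.H645R2.R.bd
  have hset := Pool.Agent.H645R2.R.settled hfar (Pool.Agent.H645R2.R.gap
    Pool.Agent.H645R2.R.stab) Pool.Agent.H645R2.R.bd
  refine comp_D1 hP' ?_
  have hXm := hX.mem
  have htop : GF top := hB.htop
  have hla : GF la := hB.hla
  have hWD : ∀ {s t : Ctx N → N.M}, DG s → DG t → D1 (fun v => W (s v) (t v)) :=
    fun hs ht => D1.app2 (R := W) (D1.of hW.hW) hs ht
  refine S1.congr (R := fun v => ∃ h, ∃ a, (h ∈ X ∧ (0 < h ∧ (v 0 < la h ∧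
    (top h = la h + a ∧ ¬ W a (v 0)))))) ?_ fun v => ?_
  · refine S1.ex (S1.ex ?_)
    refine (D1.and (D1.mem (DG.var 1) hXm) (D1.and (D1.lt (DG.const 0) (DG.var 1))
      (D1.and (D1.lt (DG.var 2) (DG.app hla (DG.var 1))) (D1.and (D1.eq (DG.app htop (DG.var 1))
      (DG.add (DG.app hla (DG.var 1)) (DG.var 0))) (hWD (DG.var 0) (DG.var 2)).not)))).1
  · constructor
    · rintro ⟨h, a, h1, h2, h3, h4, h5⟩ hPv
      obtain ⟨s, hs⟩ := (hPW _).1 hPv
      exact h5 (hset N p2 top la W C hB hW hC X hX h h1 h2 a h4 _ h3 s hs)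
    · intro hPv
      obtain ⟨h, h1, h2, h3⟩ := hfar N p2 top la W C hB hW hC X hX (v 0)
      obtain ⟨a, ha⟩ := exists_sub (hB.la_le_top h h2)
      exact ⟨h, a, h1, h2, h3, ha, fun h5 => hPv ((hPW _).2 ⟨a, h5⟩)⟩

theorem arithComp_of_asymHT (hsum : S_sumfun.{u}) (hblk : S_blocks.{u}) (hphp : S_php.{u})
    (hkey : S_key.{u}) (N : L2Structure.{u}) (hN : IsModelRCA0 N) (H : AsymHT N) :
    ArithComp N := by
  have hSig : Sig1 N := by
    obtain ⟨p2, top, la, hB⟩ := exists_binF N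
    constructor
    intro P hP
    obtain ⟨Q, hQ, hPQ⟩ := hP
    have hP' : S1 (fun v => P (v 0)) := ⟨Q, hQ, hPQ⟩
    let W : N.M → N.M → Prop := fun s z => ∃ s', s' < s + 1 ∧ Q (cons z (fun _ => (0 : N.M))) s'
    have hPW : ∀ z, P z ↔ ∃ s, W s z := by
      intro z
      have h1 := hPQ (cons z (fun _ => (0 : N.M)))
      constructor
      · intro h
        obtain ⟨s, hs⟩ := h1.1 h
        exact ⟨s, s, lt1 s, hs⟩
      · rintro ⟨s, s', _, hs'⟩
        exact h1.2 ⟨s', hs'⟩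
    have hW : Enum W := by
      constructor
      · refine D0.bex ((Tm.var 0).add Tm.one) ?_
        exact D0.comp (R := fun w => Q (tail w) (w 0)) hQ
          (g := fun w => cons (w 0) (cons (w 2) (fun _ => (0 : N.M))))
          (CM.cons (Tm.var 0) (CM.cons (Tm.var 2) (fun _ => Tm.zero)))
      · rintro s t z hst ⟨s', h1, h2⟩
        exact ⟨s', lt_of_lt_of_le h1 (by gcongr), h2⟩
    obtain ⟨C, hC⟩ := Pool.Agent.H645R2.R.colex Pool.Agent.H645R2.R.recur N p2 top la W hB hW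
    have hCA : {x | ¬ C x = 0} ∈ N.Sets := comp_D0 (P := fun x => ¬ C x = 0) (hC.hC 0).not
    rcases H _ hCA with ⟨S, hS, h0, hu, hFS⟩ | ⟨X, hX, h0, hu, hFS⟩
    · obtain ⟨g, hg⟩ := hsum N S hS
      refine hkey N p2 top la W C hB hW hC g hg.hg (hphp N p2 top la hB S g hS hu hg) ?_ P hP' hPW
      intro a b w hw hw0
      exact hFS w (hblk N S g hS hg a b w hw hw0)
    · have hX0 : ∀ s ∈ FSle N 2 X, C s = 0 := fun s hs => by
        by_contra h
        exact hFS s hs h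
      refine comp_of_hom hB hW hC (X := X) ⟨hX, hu, ?_, ?_⟩ hP' hPW
      · intro x hx y hy
        rw [hX0 _ (mem_FS_single hx), hX0 _ (mem_FS_single hy)]
      · intro x hx y hy hxy
        rw [hX0 _ (mem_FS_pair hx hy hxy.ne), hX0 _ (mem_FS_single hx)]
  exact arithComp_of_sig1

theorem asym_tfae (hpow : S_pow2.{u}) (hseq : S_seqA.{u}) (hsum : S_sumfun.{u})
    (hblk : S_blocks.{u}) (hphp : S_php.{u}) (hkey : S_key.{u}) (N : L2Structure.{u})
    (hN : IsModelRCA0 N) : [ArithComp N, AsymHT N, AsymHTPair N, AsymHTCol N].TFAE := by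
  tfae_have 1 → 3 := asymHTPair_of hpow hseq N hN
  tfae_have 1 → 4 := asymHTCol_of hpow hseq N hN
  tfae_have 3 → 2 := asymHT_of_pair N hN
  tfae_have 4 → 2 := asymHT_of_col N hN
  tfae_have 2 → 1 := arithComp_of_asymHT hsum hblk hphp hkey N hN
  tfae_finish

end Pool.Agent.H654.HA
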