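import Mathlib
import Pool.Agent.H654.HA.DefsB

/-! HB-B (helper399): sums of intervals are finite sums (over `RCA₀`). -/

namespace Pool.Agent.H654.HA

open Pool.Agent.Helper617.RM
open Pool.Agent.H645R2.R (BinF Ev Enum Bd ColSys GF)

universe u

set_option linter.unusedSectionVars false
set_option linter.unusedVariables false

namespace BlocksX

open Pool.Agent.H645R2.R

variable {N : L2Structure.{u}} [IsModelRCA0 N]

/-- induction in an interval -/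
theorem indI {P : N.M → Prop} (hP : D1 (fun v => P (v 0))) {p q : N.M} (h0 : P p)
    (hs : ∀ n, p ≤ n → n < q → P n → P (n + 1)) : ∀ n, p ≤ n → n ≤ q → P n := by
  intro n
  refine ind_S1 (P := fun n => p ≤ n → n ≤ q → P n) ?_ ?_ ?_ n
  · exact (D1.imp (D1.le (DG.const p) (DG.var 0)) (D1.imp (D1.le (DG.var 0) (DG.const q)) hP)).1
  · intro h1 _
    rw [← le_antisymm h1 (zero_le' p)]
    exact h0
  · intro m ih h1 h2
    rcases lt_or_eq_of_le h1 with h3 | h3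
    · have h4 : p ≤ m := le_of_lt1 h3
      have h5 : m < q := lt_of_lt_of_le (lt1 m) h2
      exact hs m h4 h5 (ih h4 h5.le)
    · rw [← h3]
      exact h0

theorem sum_const {F : Set N.M} {f : N.M → N.M} (hf : SumFun F f) {p q : N.M} (hpq : p ≤ q)
    (h : ∀ n, p ≤ n → n < q → n ∉ F) : f q = f p := by
  have hP : D1 (fun v : Ctx N => f (v 0) = f p) :=
    D1.eq (DG.app hf.hg (DG.var 0)) (DG.const _)
  refine indI (P := fun n => f n = f p) hP (p := p) (q := q) rfl ?_ q hpq le_rfl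
  intro n h1 h2 h3
  rw [hf.not_mem n (h n h1 h2), h3]

theorem sum_eq {F S : Set N.M} {f g : N.M → N.M} (hf : SumFun F f) (hg : SumFun S g) {p q w : N.M}
    (hB : Blk g p q w) (h : ∀ n, p ≤ n → n < q → (n ∈ F ↔ n ∈ S)) : f q = f p + w := by
  obtain ⟨hpq, hw⟩ := hB
  have hP : D1 (fun v : Ctx N => f (v 0) + g p = f p + g (v 0)) :=
    D1.eq (DG.add (DG.app hf.hg (DG.var 0)) (DG.const _))
      (DG.add (DG.const _) (DG.app hg.hg (DG.var 0)))
  have key := indI (P := fun n => f n + g p = f p + g n) hP (p := p) (q := q) rfl (by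
    intro n h1 h2 h3
    by_cases hn : n ∈ S
    · rw [hf.mem n ((h n h1 h2).2 hn), hg.mem n hn, ← add_assoc, ← h3]
      ring
    · rw [hf.not_mem n fun h4 => hn ((h n h1 h2).1 h4), hg.not_mem n hn, h3]) q hpq le_rfl
  rw [hw] at key
  refine add_cancel' (c := g p) ?_
  rw [key]
  ring

theorem graph_mem {f : N.M → N.M} (hf : GF f) :
    {r | ∃ n, r = pairN N n (f n)} ∈ N.Sets := by
  have h1 : D1 (fun v : Ctx N => ∃ n, n < v 0 + 1 ∧ v 0 = pr n (f n)) := by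
    refine D1.bex (P := fun v n => v 0 = pr n (f n)) (DG.add (DG.var 0) (DG.const _)) ?_
    exact D1.eq (DG.var 1) (DG.pr (DG.var 0) (DG.app hf (DG.var 0)))
  have h2 : D1 (fun v : Ctx N => ∃ n, v 0 = pairN N n (f n)) := by
    refine h1.congr fun v => ⟨?_, ?_⟩
    · rintro ⟨n, _, h⟩
      exact ⟨n, h⟩
    · rintro ⟨n, h⟩
      refine ⟨n, ?_, h⟩
      have h3 : v 0 = pr n (f n) := h
      rw [h3]
      exact lt1_of_le (fst_le_pr _ _)
  exact comp_D1 (P := fun r => ∃ n, r = pairN N n (f n)) h2.1 h2.2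

end BlocksX

open BlocksX in
/-- sums of intervals are finite sums -/
theorem blocks (h : S_sumfun.{u}) : S_blocks.{u} := by
  intro N _ S g hS hg n1 n6 w hB3 hw
  obtain ⟨n4, n5, u, w3, ⟨n2, n3, w1, w2, hB1, h23, hB2, rfl⟩, h45, hB3', rfl⟩ := hB3
  have h12 : n1 ≤ n2 := hB1.1
  have h34 : n3 ≤ n4 := hB2.1
  have h56 : n5 ≤ n6 := hB3'.1
  have hF : {n | n ∈ S ∧ ((n1 ≤ n ∧ n < n2) ∨ (n3 ≤ n ∧ n < n4) ∨ (n5 ≤ n ∧ n < n6))} ∈ N.Sets := by
    refine comp_D0 (P := fun n => n ∈ S ∧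
      ((n1 ≤ n ∧ n < n2) ∨ (n3 ≤ n ∧ n < n4) ∨ (n5 ≤ n ∧ n < n6))) ?_
    have hI : ∀ p q : N.M, D0 (fun v : Ctx N => p ≤ v 0 ∧ v 0 < q) := fun p q =>
      D0.and (D0.le (Tm.const p) (Tm.var 0)) (D0.lt (Tm.var 0) (Tm.const q))
    exact D0.and (D0.mem (Tm.var 0) hS) (D0.or (hI _ _) (D0.or (hI _ _) (hI _ _)))
  obtain ⟨F, rfl⟩ : ∃ F, F = {n | n ∈ S ∧
    ((n1 ≤ n ∧ n < n2) ∨ (n3 ≤ n ∧ n < n4) ∨ (n5 ≤ n ∧ n < n6))} := ⟨_, rfl⟩
  obtain ⟨f, hf⟩ := h N _ hF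
  have e1 : f n1 = 0 := by
    rw [← hf.zero]
    refine sum_const hf (zero_le' _) ?_
    rintro n _ hn ⟨_, h1 | h1 | h1⟩
    · exact absurd hn (not_lt_of_ge h1.1)
    · exact absurd hn (not_lt_of_ge (h12.trans (h23.trans h1.1)))
    · exact absurd hn (not_lt_of_ge (h12.trans (h23.trans (h34.trans (h45.trans h1.1)))))
  have e2 : f n2 = f n1 + w1 := by
    refine sum_eq hf hg hB1 fun n h1 h2 => ⟨fun h3 => h3.1, fun h3 => ⟨h3, Or.inl ⟨h1, h2⟩⟩⟩
  have e3 : f n3 = f n2 := by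
    refine sum_const hf h23 ?_
    rintro n hn1 hn2 ⟨_, h1 | h1 | h1⟩
    · exact absurd h1.2 (not_lt_of_ge hn1)
    · exact absurd hn2 (not_lt_of_ge h1.1)
    · exact absurd hn2 (not_lt_of_ge (h34.trans (h45.trans h1.1)))
  have e4 : f n4 = f n3 + w2 := by
    refine sum_eq hf hg hB2 fun n h1 h2 =>
      ⟨fun h3 => h3.1, fun h3 => ⟨h3, Or.inr (Or.inl ⟨h1, h2⟩)⟩⟩
  have e5 : f n5 = f n4 := by
    refine sum_const hf h45 ?_
    rintro n hn1 hn2 ⟨_, h1 | h1 | h1⟩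
    · exact absurd h1.2 (not_lt_of_ge (h23.trans (h34.trans hn1)))
    · exact absurd h1.2 (not_lt_of_ge hn1)
    · exact absurd hn2 (not_lt_of_ge h1.1)
  have e6 : f n6 = f n5 + w3 := by
    refine sum_eq hf hg hB3' fun n h1 h2 =>
      ⟨fun h3 => h3.1, fun h3 => ⟨h3, Or.inr (Or.inr ⟨h1, h2⟩)⟩⟩
  have e7 : w1 + w2 + w3 = f n6 := by
    rw [e6, e5, e4, e3, e2, e1, zero_add]
  refine ⟨_, hF, ?_, fun n hn => hn.1, f, graph_mem hf.hg, hf.zero, hf.mem, hf.not_mem, n6, ?_, e7⟩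
  · by_contra hne
    have h1 : f n6 = f 0 := sum_const hf (zero_le' _) fun n _ _ h2 => hne ⟨n, h2⟩
    rw [hf.zero] at h1
    rw [e7, h1] at hw
    exact lt_irrefl _ hw
  · rintro n ⟨_, h1 | h1 | h1⟩
    · exact h1.2.trans_le (h23.trans (h34.trans (h45.trans h56)))
    · exact h1.2.trans_le (h45.trans h56)
    · exact h1.2

end Pool.Agent.H654.HA
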