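import Mathlib
import Pool.Agent.H654.HA.Defs

namespace Pool.Agent.H654.HA

open Pool.Agent.Helper617.RM
open Pool.Agent.H645R2.R (BinF Ev Enum Bd S_rec GF D1 DG)

universe u

set_option linter.unusedSectionVars false
set_option linter.unusedVariables false

namespace ColTwo

variable {N : L2Structure.{u}} [IsModelRCA0 N]

/-- exchange of `0` and `1` -/
noncomputable def inc (x : N.M) : N.M := if x = 0 then 1 else 0

/-- colours -/
noncomputable def tF (x : N.M) : Fin 2 := if x = 0 then 0 else 1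

theorem tF_inc (x : N.M) : tF (inc x) = tF x + 1 := by
  unfold inc
  by_cases h0 : x = 0
  · rw [if_pos h0]
    unfold tF
    rw [if_neg one_ne_zero, if_pos h0]
    decide
  · rw [if_neg h0]
    unfold tF
    rw [if_pos rfl, if_neg h0]
    decide

theorem tF_zero (x : N.M) : tF x = 0 ↔ x = 0 := by
  unfold tF
  by_cases h0 : x = 0
  · rw [if_pos h0]
    exact ⟨fun _ => h0, fun _ => rfl⟩
  · rw [if_neg h0]
    exact ⟨fun h => absurd h (by decide), fun h => absurd h h0⟩

theorem tF_one (x : N.M) : tF x = 1 ↔ ¬ x = 0 := by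
  unfold tF
  by_cases h0 : x = 0
  · rw [if_pos h0]
    exact ⟨fun h => absurd h (by decide), fun h => absurd h0 h⟩
  · rw [if_neg h0]
    exact ⟨fun _ => h0, fun _ => rfl⟩

theorem hj2 (j : Fin 2) : j = 0 ∨ j = 1 := by
  revert j
  decide

end ColTwo

open ColTwo in
theorem col2 : S_col2.{u} := by
  have h : S_rec.{u} := Pool.Agent.H645R2.R.recur
  intro N _ p2 top la W hB hW
  classical
  have hp2 := hB.hp2
  have htop := hB.htop
  have hla := hB.hla
  have hpdex : ∀ n : N.M, ∃ m, (n = m + p2 (top n)) ∨ (n = 0 ∧ m = 0) := by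
    intro n
    by_cases hn : n = 0
    · exact ⟨0, Or.inr ⟨hn, rfl⟩⟩
    · rcases hB.dec n (Helper617.RM.pos_of_ne_zero hn) with h1 | ⟨m, _, _, hm⟩
      · exact ⟨0, Or.inl (by rw [zero_add]; exact h1)⟩
      · exact ⟨m, Or.inl hm⟩
  choose pd hpd using hpdex
  have hnz : ∀ n m : N.M, n = m + p2 (top n) → n ≠ 0 := by
    intro n m hm h0
    have h1 := hB.p2_pos (top n)
    have h2 : 0 < m + p2 (top n) := add_pos_of_nonneg_of_pos (zero_le' m) h1
    rw [← hm, h0] at h2
    exact lt_irrefl _ h2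
  have huniq : ∀ n m, ((n = m + p2 (top n)) ∨ (n = 0 ∧ m = 0)) → m = pd n := by
    intro n m hm
    rcases hm with hm | ⟨hn, hm⟩
    · rcases hpd n with h2 | ⟨h2, h3⟩
      · exact add_cancel' (hm.symm.trans h2)
      · exact absurd h2 (hnz n m hm)
    · rcases hpd n with h2 | ⟨h2, h3⟩
      · exact absurd hn (hnz n (pd n) h2)
      · rw [hm, h3]
  have hpdpos : ∀ n, 0 < n → n = pd n + p2 (top n) := by
    intro n hn
    rcases hpd n with h2 | ⟨h2, h3⟩
    · exact h2
    · exact absurd h2 hn.ne'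
  have hpdGF : GF pd := by
    refine GF.graph (D1.congr (R := fun v => (v 0 = v 1 + p2 (top (v 0))) ∨
      (v 0 = 0 ∧ v 1 = 0)) ?_ ?_)
    · (repeat' (first | assumption | exact DG.var _ | refine DG.add ?_ ?_ |
        refine DG.app (by assumption) ?_ | exact DG.const _ |
        refine D1.and ?_ ?_ | refine D1.or ?_ ?_ | refine D1.not ?_ | refine D1.eq ?_ ?_))
    · intro v
      exact ⟨fun h' => huniq _ _ h', fun h' => by rw [h']; exact hpd _⟩
  have hpdlt : ∀ n, 0 < n → pd n < n := by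
    intro n hn
    have h1 := hpdpos n hn
    calc pd n < pd n + p2 (top n) := lt_add_of_pos_right _ (hB.p2_pos _)
      _ = n := h1.symm
  obtain ⟨Act, hAct⟩ : ∃ Act : N.M → Prop, ∀ n, Act n ↔
      ∃ z, z < la (pd n) ∧ (W (top n) z ∧ ¬ W (top (pd n)) z) := ⟨_, fun n => Iff.rfl⟩
  have hActD : D1 (fun v : Ctx N => Act (v 0)) := by
    refine D1.congr (R := fun v =>
        ∃ z, z < la (pd (v 0)) ∧ (W (top (v 0)) z ∧ ¬ W (top (pd (v 0))) z)) ?_
        (fun v => (hAct _).symm)
    (repeat' (first | assumption | exact DG.var _ | refine DG.add ?_ ?_ |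
        refine DG.app (by assumption) ?_ | exact DG.const _ |
        refine D1.app2 (R := W) (D1.of hW.hW) ?_ ?_ |
        refine D1.and ?_ ?_ | refine D1.or ?_ ?_ | refine D1.bex ?_ ?_ |
        refine D1.not ?_ | refine D1.eq ?_ ?_))
  obtain ⟨st, hst⟩ : ∃ st : N.M → N.M → N.M, ∀ n s, st n s =
      if pd n = 0 then 0 else if Act n then inc s else s := ⟨_, fun _ _ => rfl⟩
  have hstD : D1 (fun v : Ctx N => v 2 = st (v 0) (v 1)) := by
    refine D1.congr (R := fun v => (pd (v 0) = 0 ∧ v 2 = 0) ∨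
      (¬ pd (v 0) = 0 ∧ ((Act (v 0) ∧ ((v 1 = 0 ∧ v 2 = 1) ∨ (¬ v 1 = 0 ∧ v 2 = 0))) ∨
        (¬ Act (v 0) ∧ v 2 = v 1)))) ?_ ?_
    · (repeat' (first | assumption | exact DG.var _ | refine DG.add ?_ ?_ |
        refine DG.app (by assumption) ?_ | exact DG.const _ |
        refine D1.and ?_ ?_ | refine D1.or ?_ ?_ |
        refine D1.not ?_ | refine D1.eq ?_ ?_))
    · intro v
      rw [hst]
      by_cases h0 : pd (v 0) = 0
      · simp [h0]
      · by_cases h1 : Act (v 0)
        · by_cases h2 : v 1 = 0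
          · simp [h0, h1, h2, inc]
          · simp [h0, h1, h2, inc]
        · simp [h0, h1]
  obtain ⟨Φ, hΦ, hΦ0, hΦs⟩ := h N pd st 0 hpdGF hstD hpdlt
  refine ⟨fun n => tF (Φ n), ?_, ?_, ?_, ?_⟩
  · intro j
    have hj : D1 (fun v : Ctx N => tF (Φ (v 0)) = j) := by
      rcases hj2 j with rfl | rfl
      · exact D1.congr (R := fun v => Φ (v 0) = 0) (D1.eq (DG.app hΦ (DG.var 0)) (DG.const 0))
          (fun v => (tF_zero _).symm)
      · exact D1.congr (R := fun v => ¬ Φ (v 0) = 0)
          (D1.not (D1.eq (DG.app hΦ (DG.var 0)) (DG.const 0)))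
          (fun v => (tF_one _).symm)
    exact d0_of_D1_pred (P := fun x => tF (Φ x) = j) hj.1 hj.2
  · intro i
    have hpos := hB.p2_pos i
    have h0 : pd (p2 i) = 0 := by
      refine (huniq (p2 i) 0 (Or.inl ?_)).symm
      rw [hB.top_p2, zero_add]
    change tF (Φ (p2 i)) = 0
    rw [hΦs _ hpos, hst, if_pos h0, tF_zero]
  · intro m i hm hmi hev
    have htopn : top (m + p2 i) = i := hB.top_add m i hmi
    have hpdn : pd (m + p2 i) = m := by
      refine (huniq (m + p2 i) m (Or.inl ?_)).symm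
      rw [htopn]
    have hpos : 0 < m + p2 i := add_pos_of_pos_of_nonneg hm (zero_le' _)
    have hact : Act (m + p2 i) := by
      rw [hAct, hpdn, htopn]
      exact hev
    change tF (Φ (m + p2 i)) = tF (Φ m) + 1
    rw [hΦs _ hpos, hst, hpdn, if_neg hm.ne', if_pos hact, tF_inc]
  · intro m i hm hmi hev
    have htopn : top (m + p2 i) = i := hB.top_add m i hmi
    have hpdn : pd (m + p2 i) = m := by
      refine (huniq (m + p2 i) m (Or.inl ?_)).symm
      rw [htopn]
    have hpos : 0 < m + p2 i := add_pos_of_pos_of_nonneg hm (zero_le' _)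
    have hact : ¬ Act (m + p2 i) := by
      rw [hAct, hpdn, htopn]
      exact hev
    change tF (Φ (m + p2 i)) = tF (Φ m)
    rw [hΦs _ hpos, hst, hpdn, if_neg hm.ne', if_neg hact]

end Pool.Agent.H654.HA
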