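import Mathlib
import Pool.Agent.H654.HA.DefsB

/-! HB-E (helper97): divisibility for free by induction. -/

namespace Pool.Agent.H654.HA

open Pool.Agent.Helper617.RM Pool.Agent.H645R2.K
open Pool.Agent.H645R2.R (BinF Ev Enum Bd)

universe u

set_option linter.unusedSectionVars false
set_option linter.unusedVariables false

namespace DivX

variable {N : L2Structure.{u}} [IsModelRCA0 N] [Sig1 N]

theorem parity {p2 top la : N.M → N.M} (hB : BinF p2 top la) (q : N.M) :
    (∃ h, q = h + h) ∨ ∃ h, q = h + h + 1 := by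
  obtain ⟨r, h, h1, h2⟩ := hB.modp q (0 + 1)
  rw [hB.p2_succ, hB.p2_zero] at h1 h2
  rcases eq_zero_or_succ r with h3 | ⟨r', h3⟩
  · left
    refine ⟨h, ?_⟩
    rw [h2, h3]
    ring
  · right
    rw [h3] at h1
    have h4 : r' < 1 := lt_of_add_lt_add_right h1
    have h5 : r' = 0 := by
      rcases eq_zero_or_succ r' with h | ⟨m', rfl⟩
      · exact h
      · exfalso
        have h1 : (1 : N.M) ≤ m' + 1 := le_add_of_nonneg_left (zero_le' _)
        exact absurd h4 (not_lt_of_ge h1)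
    refine ⟨h, ?_⟩
    rw [h2, h3, h5]
    ring

end DivX

/-- HB-E -/
theorem divl : S_div.{u} := by
  intro N _ _ p2 top la hB P hP hsum m
  have hp2 : DF1 p2 := hB.hp2
  have hPD : ∀ {g : Ctx N → N.M}, DF g → D0 (fun v => P (g v)) :=
    fun {g} hg => D0.app1 (R := fun a => P a) hP hg
  refine Pool.Agent.H675R2.HT.ind (P := fun m => ∀ b, ∃ x, b < x ∧ (P x ∧
    ((∀ z, z ≤ b → P z → P (z + x)) ∧ ∃ q, x = p2 m * q))) ?_ ?_ ?_ m
  · (repeat' (first | assumption | exact DF.var _ | refine DF.add ?_ ?_ | refine DF.mul ?_ ?_ | refine DF.pr ?_ ?_ | exact DF.const _ | refine DF.app (by assumption) ?_ | refine CT.app1 (by assumption) ?_ | refine CT.app2 (by assumption) ?_ ?_ | exact CT.const _ | refine D0.MemCF ?_ ?_ | refine D0.IsCF ?_ | refine D0.and ?_ ?_ | refine D0.or ?_ ?_ | refine D0.ex ?_ | refine D0.all ?_ | refine D0.iff ?_ ?_ | refine D0.imp ?_ ?_ | refine D0.not ?_ | refine D0.ltF ?_ ?_ | refine D0.leF ?_ ?_ | refine D0.eqF ?_ ?_ | refine CT.eq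 ?_ ?_ | refine CT.mem ?_ _ | refine D0.memF ?_ (by assumption) | exact D0.true | exact D0.false | exact D0.const _ | exact hPD (DF.var _) | refine hPD ?_))
  · intro b
    obtain ⟨x, h1, h2, h3⟩ := hsum b
    exact ⟨x, h1, h2, h3, x, by rw [hB.p2_zero, one_mul]⟩
  · intro m ih b
    obtain ⟨x1, a1, a2, a3, q1, a4⟩ := ih b
    obtain ⟨x2, b1, b2, b3, q2, b4⟩ := ih (b + x1)
    rcases DivX.parity hB q1 with ⟨h, e1⟩ | ⟨h, e1⟩
    · exact ⟨x1, a1, a2, a3, h, by rw [a4, e1, hB.p2_succ]; ring⟩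
    · rcases DivX.parity hB q2 with ⟨h', e2⟩ | ⟨h', e2⟩
      · have hb : b ≤ b + x1 := le_add_of_nonneg_right (zero_le' _)
        exact ⟨x2, lt_of_le_of_lt hb b1, b2, fun z hz hPz => b3 z (hz.trans hb) hPz, h',
          by rw [b4, e2, hB.p2_succ]; ring⟩
      · refine ⟨x1 + x2, ?_, ?_, ?_, h + h' + 1, ?_⟩
        · exact lt_of_lt_of_le a1 (le_add_of_nonneg_right (zero_le' _))
        · exact b3 x1 (le_add_of_nonneg_left (zero_le' _)) a2
        · intro z hz hPz
          have h5 := b3 (z + x1) (add_le_add hz le_rfl) (a3 z hz hPz)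
          rwa [add_assoc] at h5
        · rw [a4, b4, e1, e2, hB.p2_succ]
          ring

end Pool.Agent.H654.HA
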