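import Mathlib
import Pool.Agent.H654.HA.Defs

/-! HA-G: homogeneous sets for `2 k` colours give homogeneous sets for `k` colours with
apartness. -/

namespace Pool.Agent.H654.HA

open Pool.Agent.Helper617.RM Pool.Agent.H645R2.K Pool.Agent.H675R2.HT
open Pool.Agent.H645R2.R (BinF Ev Enum Bd)

universe u

set_option linter.unusedSectionVars false
set_option linter.unusedVariables false

section par

variable {N : L2Structure.{u}} [IsModelRCA0 N] [Sig1 N]

/-- `n` is even -/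
def Even2 (n : N.M) : Prop := ∃ h, n = h + h

theorem Even2_D0 {g : Ctx N → N.M} (hg : DF g) : D0 (fun v => Even2 (g v)) := by
  refine D0.app1 (R := fun n => Even2 n) ?_ hg
  exact D0.ex (D0.eqF (DF.var 1) (DF.add (DF.var 0) (DF.var 0)))

theorem even_or (n : N.M) : Even2 n ∨ ∃ h, n = h + h + 1 := by
  refine ind (P := fun n => (∃ h, n = h + h) ∨ ∃ h, n = h + h + 1) ?_ ?_ ?_ n
  · exact D0.or (D0.ex (D0.eqF (DF.var 1) (DF.add (DF.var 0) (DF.var 0))))
      (D0.ex (D0.eqF (DF.var 1) (DF.add (DF.add (DF.var 0) (DF.var 0)) (DF.const 1))))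
  · exact Or.inl ⟨0, by rw [add_zero]⟩
  · rintro n (⟨h, rfl⟩ | ⟨h, rfl⟩)
    · exact Or.inr ⟨h, rfl⟩
    · exact Or.inl ⟨h + 1, by ring⟩

theorem even_ne_odd {h h' : N.M} : h + h ≠ h' + h' + 1 := by
  intro e
  rcases lt_or_ge h' h with hl | hl
  · have h1 := succ_le' hl
    have h3 : h' + 1 + (h' + 1) ≤ h + h := add_le_add h1 h1
    rw [e] at h3
    have h2 : h' + h' + 1 < h' + 1 + (h' + 1) := by
      calc h' + h' + 1 < h' + h' + 1 + 1 := lt1 _
        _ = h' + 1 + (h' + 1) := by ring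
    exact absurd h3 (not_le.2 h2)
  · have h3 : h + h ≤ h' + h' := add_le_add hl hl
    rw [e] at h3
    exact absurd h3 (not_le.2 (lt1 _))

theorem pair_even {p2 top la : N.M → N.M} (hF : BinF p2 top la) {v a b q q' : N.M}
    (ha : a = p2 v * (q + q + 1)) (hb : b = p2 v * (q' + q' + 1))
    (hpar : Even2 (la (a + b)) ↔ Even2 v) : Even2 (q + q' + 1) := by
  rcases even_or (q + q' + 1) with h | ⟨t, ht⟩
  · exact h
  · exfalso
    have h1 : la (a + b) = v + 1 := by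
      refine hF.la_unique _ (v + 1) t ?_
      rw [ha, hb, hF.p2_succ, ← ht]
      ring
    rw [h1] at hpar
    rcases even_or v with ⟨h, hh⟩ | ⟨h, hh⟩
    · obtain ⟨h', e⟩ := hpar.2 ⟨h, hh⟩
      rw [hh] at e
      exact even_ne_odd e.symm
    · have h2 : Even2 (v + 1) := ⟨h + 1, by rw [hh]; ring⟩
      obtain ⟨h', e⟩ := hpar.1 h2
      rw [hh] at e
      exact even_ne_odd e.symm

theorem no_three {p2 top la : N.M → N.M} (hF : BinF p2 top la) {X : Set N.M}
    (hpar : ∀ x ∈ X, ∀ y ∈ X, x < y → (Even2 (la (x + y)) ↔ Even2 (la x)))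
    {x y z v : N.M} (hx : x ∈ X) (hy : y ∈ X) (hz : z ∈ X) (h0 : 0 < x) (hxy : x < y)
    (hyz : y < z) (h1 : la x = v) (h2 : la y = v) (h3 : la z = v) : False := by
  obtain ⟨q1, e1⟩ := hF.la_eq x h0
  obtain ⟨q2, e2⟩ := hF.la_eq y (h0.trans hxy)
  obtain ⟨q3, e3⟩ := hF.la_eq z (h0.trans (hxy.trans hyz))
  rw [h1] at e1
  rw [h2] at e2
  rw [h3] at e3
  have p12 := hpar x hx y hy hxy
  have p23 := hpar y hy z hz hyz
  have p13 := hpar x hx z hz (hxy.trans hyz)
  rw [h1] at p12 p13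
  rw [h2] at p23
  obtain ⟨a, ha⟩ := pair_even hF e1 e2 p12
  obtain ⟨b, hb⟩ := pair_even hF e2 e3 p23
  obtain ⟨c, hc⟩ := pair_even hF e1 e3 p13
  refine even_ne_odd (h := a + b + c) (h' := q1 + q2 + q3 + 1) ?_
  calc a + b + c + (a + b + c) = (a + a) + (b + b) + (c + c) := by ring
    _ = (q1 + q2 + 1) + (q2 + q3 + 1) + (q1 + q3 + 1) := by rw [ha, hb, hc]
    _ = q1 + q2 + q3 + 1 + (q1 + q2 + q3 + 1) + 1 := by ring

theorem farDown {p2 top la : N.M → N.M} (hF : BinF p2 top la) {X : Set N.M} (hX : X ∈ N.Sets)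
    (hunb : ∀ b, ∃ x ∈ X, b < x)
    (hpar : ∀ x ∈ X, ∀ y ∈ X, x < y → (Even2 (la (x + y)) ↔ Even2 (la x))) :
    ∀ B b, ∃ x ∈ X, b < x ∧ B ≤ la x := by
  intro B b
  have hla : DF1 la := hF.hla
  obtain ⟨b0, hb0⟩ := bounding (Q := fun v b => ∀ x, x ∈ X → b < x → la x ≠ v)
    (by
      refine D0.all (D0.imp (D0.memF (DF.var 0) hX) (D0.imp (D0.ltF (DF.var 1) (DF.var 0)) ?_))
      exact D0.not (D0.eqF (DF.app hla (DF.var 0)) (DF.var 2))) B
    (fun v _ => by
      by_contra hcon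
      push Not at hcon
      obtain ⟨x, hx, hx0, hxv⟩ := hcon 0
      obtain ⟨y, hy, hxy, hyv⟩ := hcon x
      obtain ⟨z, hz, hyz, hzv⟩ := hcon y
      exact no_three hF hpar hx hy hz hx0 hxy hyz hxv hyv hzv)
  obtain ⟨x, hx, hxb⟩ := hunb (max b b0)
  refine ⟨x, hx, (le_max_left _ _).trans_lt hxb, ?_⟩
  by_contra hlt
  obtain ⟨b', hb', h⟩ := hb0 (la x) (not_le.1 hlt)
  exact h x hx (hb'.trans ((le_max_right _ _).trans_lt hxb)) rfl

end par

/-- HA-G -/
theorem down : S_down.{u} := by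
  classical
  intro N _ _ p2 top la hF k hyp c hc
  have hla : DF1 la := hF.hla
  have hp2 : DF1 p2 := hF.hp2
  obtain ⟨X, hX⟩ := hyp (fun n => ⟨2 * (c n).1 + (if Even2 (la n) then 0 else 1), by
    have := (c n).2
    split_ifs <;> omega⟩) (by
    intro j
    refine D0.congr (R := fun v => c (v 0) = ⟨j.1 / 2, by have := j.2; omega⟩ ∧
      (Even2 (la (v 0)) ↔ j.1 % 2 = 0)) ?_ fun v => ?_
    · exact D0.and (hc _) (D0.iff (Even2_D0 (DF.app hla (DF.var 0))) (D0.const _))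
    · simp only [Fin.ext_iff]
      by_cases he : Even2 (la (v 0))
      · simp only [he, if_true, true_iff]
        omega
      · simp only [he, if_false, false_iff]
        omega)
  have hval : ∀ x y : N.M, ((⟨2 * (c x).1 + (if Even2 (la x) then 0 else 1), by
      have := (c x).2
      split_ifs <;> omega⟩ : Fin (2 * k)) =
      ⟨2 * (c y).1 + (if Even2 (la y) then 0 else 1), by
      have := (c y).2
      split_ifs <;> omega⟩) → c x = c y ∧ (Even2 (la x) ↔ Even2 (la y)) := by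
    intro x y h
    have h1 := congrArg Fin.val h
    simp only at h1
    rw [Fin.ext_iff]
    by_cases hx : Even2 (la x) <;> by_cases hy : Even2 (la y) <;>
      simp only [hx, hy, if_true, if_false] at h1 ⊢ <;> constructor <;> first | omega | tauto
  have hone : ∀ x ∈ X, ∀ y ∈ X, c x = c y := fun x hx y hy => (hval x y (hX.one x hx y hy)).1
  have htwo : ∀ x ∈ X, ∀ y ∈ X, x < y → c (x + y) = c x :=
    fun x hx y hy hxy => (hval (x + y) x (hX.two x hx y hy hxy)).1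
  have hpar : ∀ x ∈ X, ∀ y ∈ X, x < y → (Even2 (la (x + y)) ↔ Even2 (la x)) :=
    fun x hx y hy hxy => (hval (x + y) x (hX.two x hx y hy hxy)).2
  have hfar := farDown hF hX.mem hX.unb hpar
  have hXm := hX.mem
  obtain ⟨a, haX, ha0⟩ := hX.unb 0
  obtain ⟨f, hf, hf0, hfI, hfS⟩ := dc (N := N) (Inv := fun e => e ∈ X ∧ 0 < e)
    (St := fun e e' => e < e' ∧ e < p2 (la e'))
    (D0.and (D0.memF (DF.var 0) hXm) (D0.ltF (DF.const 0) (DF.var 0)))
    (D0.and (D0.ltF (DF.var 0) (DF.var 1))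
      (D0.ltF (DF.var 0) (DF.app hp2 (DF.app hla (DF.var 1)))))
    (fun e he => by
      obtain ⟨x, hx, hex, hB⟩ := hfar e e
      refine ⟨x, ⟨hex, ?_⟩, hx, (zero_le' e).trans_lt hex⟩
      refine (hF.lt_p2 e).trans_le ?_
      rcases hB.lt_or_eq with h | h
      · exact (hF.p2_lt _ _ h).le
      · rw [h]) (a := a) ⟨haX, ha0⟩
  have hmono := mono_of_step hf fun n => (hfS n).1
  have hle := le_of_step hf fun n => (hfS n).1
  have hf' : DF1 f := hf
  have hap : ∀ i j, i < j → f i < p2 (la (f j)) := by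
    intro i j hij
    rcases eq_zero_or_succ j with rfl | ⟨j', rfl⟩
    · exact absurd hij (not_lt_of_ge (zero_le' i))
    · have h1 : f i ≤ f j' := by
        rcases lt_or_eq_of_le (le_of_lt1 hij) with h1 | rfl
        · exact (hmono _ _ h1).le
        · exact le_rfl
      exact h1.trans_lt (hfS j').2
  have hlt : ∀ i j, f i < f j → i < j := by
    intro i j hij
    rcases lt_trichotomy i j with h1 | h1 | h1
    · exact h1
    · rw [h1] at hij; exact absurd hij (lt_irrefl _)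
    · exact absurd (hij.trans (hmono _ _ h1)) (lt_irrefl _)
  refine ⟨{x | ∃ n, x = f n}, ⟨⟨comp_D0 (P := fun x => ∃ n, x = f n) ?_, ?_, ?_, ?_⟩, ?_, ?_⟩⟩
  · exact D0.ex (D0.eqF (DF.var 1) (DF.app hf' (DF.var 0)))
  · intro b
    exact ⟨f (b + 1), ⟨b + 1, rfl⟩, (lt1 b).trans_le (hle (b + 1))⟩
  · rintro _ ⟨i, rfl⟩ _ ⟨j, rfl⟩
    exact hone _ (hfI i).1 _ (hfI j).1
  · rintro _ ⟨i, rfl⟩ _ ⟨j, rfl⟩ hij
    exact htwo _ (hfI i).1 _ (hfI j).1 hij
  · rintro _ ⟨i, rfl⟩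
    exact (hfI i).2
  · rintro _ ⟨i, rfl⟩ _ ⟨j, rfl⟩ hij
    obtain ⟨q, hq⟩ := hF.la_eq (f j) (hfI j).2
    exact ⟨la (f j), q + q + 1, hap i j (hlt i j hij), hq⟩

end Pool.Agent.H654.HA
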