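import Pool.Agent.H654.HA.Defs

namespace Pool.Agent.H654.HA

open Pool.Agent.Helper617.RM Pool.Agent.H645R2.K
open Pool.Agent.H645R2.R (BinF Ev Enum Bd)

universe u

set_option linter.unusedSectionVars false
set_option linter.unusedVariables false

theorem gap2 : S_gap2.{u} := by
  classical
  intro N _ p2 top la W C hB hE hC P M hbd w i hw hwi hla hMi
  set c0 : Fin 2 := if Ev W (la w) (top w) M then C w + 1 else C w with hc0
  have hle1 : ∀ j, (1 : N.M) ≤ p2 j := by
    intro j
    have := Pool.Agent.H645R2.R.succ_le' (hB.p2_pos j)
    simpa using this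
  have key : ∀ b : N.M, ∀ q, q < b → (0 < q → C (w + p2 i * q) = c0) := by
    intro b
    refine ind_S1 (P := fun b => ∀ q, q < b → (0 < q → C (w + p2 i * q) = c0)) ?_ ?_ ?_ b
    · have : Pool.Agent.H645R2.R.D1
          (fun v : Ctx N => ∀ q, q < v 0 → (0 < q → C (w + p2 i * q) = c0)) := by
        refine Pool.Agent.H645R2.R.D1.ball
          (P := fun v q => 0 < q → C (w + p2 i * q) = c0) (Pool.Agent.H645R2.R.DG.var 0) ?_
        refine Pool.Agent.H645R2.R.D1.imp (Pool.Agent.H645R2.R.D1.lt
          (Pool.Agent.H645R2.R.DG.const _) (Pool.Agent.H645R2.R.DG.var 0)) ?_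
        exact Pool.Agent.H645R2.R.D1.app1 (R := fun a => C a = c0)
          (Pool.Agent.H645R2.R.D1.of (hC.hC c0))
          (Pool.Agent.H645R2.R.DG.add (Pool.Agent.H645R2.R.DG.const _)
            (Pool.Agent.H645R2.R.DG.mul (Pool.Agent.H645R2.R.DG.const _)
              (Pool.Agent.H645R2.R.DG.var 0)))
      exact this.1
    · intro q hq
      exact absurd hq (not_lt.2 (zero_le' q))
    · intro b ih q hq hq0
      rcases (Pool.Agent.H645R2.R.le_of_lt1 hq).lt_or_eq with h | rfl
      · exact ih q h hq0
      · rcases hB.dec q hq0 with h | ⟨q', hq'0, hq', hqe⟩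
        · set j := top q with hj
          have h1 : w + p2 i * q = w + p2 (i + j) := by
            rw [hB.p2_add, ← h]
          have h2 : w < p2 (i + j) := by
            rw [hB.p2_add]
            calc w < p2 i := hwi
              _ = p2 i * 1 := by ring
              _ ≤ p2 i * p2 j := mul_le_mul' le_rfl (hle1 j)
          have hev : Ev W (la w) (top w) (i + j) ↔ Ev W (la w) (top w) M := by
            constructor
            · rintro ⟨z, hz, h3, h4⟩
              exact ⟨z, hz, hbd z (lt_of_lt_of_le hz hla) _ h3, h4⟩
            · rintro ⟨z, hz, h3, h4⟩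
              exact ⟨z, hz, hE.mono M _ z (hMi.trans le_self_add) h3, h4⟩
          rw [h1, hc0]
          split_ifs with hv
          · exact hC.add1 w (i + j) hw h2 (hev.2 hv)
          · exact hC.add0 w (i + j) hw h2 (fun hx => hv (hev.1 hx))
        · set j := top q with hj
          have hlt : q' < q := by
            have := hB.p2_pos j
            conv_rhs => rw [hqe]
            exact lt_add_of_pos_right _ this
          have hC' := ih q' hlt hq'0
          have h1 : w + p2 i * q = (w + p2 i * q') + p2 (i + j) := by
            rw [hB.p2_add, hqe]; ring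
          have h0 : 0 < w + p2 i * q' := lt_of_lt_of_le hw le_self_add
          have h2 : w + p2 i * q' < p2 (i + j) := by
            rw [hB.p2_add]
            calc w + p2 i * q' < p2 i + p2 i * q' := by gcongr
              _ = p2 i * (q' + 1) := by ring
              _ ≤ p2 i * p2 j := by
                have := Pool.Agent.H645R2.R.succ_le' hq'
                gcongr
          have h3 : la (w + p2 i * q') = la w := hB.la_add w i q' hw hwi
          have hq1 : (1 : N.M) ≤ q' := by
            have := Pool.Agent.H645R2.R.succ_le' hq'0
            simpa using this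
          have h4 : i ≤ top (w + p2 i * q') := by
            have h5 : p2 i ≤ w + p2 i * q' := by
              calc p2 i = p2 i * 1 := by ring
                _ ≤ p2 i * q' := mul_le_mul' le_rfl hq1
                _ ≤ w + p2 i * q' := le_add_self
            have h6 := hB.top_mono _ _ (hB.p2_pos i) h5
            rwa [hB.top_p2] at h6
          have h6 : ¬ Ev W (la (w + p2 i * q')) (top (w + p2 i * q')) (i + j) := by
            rintro ⟨z, hz, hWb, hnWa⟩
            rw [h3] at hz
            exact hnWa (hE.mono M _ z (hMi.trans h4) (hbd z (lt_of_lt_of_le hz hla) _ hWb))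
          rw [h1, hC.add0 _ _ h0 h2 h6, hC']
  intro q hq
  have h1 := key (q + 1) q (Pool.Agent.H645R2.R.lt1 q) hq
  constructor
  · intro hv
    rw [h1, hc0, if_pos hv]
  · intro hv
    rw [h1, hc0, if_neg hv]

end Pool.Agent.H654.HA
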