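import Pool.Agent.H654.HA.DefsB

/-! HB-D (helper643 for helper654): comprehension from a set of sums that avoids a colour. -/

namespace Pool.Agent.H654.HA

open Pool.Agent.Helper617.RM
open Pool.Agent.H645R2.R (BinF Ev Enum Bd ColSys GF D1 DG CG CG1)

universe u

set_option linter.unusedSectionVars false
set_option linter.unusedVariables false

namespace KeyAux

open Pool.Agent.H645R2.R

section

variable {N : L2Structure.{u}} [IsModelRCA0 N]

theorem blk_D1 {g : N.M → N.M} (hg : GF g) {s t w : Ctx N → N.M} (hs : DG s) (ht : DG t)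
    (hw : DG w) : D1 (fun v => Blk g (s v) (t v) (w v)) :=
  D1.and (D1.le hs ht) (D1.eq (DG.app hg ht) (DG.add (DG.app hg hs) hw))

theorem blk_nil (g : N.M → N.M) (b : N.M) : Blk g b b 0 := ⟨le_rfl, (add_zero _).symm⟩

theorem blk_two {g : N.M → N.M} {a b w : N.M} (h : Blk g a b w) : Blk2 g a b w :=
  ⟨b, b, w, 0, h, le_rfl, blk_nil g b, (add_zero w).symm⟩

theorem blk_three {g : N.M → N.M} {a b w : N.M} (h : Blk2 g a b w) : Blk3 g a b w :=
  ⟨b, b, w, 0, h, le_rfl, blk_nil g b, (add_zero w).symm⟩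

/-- a far element changes the colour of an element which is not settled -/
theorem far {p2 top la : N.M → N.M} {W : N.M → N.M → Prop} {C : N.M → ZMod 3}
    (hB : BinF p2 top la) (hW : Enum W) (hC : ColSys p2 top la W C) {g : N.M → N.M}
    (hfar : ∀ n0 m, ∃ n1 n2 q, n0 ≤ n1 ∧ 0 < q ∧ Blk g n1 n2 (p2 m * q))
    {w a' : N.M} (h0 : 0 < w) (ha' : top w = la w + a') (hns : ¬ Bd W (la w) a') (b : N.M) :
    ∃ n1 n2 y, b ≤ n1 ∧ Blk g n1 n2 y ∧ C (w + y) = C w + 1 ∧ la (w + y) = la w := by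
  have hns' : ∃ z, z < la w ∧ ∃ s, W s z ∧ ¬ W a' z := by
    by_contra hc
    push Not at hc
    exact hns fun z hz s hs => hc z hz s hs
  obtain ⟨z, hz, s, hs, hna⟩ := hns'
  obtain ⟨M, hsM, hM⟩ := bd N W hW (la w) s
  obtain ⟨n1, n2, q, hn1, hq, hblk⟩ := hfar b (la w + M + top w + 1)
  have z1 : (0 : N.M) ≤ la w := zero_le' _
  have z2 : (0 : N.M) ≤ M := zero_le' _
  have z3 : (0 : N.M) ≤ top w := zero_le' _
  have e1 : top w + 1 ≤ la w + M + top w + 1 := by grind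
  have e2 : la w + M ≤ la w + M + top w + 1 := by
    rw [add_assoc]
    exact le_add_of_nonneg_right (zero_le' _)
  have e3 : w < p2 (la w + M + top w + 1) := by
    refine lt_of_lt_of_le (hB.lt_top w) ?_
    rcases lt_or_eq_of_le e1 with e | e
    · exact (hB.p2_lt _ _ e).le
    · rw [← e]
  refine ⟨n1, n2, _, hn1, hblk, ?_, hB.la_add w _ q h0 e3⟩
  exact ((Pool.Agent.H645R2.R.gap Pool.Agent.H645R2.R.stab) N p2 top la W C hB hW hC (la w) M hM w
    _ a' h0 e3 le_rfl e2 ha' q hq).1 ⟨z, hz, hM z hz s hs, hna⟩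

/-- comprehension from settled elements -/
theorem comp_of {p2 top la : N.M → N.M} {W : N.M → N.M → Prop} (hB : BinF p2 top la)
    (hW : Enum W) {P : N.M → Prop} (hP : S1 (fun v => P (v 0)))
    (hPW : ∀ z, P z ↔ ∃ s, W s z) {R : N.M → Prop} (hR : S1 (fun v => R (v 0)))
    (hset : ∀ w a', R w → 0 < w → top w = la w + a' → Bd W (la w) a')
    (hunb : ∀ z, ∃ w, R w ∧ 0 < w ∧ z < la w) : {z | P z} ∈ N.Sets := by
  refine comp_D1 hP ?_
  have htop : GF top := hB.htop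
  have hla : GF la := hB.hla
  have hWD : ∀ {s t : Ctx N → N.M}, DG s → DG t → D1 (fun v => W (s v) (t v)) :=
    fun hs ht => D1.app2 (R := W) (D1.of hW.hW) hs ht
  refine S1.congr (R := fun v => ∃ h, ∃ a, (R h ∧ (0 < h ∧ (v 0 < la h ∧
    (top h = la h + a ∧ ¬ W a (v 0)))))) ?_ fun v => ?_
  · refine S1.ex (S1.ex (S1.and ?_ ?_))
    · exact S1.comp (R := fun v => R (v 0)) hR (g := fun v => cons (v 1) v)
        (CM.cons (Tm.var 1) CM.id)
    · exact (D1.and (D1.lt (DG.const 0) (DG.var 1))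
        (D1.and (D1.lt (DG.var 2) (DG.app hla (DG.var 1))) (D1.and (D1.eq (DG.app htop (DG.var 1))
        (DG.add (DG.app hla (DG.var 1)) (DG.var 0))) (hWD (DG.var 0) (DG.var 2)).not))).1
  · constructor
    · rintro ⟨h, a, h1, h2, h3, h4, h5⟩ hPv
      obtain ⟨s, hs⟩ := (hPW _).1 hPv
      exact h5 (hset h a h1 h2 h4 _ h3 s hs)
    · intro hPv
      obtain ⟨h, h1, h2, h3⟩ := hunb (v 0)
      obtain ⟨a, ha⟩ := exists_sub (hB.la_le_top h h2)
      exact ⟨h, a, h1, h2, h3, ha, fun h5 => hPv ((hPW _).2 ⟨a, h5⟩)⟩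

end

end KeyAux

open KeyAux in
theorem key : S_key.{u} := by
  intro N _ p2 top la W C hB hW hC g hg hfar hne P hP hPW
  -- sums of two intervals of colour `2` are settled
  have hset2 : ∀ w a', (∃ a b, Blk2 g a b w) → C w = 2 → 0 < w → top w = la w + a' →
      Bd W (la w) a' := by
    rintro w a' ⟨a, b, hbl⟩ hC2 h0 ha'
    by_contra hns
    obtain ⟨n1, n2, y, hn1, hy, hCy, hla⟩ := far hB hW hC hfar h0 ha' hns b
    refine hne a n2 (w + y) ⟨b, n1, w, y, hbl, hn1, hy, rfl⟩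
      (lt_of_lt_of_le h0 (le_add_of_nonneg_right (zero_le' _))) ?_
    rw [hCy, hC2]
    decide
  by_cases hcase : ∀ b0, ∃ w, (∃ a b, Blk2 g a b w) ∧ 0 < w ∧ b0 < la w ∧ C w = 2
  · -- case (i)
    refine comp_of hB hW hP hPW (R := fun w => (∃ a, ∃ b, ∃ c, ∃ d, ∃ u, ∃ x,
      (Blk g a c u ∧ (c ≤ d ∧ (Blk g d b x ∧ (w = u + x ∧ C w = 2)))))) ?_ ?_ ?_
    · refine S1.ex (S1.ex (S1.ex (S1.ex (S1.ex (S1.ex ?_)))))
      -- `x = 0, u = 1, d = 2, c = 3, b = 4, a = 5, w = 6`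
      exact (D1.and (blk_D1 hg (DG.var 5) (DG.var 3) (DG.var 1)) (D1.and (D1.le (DG.var 3) (DG.var 2))
        (D1.and (blk_D1 hg (DG.var 2) (DG.var 4) (DG.var 0)) (D1.and (D1.eq (DG.var 6)
          (DG.add (DG.var 1) (DG.var 0))) (CG.app hC.hC (DG.var 6) 2))))).1
    · rintro w a' ⟨a, b, c, d, u, x, h1, h2, h3, h4, h5⟩ h0 ha'
      exact hset2 w a' ⟨a, b, c, d, u, x, h1, h2, h3, h4⟩ h5 h0 ha'
    · intro z
      obtain ⟨w, ⟨a, b, c, d, u, x, h1, h2, h3, h4⟩, h0, hz, h5⟩ := hcase z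
      exact ⟨w, ⟨a, b, c, d, u, x, h1, h2, h3, h4, h5⟩, h0, hz⟩
  · -- case (ii)
    push Not at hcase
    obtain ⟨b0, hb0⟩ := hcase
    refine comp_of hB hW hP hPW (R := fun w => (∃ a, ∃ b, (Blk g a b w ∧ b0 < la w))) ?_ ?_ ?_
    · refine S1.ex (S1.ex ?_)
      exact (D1.and (blk_D1 hg (DG.var 1) (DG.var 0) (DG.var 2))
        (D1.lt (DG.const b0) (DG.app hB.hla (DG.var 2)))).1
    · rintro w a' ⟨a, b, hbl, hbw⟩ h0 ha'
      by_contra hns
      obtain ⟨n1, n2, y, hn1, hy, hCy, hla⟩ := far hB hW hC hfar h0 ha' hns b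
      have hpos : 0 < w + y := lt_of_lt_of_le h0 (le_add_of_nonneg_right (zero_le' _))
      have k1 : C w ≠ 0 := hne a b w (blk_three (blk_two hbl)) h0
      have k2 : C w ≠ 2 := hb0 w ⟨a, b, blk_two hbl⟩ h0 hbw
      have k3 : C (w + y) ≠ 2 := hb0 (w + y) ⟨a, n2, b, n1, w, y, hbl, hn1, hy, rfl⟩ hpos (by
        rw [hla]; exact hbw)
      rw [hCy] at k3
      exact (by decide : ∀ x : ZMod 3, x ≠ 0 → x ≠ 2 → x + 1 ≠ 2 → False) _ k1 k2 k3
    · intro z
      obtain ⟨n1, n2, q, -, hq, hbl⟩ := hfar 0 (b0 + z + 1)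
      have h1 : b0 + z + 1 ≤ la (p2 (b0 + z + 1) * q) := hB.le_la _ q hq
      have z1 : (0 : N.M) ≤ b0 := zero_le' _
      have z2 : (0 : N.M) ≤ z := zero_le' _
      have h2 : b0 < b0 + z + 1 :=
        lt_of_le_of_lt (le_add_of_nonneg_right (zero_le' _)) (Pool.Agent.H645R2.R.lt1 _)
      have h3 : z < b0 + z + 1 :=
        lt_of_le_of_lt (le_add_of_nonneg_left (zero_le' _)) (Pool.Agent.H645R2.R.lt1 _)
      refine ⟨p2 (b0 + z + 1) * q, ⟨n1, n2, hbl, lt_of_lt_of_le h2 h1⟩, ?_, lt_of_lt_of_le h3 h1⟩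
      exact mul_pos (hB.p2_pos _) hq

end Pool.Agent.H654.HA
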