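import Mathlib
import Pool.Agent.H654.HA.DefsB

/-!
HB-C: intervals with sums divisible by a power of two.
-/

namespace Pool.Agent.H654.HA

open Pool.Agent.Helper617.RM
open Pool.Agent.H645R2.R (BinF Ev Enum Bd ColSys GF)

universe u

set_option linter.unusedSectionVars false
set_option linter.unusedVariables false

namespace PhpL

open Pool.Agent.H645R2.R (D1 DG lt1 le_of_lt1 lt1_of_le succ_le')

variable {N : L2Structure.{u}} [IsModelRCA0 N]

theorem step {S : Set N.M} {g : N.M → N.M} (hg : SumFun S g) (n : N.M) : g n ≤ g (n + 1) := by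
  by_cases h : n ∈ S
  · rw [hg.mem n h]
    exact le_self_add
  · rw [hg.not_mem n h]

theorem mono {S : Set N.M} {g : N.M → N.M} (hg : SumFun S g) {a b : N.M} (h : a ≤ b) :
    g a ≤ g b := by
  obtain ⟨k, rfl⟩ := exists_sub h
  refine ind_S1 (P := fun k => g a ≤ g (a + k)) ?_ ?_ ?_ k
  · have h1 : D1 (fun v : Ctx N => g a ≤ g (a + v 0)) :=
      D1.le (DG.const _) (DG.app hg.hg (DG.add (DG.const _) (DG.var 0)))
    exact h1.1
  · rw [add_zero]
  · intro n hn
    refine hn.trans ?_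
    rw [← add_assoc]
    exact step hg (a + n)

end PhpL

open Pool.Agent.H645R2.R (D1 DG lt1 le_of_lt1 lt1_of_le succ_le') in
theorem php : S_php.{u} := by
  intro N _ p2 top la hB S g hS hun hg n0 m
  have hgg := hg.hg
  have hQ : D0 (fun v : Ctx N =>
      n0 ≤ v 1 ∧ ∃ q, q < g (v 1) + 1 ∧ g (v 1) = v 0 + p2 m * q) := by
    have : D1 (fun v : Ctx N =>
        n0 ≤ v 1 ∧ ∃ q, q < g (v 1) + 1 ∧ g (v 1) = v 0 + p2 m * q) := by
      refine D1.and (D1.le (DG.const _) (DG.var 1)) ?_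
      refine D1.bex (P := fun v q => g (v 1) = v 0 + p2 m * q)
        (DG.add (DG.app hgg (DG.var 1)) (DG.const _)) ?_
      exact D1.eq (DG.app hgg (DG.var 2)) (DG.add (DG.var 1) (DG.mul (DG.const _) (DG.var 0)))
    exact d0_of_D1
      (R := fun r n => n0 ≤ n ∧ ∃ q, q < g n + 1 ∧ g n = r + p2 m * q)
      this.1 this.2
  obtain ⟨B, hBd⟩ := strong_bounding
    (Q := fun r n => n0 ≤ n ∧ ∃ q, q < g n + 1 ∧ g n = r + p2 m * q)
    hQ (p2 m)
  obtain ⟨x, hxS, hx⟩ := hun (max B n0)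
  have hxB : B < x := (le_max_left _ _).trans_lt hx
  have hxn : n0 < x := (le_max_right _ _).trans_lt hx
  obtain ⟨r, q2, hr, hr2⟩ := hB.modp (g (x + 1)) m
  have hq2 : q2 < g (x + 1) + 1 := by
    apply lt1_of_le
    have h1 : 1 ≤ p2 m := by
      have := succ_le' (hB.p2_pos m)
      rwa [zero_add] at this
    calc q2 = 1 * q2 := (one_mul _).symm
      _ ≤ p2 m * q2 := by gcongr
      _ ≤ r + p2 m * q2 := le_add_self
      _ = g (x + 1) := hr2.symm
  have hn2 : n0 ≤ x + 1 := (hxn.trans (lt1 x)).le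
  obtain ⟨n1, hn1B, hn1, q1, _, hr1⟩ := hBd r hr ⟨x + 1, hn2, q2, hq2, hr2⟩
  have hn1x : n1 < x := hn1B.trans hxB
  have hlt : g n1 < g (x + 1) := by
    rw [hg.mem x hxS]
    have h1 : g n1 ≤ g x := PhpL.mono hg hn1x.le
    have h2 : 0 < x := (zero_le' n1).trans_lt hn1x
    calc g n1 ≤ g x := h1
      _ = g x + 0 := (add_zero _).symm
      _ < g x + x := by gcongr
  have hq : q1 < q2 := by
    by_contra h
    rw [not_lt] at h
    have h1 : g (x + 1) ≤ g n1 := by
      rw [hr2, hr1]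
      gcongr
    exact absurd hlt (not_lt.2 h1)
  obtain ⟨q, hqe⟩ := exists_sub hq.le
  refine ⟨n1, x + 1, q, hn1, ?_, ?_, ?_⟩
  · rcases (zero_le' q).lt_or_eq with h | h
    · exact h
    · exfalso
      rw [← h, add_zero] at hqe
      exact absurd hqe hq.ne'
  · exact (hn1x.trans (lt1 x)).le
  · rw [hr2, hr1, hqe]
    ring

end Pool.Agent.H654.HA
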