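import Mathlib
import Pool.Agent.H654.HA.Defs

namespace Pool.Agent.H654.HA

open Pool.Agent.Helper617.RM Pool.Agent.H645R2.K
open Pool.Agent.H645R2.R (BinF Ev Enum Bd)

universe u

set_option linter.unusedSectionVars false
set_option linter.unusedVariables false

namespace PowX

variable {N : L2Structure.{u}} [IsModelRCA0 N]

theorem nz_pos {x : N.M} (h : x ≠ 0) : 0 < x := by
  rcases lt_trichotomy x 0 with h1 | h1 | h1
  · exact (IsModelRCA0.ax_not_lt_zero x h1).elim
  · exact (h h1).elim
  · exact h1

end PowX

open PowX in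
theorem pow2 : S_pow2.{u} := by
  intro N _ p2 top la h d
  constructor
  · rintro ⟨i, rfl⟩ a b hab
    have hpos := h.p2_pos i
    have ha : 0 < a := by
      apply nz_pos
      rintro rfl
      rw [zero_mul] at hab
      rw [← hab] at hpos
      exact lt_irrefl _ hpos
    have hb : 0 < b := by
      apply nz_pos
      rintro rfl
      rw [mul_zero] at hab
      rw [← hab] at hpos
      exact lt_irrefl _ hpos
    obtain ⟨r, hr⟩ := h.la_eq a ha
    obtain ⟨s, hs⟩ := h.la_eq b hb
    set t : N.M := r * s + r * s + r + s with ht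
    have e : p2 i = p2 (la a + la b) * (t + t + 1) := by
      rw [h.p2_add, ← hab]
      conv_lhs => rw [hr, hs]
      rw [ht]
      ring
    have e1 : la (p2 i) = la a + la b := h.la_unique _ _ _ e
    rw [h.la_p2] at e1
    rw [← e1] at e
    have e2 : p2 i * 1 = p2 i * (t + t + 1) := by rw [mul_one]; exact e
    have e3 : (1 : N.M) = t + t + 1 := Pool.Agent.H645R2.R.BinLa.cancel hpos e2
    have hr0 : r = 0 := by
      by_contra hr0
      have h1 : 0 < r := nz_pos hr0
      have h2 : r ≤ t := by
        rw [ht]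
        have : r * s + r * s + r + s = r + (r * s + r * s + s) := by ring
        rw [this]
        exact le_add_of_nonneg_right (zero_le' _)
      have h3 : 0 < t := lt_of_lt_of_le h1 h2
      have h4 : 0 < t + t := add_pos_of_nonneg_of_pos (zero_le' _) h3
      have h5 : 0 + 1 < t + t + 1 := by gcongr
      rw [zero_add, ← e3] at h5
      exact lt_irrefl _ h5
    rw [hr0] at hr
    have hr' : a = p2 (la a) := by
      have : p2 (la a) * ((0 : N.M) + 0 + 1) = p2 (la a) := by ring
      rw [this] at hr
      exact hr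
    rcases eq_zero_or_succ (la a) with h1 | ⟨u, h1⟩
    · left
      rw [h1, h.p2_zero] at hr'
      exact hr'
    · right
      rw [h1, h.p2_succ] at hr'
      exact ⟨_, hr'⟩
  · intro hd
    have hd0 : 0 < d := by
      apply nz_pos
      rintro rfl
      rcases hd (1 + 1 + 1) 0 (mul_zero _) with h1 | ⟨e, h1⟩
      · have h2 : (1 : N.M) < 1 + 1 + 1 :=
          (Pool.Agent.H645R2.R.lt1 _).trans (Pool.Agent.H645R2.R.lt1 _)
        rw [h1] at h2
        exact lt_irrefl _ h2
      · exact Pool.Agent.H645R2.R.BinLa.parity e 1 h1.symm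
    obtain ⟨q, hq⟩ := h.la_eq d hd0
    rcases hd (q + q + 1) (p2 (la d)) (by rw [mul_comm]; exact hq.symm) with h1 | ⟨e, h1⟩
    · refine ⟨la d, ?_⟩
      rw [h1, mul_one] at hq
      exact hq
    · exact (Pool.Agent.H645R2.R.BinLa.parity e q h1.symm).elim

end Pool.Agent.H654.HA
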