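import Mathlib
import Pool.Agent.H654.HA.Defs

/-! HA-K: apartness and two colours give `Σ⁰₁` comprehension. -/

namespace Pool.Agent.H654.HA

open Pool.Agent.Helper617.RM Pool.Agent.H645R2.K
open Pool.Agent.H645R2.R (BinF Ev Enum Bd DG GF D1 lt1)

universe u

set_option linter.unusedSectionVars false
set_option linter.unusedVariables false

theorem rev2 (h1 : S_col2.{u}) (h2 : S_set2.{u}) : S_rev2.{u} := by
  intro N _ p2 top la hB H
  constructor
  intro P hP
  obtain ⟨Q, hQ, hPQ⟩ := hP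
  have hP' : S1 (fun v => P (v 0)) := ⟨Q, hQ, hPQ⟩
  let W : N.M → N.M → Prop := fun s z => ∃ s', s' < s + 1 ∧ Q (cons z (fun _ => (0 : N.M))) s'
  have hPW : ∀ z, P z ↔ ∃ s, W s z := by
    intro z
    have h1 := hPQ (cons z (fun _ => (0 : N.M)))
    constructor
    · intro h
      obtain ⟨s, hs⟩ := h1.1 h
      exact ⟨s, s, lt1 s, hs⟩
    · rintro ⟨s, s', _, hs'⟩
      exact h1.2 ⟨s', hs'⟩
  have hW : Enum W := by
    constructor
    · refine D0.bex ((Tm.var 0).add Tm.one) ?_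
      exact D0.comp (R := fun w => Q (tail w) (w 0)) hQ
        (g := fun w => cons (w 0) (cons (w 2) (fun _ => (0 : N.M))))
        (CM.cons (Tm.var 0) (CM.cons (Tm.var 2) (fun _ => Tm.zero)))
    · rintro s t z hst ⟨s', h1, h2⟩
      exact ⟨s', lt_of_lt_of_le h1 (by gcongr), h2⟩
  obtain ⟨C, hC⟩ := h1 N p2 top la W hB hW
  obtain ⟨X, hX⟩ := H C hC.hC
  obtain ⟨hfar, hset⟩ := h2 N p2 top la W C hB hW hC X hX
  refine comp_D1 hP' ?_
  have hXm := hX.hom.mem
  have htop : GF top := hB.htop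
  have hla : GF la := hB.hla
  have hWD : ∀ {s t : Ctx N → N.M}, DG s → DG t → D1 (fun v => W (s v) (t v)) :=
    fun hs ht => D1.app2 (R := W) (D1.of hW.hW) hs ht
  refine S1.congr (R := fun v => ∃ h, (h ∈ X ∧ (v 0 < la h ∧ ¬ W (top h) (v 0)))) ?_ fun v => ?_
  · refine S1.ex ?_
    refine (D1.and (D1.mem (DG.var 0) hXm)
      (D1.and (D1.lt (DG.var 1) (DG.app hla (DG.var 0)))
        (hWD (DG.app htop (DG.var 0)) (DG.var 1)).not)).1
  · constructor
    · rintro ⟨h, h1, h2, h3⟩ hPv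
      obtain ⟨s, hs⟩ := (hPW _).1 hPv
      exact h3 (hset h h1 _ h2 s hs)
    · intro hPv
      obtain ⟨h, h1, h2⟩ := hfar (v 0)
      exact ⟨h, h1, h2, fun h5 => hPv ((hPW _).2 ⟨top h, h5⟩)⟩

end Pool.Agent.H654.HA
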