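import Mathlib
import Pool.Agent.H654.HA.DefsB
import Pool.Agent.H654.HA.Seq

/-! HB-F (helper441): the sequence with apartness. -/

namespace Pool.Agent.H654.HA

open Pool.Agent.Helper617.RM Pool.Agent.H645R2.K
open Pool.Agent.H645R2.R (BinF Ev Enum Bd)

universe u

set_option linter.unusedSectionVars false
set_option linter.unusedVariables false
set_option linter.unusedTactic false
set_option linter.unreachableTactic false

open SeqX in
/-- the sequence with apartness -/
theorem seqA (h : S_div.{u}) : S_seqA.{u} := by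
  intro N _ _ p2 top la hB P hP hsum
  have hp2 : DF1 p2 := hB.hp2
  have htop : DF1 top := hB.htop
  have hPD : ∀ {g : Ctx N → N.M}, DF g → D0 (fun v => P (g v)) :=
    fun {g} hg => D0.app1 (R := fun a => P a) hP hg
  obtain ⟨φ, hφ, hφQ⟩ := leastF (N := N)
    (Q := fun b x => (b < x ∧ (P x ∧ ∀ z, z ≤ b → P z → P (z + x))) ∧
      ∃ m, ∃ q, b < p2 m ∧ x = p2 m * q) (by (repeat' (first | assumption | exact DF.var _ | refine DF.add ?_ ?_ | refine DF.mul ?_ ?_ | refine DF.pr ?_ ?_ | exact DF.const _ | refine DF.app (by assumption) ?_ | refine CT.app1 (by assumption) ?_ | refine CT.app2 (by assumption) ?_ ?_ | exact CT.const _ | refine D0.MemCF ?_ ?_ | refine D0.IsCF ?_ | refine D0.and ?_ ?_ | refine D0.or ?_ ?_ | refine D0.ex ?_ | refine D0.all ?_ | refine D0.iff ?_ ?_ | refine D0.imp ?_ ?_ | refine D0.not ?_ | refine D0.ltF ?_ ?_ | refine D0.leF ?_ ?_ | refine D0.eqF ?_ ?_ | refine CT.eq ?_ ?_ | refine CT.mem ?_ _ | refine D0.memF ?_ (by assumption) | exact D0.true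 | exact D0.false | exact D0.const _ | exact hPD (DF.var _) | refine hPD ?_))) (by
      intro b
      obtain ⟨x, h1, h2, h3, q, h4⟩ := h N p2 top la hB P hP hsum b b
      exact ⟨x, ⟨h1, h2, h3⟩, b, q, hB.lt_p2 b, h4⟩)
  have hG : DF1 (fun e => e + e + φ e) := DF1.of (DF.add (DF.add (DF.var 0) (DF.var 0))
    (DF.app hφ (DF.var 0)))
  obtain ⟨B, hBB, hB0, hBs⟩ := exists_recursion (G := fun e => e + e + φ e) hG (1 : N.M)
  have hB' : DF1 B := hBB
  have hx : DF1 (fun i => φ (B i)) := DF1.of (DF.app hφ (DF.app hB' (DF.var 0)))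
  -- `p2 i ≤ B i`
  have hle : ∀ i, p2 i ≤ B i := by
    refine Pool.Agent.H675R2.HT.ind (P := fun i => p2 i ≤ B i) ?_ ?_ ?_
    · (repeat' (first | assumption | exact DF.var _ | refine DF.add ?_ ?_ | refine DF.mul ?_ ?_ | refine DF.pr ?_ ?_ | exact DF.const _ | refine DF.app (by assumption) ?_ | refine CT.app1 (by assumption) ?_ | refine CT.app2 (by assumption) ?_ ?_ | exact CT.const _ | refine D0.MemCF ?_ ?_ | refine D0.IsCF ?_ | refine D0.and ?_ ?_ | refine D0.or ?_ ?_ | refine D0.ex ?_ | refine D0.all ?_ | refine D0.iff ?_ ?_ | refine D0.imp ?_ ?_ | refine D0.not ?_ | refine D0.ltF ?_ ?_ | refine D0.leF ?_ ?_ | refine D0.eqF ?_ ?_ | refine CT.eq ?_ ?_ | refine CT.mem ?_ _ | refine D0.memF ?_ (by assumption) | exact D0.true | exact D0.false | exact D0.const _ | exact hPD (DF.var _) | refine hPD ?_))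
    · rw [hB.p2_zero, hB0]
    · intro i ih
      rw [hB.p2_succ, hBs]
      exact (add_le_add ih ih).trans (le_add_of_nonneg_right (zero_le' _))
  -- the predecessor
  have hpdex : ∀ n : N.M, ∃ m, (n = m + p2 (top n)) ∨ (n = 0 ∧ m = 0) := by
    intro n
    by_cases hn : n = 0
    · exact ⟨0, Or.inr ⟨hn, rfl⟩⟩
    · rcases hB.dec n (Helper617.RM.pos_of_ne_zero hn) with h1 | ⟨m, _, _, hm⟩
      · exact ⟨0, Or.inl (by rw [zero_add]; exact h1)⟩
      · exact ⟨m, Or.inl hm⟩
  choose pd hpd using hpdex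
  have hnz : ∀ n m : N.M, n = m + p2 (top n) → n ≠ 0 := by
    intro n m hm h0
    have h1 := hB.p2_pos (top n)
    have h2 : 0 < m + p2 (top n) := add_pos_of_nonneg_of_pos (zero_le' m) h1
    rw [← hm, h0] at h2
    exact lt_irrefl _ h2
  have huniq : ∀ n m, ((n = m + p2 (top n)) ∨ (n = 0 ∧ m = 0)) → m = pd n := by
    intro n m hm
    rcases hm with hm | ⟨hn, hm⟩
    · rcases hpd n with h2 | ⟨h2, h3⟩
      · exact add_cancel' (hm.symm.trans h2)
      · exact absurd h2 (hnz n m hm)
    · rcases hpd n with h2 | ⟨h2, h3⟩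
      · exact absurd hn (hnz n (pd n) h2)
      · rw [hm, h3]
  have hpdpos : ∀ n, 0 < n → n = pd n + p2 (top n) := by
    intro n hn
    rcases hpd n with h2 | ⟨h2, h3⟩
    · exact h2
    · exact absurd h2 hn.ne'
  have hpdD : DF1 pd := by
    refine D0.congr (R := fun v => (v 0 = v 1 + p2 (top (v 0))) ∨
      (v 0 = 0 ∧ v 1 = 0)) ?_ ?_
    · (repeat' (first | assumption | exact DF.var _ | refine DF.add ?_ ?_ | refine DF.mul ?_ ?_ | refine DF.pr ?_ ?_ | exact DF.const _ | refine DF.app (by assumption) ?_ | refine CT.app1 (by assumption) ?_ | refine CT.app2 (by assumption) ?_ ?_ | exact CT.const _ | refine D0.MemCF ?_ ?_ | refine D0.IsCF ?_ | refine D0.and ?_ ?_ | refine D0.or ?_ ?_ | refine D0.ex ?_ | refine D0.all ?_ | refine D0.iff ?_ ?_ | refine D0.imp ?_ ?_ | refine D0.not ?_ | refine D0.ltF ?_ ?_ | refine D0.leF ?_ ?_ | refine D0.eqF ?_ ?_ | refine CT.eq ?_ ?_ | refine CT.mem ?_ _ | refine D0.memF ?_ (by assumption) | exact D0.true | exact D0.false | exact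 D0.const _ | exact hPD (DF.var _) | refine hPD ?_))
    · intro v
      exact ⟨fun h' => huniq _ _ h', fun h' => by rw [h']; exact hpd _⟩
  have hpdlt : ∀ n, 0 < n → pd n < n := by
    intro n hn
    have h1 := hpdpos n hn
    calc pd n < pd n + p2 (top n) := lt_add_of_pos_right _ (hB.p2_pos _)
      _ = n := h1.symm
  have hst : Pool.Agent.H645R2.R.D1 (fun v : Ctx N => v 2 = v 1 + φ (B (top (v 0)))) :=
    Pool.Agent.H645R2.R.D1.of (by (repeat' (first | assumption | exact DF.var _ | refine DF.add ?_ ?_ | refine DF.mul ?_ ?_ | refine DF.pr ?_ ?_ | exact DF.const _ | refine DF.app (by assumption) ?_ | refine CT.app1 (by assumption) ?_ | refine CT.app2 (by assumption) ?_ ?_ | exact CT.const _ | refine D0.MemCF ?_ ?_ | refine D0.IsCF ?_ | refine D0.and ?_ ?_ | refine D0.or ?_ ?_ | refine D0.ex ?_ | refine D0.all ?_ | refine D0.iff ?_ ?_ | refine D0.imp ?_ ?_ | refine D0.not ?_ | refine D0.ltF ?_ ?_ | refine D0.leF ?_ ?_ | refine D0.eqF ?_ ?_ | refine CT.eq ?_ ?_ | refine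 CT.mem ?_ _ | refine D0.memF ?_ (by assumption) | exact D0.true | exact D0.false | exact D0.const _ | exact hPD (DF.var _) | refine hPD ?_)))
  obtain ⟨σ, hσ', hσ0, hσs⟩ := Pool.Agent.H645R2.R.recur N pd
    (fun n s => s + φ (B (top n))) 0 hpdD hst hpdlt
  have hσ : DF1 σ := hσ'
  have hadd : ∀ m i, m < p2 i → σ (m + p2 i) = σ m + φ (B i) := by
    intro m i hmi
    have htopn : top (m + p2 i) = i := hB.top_add m i hmi
    have hpdn : pd (m + p2 i) = m := by
      refine (huniq (m + p2 i) m (Or.inl ?_)).symm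
      rw [htopn]
    have hpos : 0 < m + p2 i := add_pos_of_nonneg_of_pos (zero_le' _) (hB.p2_pos i)
    rw [hσs _ hpos, hpdn, htopn]
  refine ⟨fun i => φ (B i), σ, ⟨hx, hσ, fun i => (hle i).trans (hφQ (B i)).1.1.le, hσ0, hadd⟩, ?_, ?_, ?_⟩
  pick_goal 3
  · intro i j hij
    have hstep : ∀ i, B i < B (i + 1) := by
      intro i
      have h1 := (hφQ (B i)).1.1
      rw [hBs]
      exact lt_of_lt_of_le h1 (le_add_of_nonneg_left (zero_le' _))
    have hmono := Pool.Agent.H675R2.HT.mono_of_step hB' hstep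
    have h2 : B (i + 1) ≤ B j := by
      rcases lt_or_eq_of_le (add_one_le_iff'.2 hij) with h1 | h1
      · exact (hmono _ _ h1).le
      · exact (congrArg B h1).le
    obtain ⟨-, m, q, h3, h4⟩ := hφQ (B j)
    refine ⟨m, q, lt_of_le_of_lt ?_ h3, h4⟩
    refine le_trans ?_ h2
    rw [hBs]
    exact le_add_of_nonneg_left (zero_le' _)
  swap
  · intro i
    have h1 := (hφQ (B (i + 1))).1.1
    refine lt_of_le_of_lt ?_ h1
    rw [hBs]
    exact le_add_of_nonneg_left (zero_le' _)
  have key : ∀ i, ∀ m, m < p2 i → (σ m ≤ B i ∧ (0 < m → P (σ m))) := by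
    refine Pool.Agent.H675R2.HT.ind
      (P := fun i => ∀ m, m < p2 i → (σ m ≤ B i ∧ (0 < m → P (σ m)))) ?_ ?_ ?_
    · (repeat' (first | assumption | exact DF.var _ | refine DF.add ?_ ?_ | refine DF.mul ?_ ?_ | refine DF.pr ?_ ?_ | exact DF.const _ | refine DF.app (by assumption) ?_ | refine CT.app1 (by assumption) ?_ | refine CT.app2 (by assumption) ?_ ?_ | exact CT.const _ | refine D0.MemCF ?_ ?_ | refine D0.IsCF ?_ | refine D0.and ?_ ?_ | refine D0.or ?_ ?_ | refine D0.ex ?_ | refine D0.all ?_ | refine D0.iff ?_ ?_ | refine D0.imp ?_ ?_ | refine D0.not ?_ | refine D0.ltF ?_ ?_ | refine D0.leF ?_ ?_ | refine D0.eqF ?_ ?_ | refine CT.eq ?_ ?_ | refine CT.mem ?_ _ | refine D0.memF ?_ (by assumption) | exact D0.true | exact D0.false | exact D0.const _ | exact hPD (DF.var _) | refine hPD ?_))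
    · intro m hm
      rw [hB.p2_zero] at hm
      have hm0 : m = 0 := by
        rcases eq_zero_or_succ m with h | ⟨m', rfl⟩
        · exact h
        · exfalso
          have h1 : (1 : N.M) ≤ m' + 1 := le_add_of_nonneg_left (zero_le' _)
          exact absurd hm (not_lt_of_ge h1)
      subst hm0
      rw [hσ0, hB0]
      exact ⟨zero_le' _, fun h => absurd h (lt_irrefl _)⟩
    · intro i ih m' hm'
      have hBle : B i + φ (B i) ≤ B (i + 1) := by
        rw [hBs]
        exact add_le_add (le_add_of_nonneg_right (zero_le' _)) le_rfl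
      rcases lt_or_ge m' (p2 i) with h1 | h1
      · obtain ⟨h2, h3⟩ := ih m' h1
        exact ⟨(h2.trans (le_add_of_nonneg_right (zero_le' _))).trans hBle, h3⟩
      · obtain ⟨m, hm⟩ := (le_iff_add' _ _).1 h1
        rw [add_comm] at hm
        subst hm
        have hmlt : m < p2 i := by
          rw [hB.p2_succ] at hm'
          exact lt_of_add_lt_add_right hm'
        obtain ⟨h2, h3⟩ := ih m hmlt
        rw [hadd m i hmlt]
        refine ⟨(add_le_add h2 le_rfl).trans hBle, fun _ => ?_⟩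
        by_cases hm0 : m = 0
        · rw [hm0, hσ0, zero_add]
          exact (hφQ (B i)).1.2.1
        · exact (hφQ (B i)).1.2.2 _ h2 (h3 (Helper617.RM.pos_of_ne_zero hm0))
  exact fun n hn => (key n n (hB.lt_p2 n)).2 hn

end Pool.Agent.H654.HA
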