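import Mathlib
import Pool.Agent.H654.HA.Defs

namespace Pool.Agent.H654.HA

open Pool.Agent.Helper617.RM Pool.Agent.H645R2.K
open Pool.Agent.H645R2.R (BinF Ev Enum Bd)

universe u

set_option linter.unusedSectionVars false
set_option linter.unusedVariables false

/-- a homogeneous set with apartness has elements with arbitrarily high lowest position -/
theorem far2 (N : L2Structure.{u}) [IsModelRCA0 N] (p2 top la : N.M → N.M) (C : N.M → Fin 2)
    (hF : BinF p2 top la) (X : Set N.M) (hX : HomA p2 C X) : ∀ b, ∃ x ∈ X, b < la x := by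
  intro b
  obtain ⟨x, hxX, hx⟩ := hX.hom.unb (p2 b)
  obtain ⟨y, hyX, hxy⟩ := hX.hom.unb x
  obtain ⟨i, q, hxi, hyq⟩ := hX.apart x hxX y hyX hxy
  refine ⟨y, hyX, ?_⟩
  have hbi : b < i := by
    by_contra hcon
    push Not at hcon
    have h1 : p2 i ≤ p2 b := by
      rcases lt_or_eq_of_le hcon with e | e
      · exact (hF.p2_lt _ _ e).le
      · rw [e]
    exact absurd (lt_trans hx hxi) (not_lt.2 h1)
  have hq : 0 < q := by
    rcases lt_or_eq_of_le (zero_le' q) with e | e
    · exact e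
    · exfalso
      rw [← e, mul_zero] at hyq
      have h2 := hX.pos y hyX
      rw [hyq] at h2
      exact lt_irrefl _ h2
  have h3 := hF.le_la i q hq
  rw [← hyq] at h3
  exact lt_of_lt_of_le hbi h3

theorem set2 (hg : S_gap2.{u}) : S_set2.{u} := by
  intro N _ p2 top la W C hF hW hC X hX
  refine ⟨far2 N p2 top la C hF X hX, ?_⟩
  intro h hhX z hz s hs
  by_contra hna
  have hpos := hX.pos h hhX
  obtain ⟨M, hsM, hM⟩ := Pool.Agent.H645R2.R.bd N W hW (la h) s
  obtain ⟨l, hlX, hl⟩ := far2 N p2 top la C hF X hX (M + top h)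
  have hlpos := hX.pos l hlX
  have hWM : W M z := hM z hz s hs
  have e0 : M + top h + 1 ≤ la l := add_one_le_iff'.2 hl
  have z2 : (0 : N.M) ≤ M := zero_le' _
  have z3 : (0 : N.M) ≤ top h := zero_le' _
  have e1 : top h + 1 ≤ la l := by grind
  have e2 : M ≤ la l := by grind
  have e3 : h < p2 (la l) := by
    refine lt_of_lt_of_le (hF.lt_top h) ?_
    rcases lt_or_eq_of_le e1 with e | e
    · exact (hF.p2_lt _ _ e).le
    · rw [e]
  obtain ⟨q, hq⟩ := hF.la_eq l hlpos
  have hq1 : (1 : N.M) ≤ q + q + 1 := by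
    have : (0 : N.M) ≤ q := zero_le' _
    grind
  have hq0 : (0 : N.M) < q + q + 1 := lt_of_lt_of_le zero_lt_one hq1
  have hle : p2 (la l) ≤ l := by
    calc p2 (la l) = p2 (la l) * 1 := (mul_one _).symm
      _ ≤ p2 (la l) * (q + q + 1) := mul_le_mul_of_nonneg_left hq1 (zero_le' _)
      _ = l := hq.symm
  have hlt : h < l := lt_of_lt_of_le e3 hle
  have h1 := (hg N p2 top la W C hF hW hC (la h) M hM h (la l) hpos e3 le_rfl e2
    (q + q + 1) hq0).1 ⟨z, hz, hWM, hna⟩
  rw [← hq, hX.hom.two h hhX l hlX hlt] at h1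
  exact (by decide : ∀ x : Fin 2, x ≠ x + 1) _ h1

end Pool.Agent.H654.HA
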