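import Mathlib
import Pool.Agent.H654.HA.Defs

/-!
The facts about the sums (HA-E).
-/

namespace Pool.Agent.H654.HA

open Pool.Agent.Helper617.RM Pool.Agent.H645R2.K
open Pool.Agent.H645R2.R (BinF Ev Enum Bd D1 DG GF lt1 le_of_lt1 succ_le')

universe u

set_option linter.unusedSectionVars false
set_option linter.unusedVariables false

theorem sum : S_sum.{u} := by
  intro N _ _ p2 top la hB x σ hS
  have hσ : GF σ := hS.hσ
  have dec : ∀ q : N.M, 0 < q → ∃ q', q' < p2 (top q) ∧ q = q' + p2 (top q) := by
    intro q hq0
    rcases hB.dec q hq0 with h | ⟨q', _, h1, h2⟩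
    · exact ⟨0, hB.p2_pos _, by rw [zero_add]; exact h⟩
    · exact ⟨q', h1, h2⟩
  constructor
  · have key : ∀ b : N.M, ∀ q, q < b → q ≤ σ q := by
      intro b
      refine ind_S1 (P := fun b => ∀ q, q < b → q ≤ σ q) ?_ ?_ ?_ b
      · have : D1 (fun v : Ctx N => ∀ q, q < v 0 → q ≤ σ q) := by
          refine D1.ball (P := fun v q => q ≤ σ q) (DG.var 0) ?_
          exact D1.le (DG.var 0) (DG.app hσ (DG.var 0))
        exact this.1
      · intro q hq
        exact absurd hq (not_lt.2 (zero_le' q))
      · intro b ih q hq
        rcases (le_of_lt1 hq).lt_or_eq with h | rfl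
        · exact ih q h
        · rcases (zero_le' q).lt_or_eq with hq0 | hq0
          · obtain ⟨q', h1, h2⟩ := dec q hq0
            have hlt : q' < q := by
              have := hB.p2_pos (top q)
              conv_rhs => rw [h2]
              exact lt_add_of_pos_right _ this
            have h3 := ih q' hlt
            have h4 := hS.add q' (top q) h1
            have h5 : σ q = σ q' + x (top q) := by
              conv_lhs => rw [h2]
              exact h4
            rw [h5]
            calc q = q' + p2 (top q) := h2
              _ ≤ σ q' + x (top q) := add_le_add h3 (hS.x_ge _)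
          · rw [← hq0]
            exact zero_le' _
    intro n
    exact key (n + 1) n (lt1 n)
  · intro m i q hmi
    have key : ∀ b : N.M, ∀ q, q < b → σ (m + p2 i * q) = σ m + σ (p2 i * q) := by
      intro b
      refine ind_S1 (P := fun b => ∀ q, q < b → σ (m + p2 i * q) = σ m + σ (p2 i * q)) ?_ ?_ ?_ b
      · have : D1 (fun v : Ctx N => ∀ q, q < v 0 → σ (m + p2 i * q) = σ m + σ (p2 i * q)) := by
          refine D1.ball (P := fun v q => σ (m + p2 i * q) = σ m + σ (p2 i * q)) (DG.var 0) ?_
          exact D1.eq (DG.app hσ (DG.add (DG.const _) (DG.mul (DG.const _) (DG.var 0))))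
            (DG.add (DG.const _) (DG.app hσ (DG.mul (DG.const _) (DG.var 0))))
        exact this.1
      · intro q hq
        exact absurd hq (not_lt.2 (zero_le' q))
      · intro b ih q hq
        rcases (le_of_lt1 hq).lt_or_eq with h | rfl
        · exact ih q h
        · rcases (zero_le' q).lt_or_eq with hq0 | hq0
          · obtain ⟨q', hq', hqe⟩ := dec q hq0
            set j := top q with hj
            have hlt : q' < q := by
              have := hB.p2_pos j
              conv_rhs => rw [hqe]
              exact lt_add_of_pos_right _ this
            have hC' := ih q' hlt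
            have h1 : m + p2 i * q = (m + p2 i * q') + p2 (i + j) := by
              rw [hB.p2_add, hqe]; ring
            have h1' : p2 i * q = p2 i * q' + p2 (i + j) := by
              rw [hB.p2_add, hqe]; ring
            have h2 : m + p2 i * q' < p2 (i + j) := by
              rw [hB.p2_add]
              calc m + p2 i * q' < p2 i + p2 i * q' := by gcongr
                _ = p2 i * (q' + 1) := by ring
                _ ≤ p2 i * p2 j := by
                  have := succ_le' hq'
                  gcongr
            have h2' : p2 i * q' < p2 (i + j) := lt_of_le_of_lt (le_add_of_nonneg_left (zero_le' m)) h2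
            rw [h1, hS.add _ _ h2, hC', h1', hS.add _ _ h2', add_assoc]
          · rw [← hq0, mul_zero, add_zero, hS.zero, add_zero]
    exact key (q + 1) q (lt1 q)

end Pool.Agent.H654.HA
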