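import Mathlib
import Pool.Agent.H654.HA.DefsB

/-!
HB-A: the summation function of a set (by helper720).
-/

namespace Pool.Agent.H654.HA

open Pool.Agent.Helper617.RM
open Pool.Agent.H645R2.R (BinF Ev Enum Bd ColSys GF)

universe u

set_option linter.unusedSectionVars false
set_option linter.unusedVariables false

namespace SumfunX

open Pool.Agent.H645R2.R (D1 DG lt1 recur)

variable {N : L2Structure.{u}} [IsModelRCA0 N]

/-- the predecessor function -/
theorem exists_pd (N : L2Structure.{u}) [IsModelRCA0 N] :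
    ∃ pd : N.M → N.M, GF pd ∧ ∀ n, pd (n + 1) = n := by
  have hex : ∀ n : N.M, ∃ m, n = m + 1 ∨ (n = 0 ∧ m = 0) := by
    intro n
    rcases eq_zero_or_succ n with h | ⟨m, h⟩
    · exact ⟨0, Or.inr ⟨h, rfl⟩⟩
    · exact ⟨m, Or.inl h⟩
  choose pd hpd using hex
  have hne : ∀ m : N.M, m + 1 ≠ 0 := fun m h => by
    have h1 : (0 : N.M) < m + 1 := lt_of_le_of_lt (zero_le' m) (lt1 m)
    rw [h] at h1
    exact lt_irrefl _ h1
  have huniq : ∀ n m, (n = m + 1 ∨ (n = 0 ∧ m = 0)) → m = pd n := by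
    intro n m hm
    rcases hm with hm | ⟨hn, hm⟩
    · rcases hpd n with h2 | ⟨h2, _⟩
      · exact add_cancel' (hm.symm.trans h2)
      · exact absurd (hm.symm.trans h2) (hne m)
    · rcases hpd n with h2 | ⟨_, h3⟩
      · exact absurd (h2.symm.trans hn) (hne _)
      · rw [hm, h3]
  refine ⟨pd, ?_, fun n => (huniq (n + 1) n (Or.inl rfl)).symm⟩
  refine D0.congr (R := fun v => v 0 = v 1 + 1 ∨ (v 0 = 0 ∧ v 1 = 0)) ?_ fun v => ?_
  · exact D0.or (D0.eq (Tm.var 0) ((Tm.var 1).add (Tm.const 1)))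
      (D0.and (D0.eq (Tm.var 0) (Tm.const 0)) (D0.eq (Tm.var 1) (Tm.const 0)))
  · exact ⟨fun h => huniq _ _ h, fun h => by rw [h]; exact hpd _⟩

end SumfunX

open SumfunX in
open Pool.Agent.H645R2.R (D1 DG lt1 recur) in
open Classical in
theorem sumfun : S_sumfun.{u} := by
  intro N _ S hS
  obtain ⟨pd, hpd, hpds⟩ := exists_pd N
  have hst : D1 (fun v : Ctx N => v 2 =
      (fun n s => if pd n ∈ S then s + pd n else s : N.M → N.M → N.M) (v 0) (v 1)) := by
    have h1 : D1 (fun v : Ctx N => pd (v 0) ∈ S) := D1.mem (DG.app hpd (DG.var 0)) hS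
    refine D1.congr (R := fun v => (pd (v 0) ∈ S ∧ v 2 = v 1 + pd (v 0)) ∨
      (¬ pd (v 0) ∈ S ∧ v 2 = v 1)) ?_ fun v => ?_
    · exact D1.or (D1.and h1 (D1.eq (DG.var 2) (DG.add (DG.var 1) (DG.app hpd (DG.var 0)))))
        (D1.and h1.not (D1.eq (DG.var 2) (DG.var 1)))
    · by_cases h : pd (v 0) ∈ S
      · simp only [h, if_true, not_true, true_and, false_and, or_false]
      · simp only [h, if_false, not_false_eq_true, true_and, false_and, false_or]
  have hlt : ∀ n : N.M, 0 < n → pd n < n := by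
    intro n hn
    rcases eq_zero_or_succ n with h | ⟨m, h⟩
    · rw [h] at hn
      exact absurd hn (lt_irrefl _)
    · rw [h, hpds]
      exact lt1 m
  obtain ⟨g, hg, hg0, hgs⟩ := recur N pd
    (fun n s => if pd n ∈ S then s + pd n else s) 0 hpd hst hlt
  have hpos : ∀ n : N.M, 0 < n + 1 := fun n => lt_of_le_of_lt (zero_le' n) (lt1 n)
  refine ⟨g, hg, hg0, fun n hn => ?_, fun n hn => ?_⟩
  · have h1 := hgs (n + 1) (hpos n)
    simp only [hpds, if_pos hn] at h1
    exact h1
  · have h1 := hgs (n + 1) (hpos n)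
    simp only [hpds, if_neg hn] at h1
    exact h1

end Pool.Agent.H654.HA
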