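import Mathlib
import Pool.Agent.H654.HA.Defs

/-! HA-F (helper358): apartness for `K` colours solves the colourings that satisfy `ConcFS`. -/

namespace Pool.Agent.H654.HA

open Pool.Agent.Helper617.RM Pool.Agent.H645R2.K
open Pool.Agent.H645R2.R (BinF Ev Enum Bd)

universe u

set_option linter.unusedSectionVars false
set_option linter.unusedVariables false

theorem use (h1 : S_seq.{u}) (h2 : S_sum.{u}) : S_use.{u} := by
  intro N _ _ p2 top la hB k K col hcol hconc hA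
  classical
  obtain ⟨S, hS, P, hP, hPS, hsc⟩ := hconc
  obtain ⟨x, σ, hsys, hPσ⟩ := h1 N p2 top la hB P hP hsc
  obtain ⟨hge, hadd⟩ := h2 N p2 top la hB x σ hsys
  have hσ : DF1 σ := hsys.hσ
  have hcS : ∀ n, 0 < n → col (σ n) ∈ S := fun n hn => hPS _ (hPσ n hn)
  have hSpos : 0 < S.card := Finset.card_pos.2 ⟨_, hcS 1 zero_lt_one⟩
  have hK : 0 < K := lt_of_lt_of_le hSpos hS
  obtain ⟨e, he⟩ : ∃ e : Fin k → Fin K, ∀ i ∈ S, ∀ j ∈ S, e i = e j → i = j := by
    refine ⟨fun j => if h : j ∈ S then Fin.castLE hS (S.equivFin ⟨j, h⟩) else ⟨0, hK⟩, ?_⟩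
    intro i hi j hj hij
    simp only [dif_pos hi, dif_pos hj] at hij
    have h3 := S.equivFin.injective (Fin.castLE_injective hS hij)
    exact congrArg Subtype.val h3
  have hc : CT1 (fun n => e (col (σ n))) := by
    intro j
    refine (D0.finEx (ι := Fin k) (P := fun i v => col (σ (v 0)) = i ∧ e i = j)
      fun i => D0.and ((CT.app1 hcol (DF.app hσ (DF.var 0))) i) (D0.const _)).congr fun v => ?_
    constructor
    · rintro ⟨i, h3, h4⟩
      change e (col (σ (v 0))) = j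
      rw [h3]; exact h4
    · intro h; exact ⟨_, rfl, h⟩
  obtain ⟨Y, hY⟩ := hA _ hc
  have hYpos := hY.pos
  have key : ∀ m n, 0 < m → 0 < n → e (col (σ m)) = e (col (σ n)) → col (σ m) = col (σ n) :=
    fun m n hm hn h => he _ (hcS m hm) _ (hcS n hn) h
  have hYY : Y ∈ N.Sets := hY.hom.mem
  refine ⟨{z | ∃ y, y ∈ Y ∧ z = σ y}, ?_, ?_, ?_, ?_⟩
  · refine comp_D0 (P := fun z => ∃ y, y ∈ Y ∧ z = σ y) ?_
    exact D0.ex (D0.and (D0.memF (DF.var 0) hYY) (D0.eqF (DF.var 1) (DF.app hσ (DF.var 0))))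
  · intro b
    obtain ⟨y, hy, hby⟩ := hY.hom.unb b
    exact ⟨σ y, ⟨y, hy, rfl⟩, hby.trans_le (hge y)⟩
  · rintro _ ⟨y, hy, rfl⟩ _ ⟨y', hy', rfl⟩
    exact key y y' (hYpos y hy) (hYpos y' hy') (hY.hom.one y hy y' hy')
  · rintro _ ⟨y, hy, rfl⟩ _ ⟨y', hy', rfl⟩ hlt
    have hp := hYpos y hy
    have hp' := hYpos y' hy'
    rcases lt_trichotomy y y' with h | h | h
    · obtain ⟨i, q, h3, h4⟩ := hY.apart y hy y' hy' h
      have h5 := hadd y i q h3
      rw [← h4] at h5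
      rw [← h5]
      exact key (y + y') y (add_pos_of_pos_of_nonneg hp (zero_le' _)) hp
        (hY.hom.two y hy y' hy' h)
    · rw [h] at hlt
      exact absurd hlt (lt_irrefl _)
    · obtain ⟨i, q, h3, h4⟩ := hY.apart y' hy' y hy h
      have h5 := hadd y' i q h3
      rw [← h4] at h5
      rw [add_comm, ← h5]
      refine key (y' + y) y (add_pos_of_pos_of_nonneg hp' (zero_le' _)) hp ?_
      exact (hY.hom.two y' hy' y hy h).trans (hY.hom.one y' hy' y hy)

end Pool.Agent.H654.HA
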